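import Pool.Agent.SSD.Targets
import Pool.Agent.SSC.ASM

/-!
# AS3: the killed tuples
-/

set_option autoImplicit false

open scoped BigOperators Classical
open Finset

namespace SSD

open SSC

namespace AS3_

open SSC.ASM_

/-- splitting a sum over a finite set of primes -/
theorem split2 {I : Finset ℕ} {S : Set ℕ} {f X : ℕ → ℝ} {z w v c₁ c₂ : ℝ} (hzw : z ≤ w)
    (hI : ∀ p ∈ I, p ∈ S ∧ 1 ≤ p ∧ (p : ℝ) ≤ v) (hX : ∀ p ∈ S, 0 ≤ X p) (hc₁ : 0 ≤ c₁) (hc₂ : 0 ≤ c₂)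
    (h1 : ∀ p ∈ I, (p : ℝ) ≤ z → f p ≤ X p + c₁)
    (h2 : ∀ p ∈ I, z < (p : ℝ) → (p : ℝ) ≤ w → f p ≤ c₁)
    (h3 : ∀ p ∈ I, w < (p : ℝ) → f p ≤ c₂) :
    ∑ p ∈ I, f p ≤ (∑ p ∈ (Icc 1 ⌊z⌋₊).filter (fun p : ℕ => p ∈ S), X p) + NS S w * c₁ +
      c₂ * NS S v := by
  have h := split_sum (I := I) (S := S) (f := fun p => f p - (if (p : ℝ) ≤ w then c₁ else 0))
    (X := X) (z := z) (w := w) (v := v) (c₁ := 0) (c₂ := c₂) hI hX le_rfl hc₂ ?_ ?_ ?_
  · have e : ∑ p ∈ I, (if (p : ℝ) ≤ w then c₁ else 0) ≤ NS S w * c₁ := by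
      rw [← Finset.sum_filter, Finset.sum_const, nsmul_eq_mul]
      apply mul_le_mul_of_nonneg_right _ hc₁
      apply card_le_NS
      intro p hp
      obtain ⟨hp1, hp2⟩ := Finset.mem_filter.1 hp
      exact ⟨(hI p hp1).1, hp2⟩
    have e2 : ∑ p ∈ I, f p = ∑ p ∈ I, (f p - (if (p : ℝ) ≤ w then c₁ else 0)) +
        ∑ p ∈ I, (if (p : ℝ) ≤ w then c₁ else 0) := by
      rw [← Finset.sum_add_distrib]
      exact Finset.sum_congr rfl fun p _ => by ring
    rw [e2]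
    linarith
  · intro p hp hpz
    have h4 := h1 p hp hpz
    rw [if_pos (hpz.trans hzw)]
    linarith
  · intro p hp hpz hpw
    have h4 := h2 p hp hpz hpw
    rw [if_pos hpw]
    linarith
  · intro p hp _ hpw
    have h4 := h3 p hp hpw
    rw [if_neg (not_le.2 hpw)]
    linarith

/-- unfolding the membership in `UG` -/
theorem mem {S : Set ℕ} {M : ℕ} {ρ Y : ℝ} {F : Finset (Finset ℕ)} {t : ℕ × Finset ℕ × ℕ}
    (h : t ∈ UG S M ρ Y F) : t.2.1 ∈ F := by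
  unfold UG at h
  rw [mem_filter, mem_product, mem_product] at h
  exact h.1.2.1

/-- the product of distinct primes -/
theorem sqf (U : Finset ℕ) (hU : ∀ l ∈ U, l.Prime) : Squarefree (∏ l ∈ U, l) := by
  apply Finset.squarefree_prod_of_pairwise_isCoprime
  · intro a ha b hb hab
    rw [Function.onFun, Nat.coprime_iff_isRelPrime.symm]
    exact (Nat.coprime_primes (hU a (Finset.mem_coe.1 ha)) (hU b (Finset.mem_coe.1 hb))).2 hab
  · intro l hl
    exact (hU l hl).squarefree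

theorem wt_nonneg (U : Finset ℕ) : 0 ≤ wt U := Finset.prod_nonneg fun l _ => by positivity

theorem wt_eq (U : Finset ℕ) : wt U = 1 / ((∏ l ∈ U, l : ℕ) : ℝ) := by
  unfold wt
  push_cast
  rw [Finset.prod_div_distrib, Finset.prod_const_one]

/-- the tuples with factors `U` killed by `p` -/
theorem fibU (hTU : T_TU2) (hKI : T_KI3) (S : Set ℕ) (Kl : ℕ → ℕ → Prop) (M : ℕ) (ρ Y : ℝ) (K : ℕ)
    (F : Finset (Finset ℕ)) (hD : Data S Kl M ρ) (hY : 32 ≤ Y) (hF : Fam S Y K F) (p : ℕ)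
    (hp : p ∈ S) (h2 : 2 ≤ NS {D : ℕ | Adm M ρ D ∧ Kl D p} (2 * Y ^ 2))
    (W : Finset (ℕ × Finset ℕ × ℕ)) (hW : ∀ t ∈ W, t ∈ UG S M ρ Y F ∧ Kl (dd t) p)
    (U : Finset ℕ) (hU : U ∈ F) :
    ((W.filter fun t => t.2.1 = U).card : ℝ) ≤
      2 ^ K * (1 + 7 * (2 * Y ^ 2 * wt U) / Real.sqrt p) := by
  obtain ⟨hM, hρ1, hρ2, hS, -, hBin⟩ := hD
  have hSp : ∀ p ∈ S, p.Prime := fun p hp => (hS p hp).1
  obtain ⟨hT1, -, -, hT4⟩ := hTU S M ρ Y K F hSp hM hρ1 hρ2 hY hF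
  obtain ⟨hUc, hUm, -⟩ := hF U hU
  have hUp : ∀ l ∈ U, l.Prime := fun l hl => (hUm l hl).1
  have hT0 : (1 : ℝ) ≤ 2 * Y ^ 2 := by nlinarith
  have hΛ : 0 < ∏ l ∈ U, l := Finset.prod_pos fun l hl => (hUp l hl).pos
  have hΛR : (0 : ℝ) < ((∏ l ∈ U, l : ℕ) : ℝ) := by exact_mod_cast hΛ
  set N : ℕ := ∏ l ∈ U, l with hN
  have hinj : Set.InjOn (fun t : ℕ × Finset ℕ × ℕ => t.1 * t.2.2)
      ((W.filter fun t => t.2.1 = U : Finset (ℕ × Finset ℕ × ℕ)) : Set (ℕ × Finset ℕ × ℕ)) := by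
    intro t ht t' ht' he
    rw [Finset.mem_coe, mem_filter] at ht ht'
    exact hT4 U hU ⟨(hW t ht.1).1, ht.2⟩ ⟨(hW t' ht'.1).1, ht'.2⟩ he
  have hcard : ((W.filter fun t => t.2.1 = U).image fun t => t.1 * t.2.2).card =
      (W.filter fun t => t.2.1 = U).card := Finset.card_image_of_injOn hinj
  rw [← hcard]
  have hH : (0 : ℝ) ≤ 2 * Y ^ 2 * wt U := mul_nonneg (by positivity) (wt_nonneg U)
  have h := hKI p {D : ℕ | Adm M ρ D ∧ Kl D p} (hSp p hp) (hS p hp).2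
    (fun D hD => adm_pos hD.1) (hBin p hp) (2 * Y ^ 2) hT0 h2 N (2 * Y ^ 2 * wt U) (sqf U hUp) ?_ hH
    ((W.filter fun t => t.2.1 = U).image fun t => t.1 * t.2.2) ?_
  · rw [hN, Nat.primeFactors_prod hUp, hUc] at h
    exact h
  · intro l hl hlN
    have hlU : l ∈ U := by
      have : l ∈ (∏ l ∈ U, l).primeFactors := Nat.mem_primeFactors.2 ⟨hl, hlN, hΛ.ne'⟩
      rwa [Nat.primeFactors_prod hUp] at this
    obtain ⟨-, c2, c3⟩ := hUm l hlU
    refine ⟨c2, ?_⟩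
    intro h
    exact c3 (h ▸ hp)
  · intro h hh
    rw [mem_image] at hh
    obtain ⟨t, ht, rfl⟩ := hh
    rw [mem_filter] at ht
    obtain ⟨htU, hK⟩ := hW t ht.1
    obtain ⟨ha, -, hle, -, -⟩ := hT1 t htU
    have hdd : dd t = N * (t.1 * t.2.2) := by
      unfold dd
      rw [ht.2, ← hN]
      ring
    refine ⟨?_, ?_, ?_⟩
    · rw [← hdd]
      exact ⟨ha, hK⟩
    · rw [← hdd]
      exact hle
    · rw [hdd] at hle
      push_cast at hle ⊢
      rw [wt_eq, ← hN, mul_one_div, le_div_iff₀ hΛR]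
      calc (t.1 : ℝ) * t.2.2 * N = N * (t.1 * t.2.2) := by ring
        _ ≤ 2 * Y ^ 2 := hle

end AS3_

open SSC.ASM_ AS3_

theorem p_AS3 (h1 : T_TU2) (h2 : T_KIL) (h3 : T_KI3) : T_AS3 := by
  intro S Kl M ρ ε Y P K F hD hY hF hP1 hPY hε hkill
  have hD' := hD
  obtain ⟨hM, hρ1, hρ2, hS, -, hBin⟩ := hD
  have hSp : ∀ p ∈ S, p.Prime := fun p hp => (hS p hp).1
  obtain ⟨hT1, hT2, hT3, -⟩ := h1 S M ρ Y K F hSp hM hρ1 hρ2 hY hF
  have hY1 : (1 : ℝ) ≤ Y := by linarith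
  have hT0 : (1 : ℝ) ≤ 2 * Y ^ 2 := by nlinarith
  have hL : 0 ≤ Real.log Y := Real.log_nonneg hY1
  have hc : (0 : ℝ) ≤ (4 * Real.log Y) ^ K := by positivity
  have hY4 : (1 : ℝ) ≤ 4 * Y ^ 4 := by
    have : (1 : ℝ) ≤ Y ^ 4 := one_le_pow₀ hY1
    linarith
  -- the sets of killed numbers
  have hkil := fun (p : ℕ) (hp : p ∈ S) => h2 p {D : ℕ | Adm M ρ D ∧ Kl D p} (hSp p hp) (hS p hp).2
    (fun D hD => adm_pos hD.1) (hBin p hp) (2 * Y ^ 2) hT0
  have hBex : ∀ p : ℕ, ∃ B : Finset ℕ, (2 : ℝ) ^ B.card ≤ 4 * Y ^ 4 ∧ (p ∈ S →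
      2 ≤ NS {D : ℕ | Adm M ρ D ∧ Kl D p} (2 * Y ^ 2) → ∀ D ∈ {D : ℕ | Adm M ρ D ∧ Kl D p},
      (D : ℝ) ≤ 2 * Y ^ 2 → ∀ l : ℕ, l.Prime → 2 < l → l ≠ p → l ∣ D → l ∉ B → SSN.ch p l = 1) := by
    intro p
    by_cases hp : p ∈ S
    · obtain ⟨-, -, B, hB1, hB2⟩ := hkil p hp
      refine ⟨B, ?_, fun _ => hB2⟩
      calc (2 : ℝ) ^ B.card ≤ (2 * Y ^ 2) ^ 2 := hB1
        _ = 4 * Y ^ 4 := by ring
    · refine ⟨∅, ?_, fun h => absurd h hp⟩
      simpa using hY4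
  choose B hB1 hB2 using hBex
  refine ⟨B, hB1, ?_⟩
  choose! pf hpf using hkill
  -- the fibers
  have hfib : ∀ p ∈ (UG S M ρ Y F).image pf,
      (((UG S M ρ Y F).filter fun t => pf t = p).card : ℝ) ≤
        NS {D : ℕ | Adm M ρ D ∧ Kl D p} (2 * Y ^ 2) * (4 * Real.log Y) ^ K := by
    intro p _
    apply card_tuples hc
    · intro t ht
      obtain ⟨ht1, ht2⟩ := Finset.mem_filter.1 ht
      obtain ⟨ha, -, hle, -, -⟩ := hT1 t ht1
      have := (hpf t ht1).2.2.1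
      rw [ht2] at this
      exact ⟨⟨ha, this⟩, hle⟩
    · intro D
      refine le_trans ?_ (hT2 D)
      have : (((UG S M ρ Y F).filter fun t => pf t = p).filter fun t => dd t = D).card ≤
          ((UG S M ρ Y F).filter fun t => dd t = D).card := by
        apply Finset.card_le_card
        intro t ht
        obtain ⟨ht1, ht2⟩ := Finset.mem_filter.1 ht
        exact Finset.mem_filter.2 ⟨(Finset.mem_filter.1 ht1).1, ht2⟩
      exact_mod_cast this
  have hR : (0 : ℝ) ≤ RR S Y := Finset.sum_nonneg fun a _ => Nat.cast_nonneg a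
  have hE : ∀ G : Finset (Finset ℕ), (0 : ℝ) ≤ ∑ U ∈ G, wt U :=
    fun G => Finset.sum_nonneg fun U _ => wt_nonneg U
  have hP0 : 0 < P := by linarith
  have hsP : 0 < Real.sqrt P := Real.sqrt_pos.2 hP0
  have hc1 : (0 : ℝ) ≤ 2 ^ K * (F.card + 14 * Y ^ 2 / Real.sqrt P * ∑ U ∈ F, wt U) := by
    have := hE F
    positivity
  rw [Finset.card_eq_sum_card_image pf (UG S M ρ Y F)]
  push_cast
  have hmem : ∀ p ∈ (UG S M ρ Y F).image pf, p ∈ S ∧ 1 ≤ p ∧
      (p : ℝ) ≤ Real.exp ((2 * Y ^ 2) ^ (1 / 2 + ε)) := by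
    intro p hp
    obtain ⟨t, ht, rfl⟩ := Finset.mem_image.1 hp
    have h := hpf t ht
    exact ⟨h.1, (hSp _ h.1).one_lt.le, h.2.2.2⟩
  apply split2 hPY hmem
  · intro p _
    have := hE (F.filter fun U => ∀ l ∈ U, SSN.ch p l = 1 ∨ l ∈ B p)
    positivity
  · exact add_nonneg hc hc1
  · exact hc
  · -- small primes
    intro p hp hpz
    obtain ⟨hpS, -, -⟩ := hmem p hp
    have h6 := mul_nonneg (mul_nonneg (zero_le_two (α := ℝ)) hR)
      (hE (F.filter fun U => ∀ l ∈ U, SSN.ch p l = 1 ∨ l ∈ B p))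
    by_cases h2N : 2 ≤ NS {D : ℕ | Adm M ρ D ∧ Kl D p} (2 * Y ^ 2)
    · have hsub : (((UG S M ρ Y F).filter fun t => pf t = p).card : ℝ) ≤
          (((UG S M ρ Y F).filter fun t => t.2.1 ∈
            (F.filter fun U => ∀ l ∈ U, SSN.ch p l = 1 ∨ l ∈ B p)).card : ℝ) := by
        have : ((UG S M ρ Y F).filter fun t => pf t = p).card ≤
          ((UG S M ρ Y F).filter fun t => t.2.1 ∈
            (F.filter fun U => ∀ l ∈ U, SSN.ch p l = 1 ∨ l ∈ B p)).card := by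
          apply Finset.card_le_card
          intro t ht
          obtain ⟨ht1, ht2⟩ := Finset.mem_filter.1 ht
          refine Finset.mem_filter.2 ⟨ht1, ?_⟩
          have hU := AS3_.mem ht1
          refine Finset.mem_filter.2 ⟨hU, ?_⟩
          intro l hl
          by_cases hlB : l ∈ B p
          · exact Or.inr hlB
          · left
            obtain ⟨hlprime, hlne2, hlS⟩ := (hF _ hU).2.1 l hl
            obtain ⟨ha, -, hle, -, hdiv⟩ := hT1 t ht1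
            have hK := (hpf t ht1).2.2.1
            rw [ht2] at hK
            have hl2 : 2 < l := lt_of_le_of_ne hlprime.two_le (Ne.symm hlne2)
            have hlne : l ≠ p := by
              intro h
              exact hlS (h ▸ hpS)
            exact hB2 p hpS h2N (dd t) ⟨ha, hK⟩ hle l hlprime hl2 hlne (hdiv l hl) hlB
        exact_mod_cast this
      have h3 := hT3 (F.filter fun U => ∀ l ∈ U, SSN.ch p l = 1 ∨ l ∈ B p)
        (Finset.filter_subset _ _)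
      linarith
    · have h3 := hfib p hp
      have h4 := NS_lt_two h2N
      have h5 : NS {D : ℕ | Adm M ρ D ∧ Kl D p} (2 * Y ^ 2) * (4 * Real.log Y) ^ K ≤
          1 * (4 * Real.log Y) ^ K := mul_le_mul_of_nonneg_right h4 hc
      linarith
  · -- medium primes
    intro p hp hzp _
    obtain ⟨hpS, -, -⟩ := hmem p hp
    by_cases h2N : 2 ≤ NS {D : ℕ | Adm M ρ D ∧ Kl D p} (2 * Y ^ 2)
    · have hW : ∀ t ∈ (UG S M ρ Y F).filter fun t => pf t = p,
          t ∈ UG S M ρ Y F ∧ Kl (dd t) p := by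
        intro t ht
        obtain ⟨ht1, ht2⟩ := Finset.mem_filter.1 ht
        have hK := (hpf t ht1).2.2.1
        rw [ht2] at hK
        exact ⟨ht1, hK⟩
      have hmaps : ∀ t ∈ (UG S M ρ Y F).filter fun t => pf t = p, t.2.1 ∈ F := by
        intro t ht
        exact AS3_.mem (Finset.mem_filter.1 ht).1
      rw [Finset.card_eq_sum_card_fiberwise hmaps]
      push_cast
      have hsq : Real.sqrt P ≤ Real.sqrt p := Real.sqrt_le_sqrt hzp.le
      have hbd : ∀ U ∈ F, ((((UG S M ρ Y F).filter fun t => pf t = p).filter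
          fun t => t.2.1 = U).card : ℝ) ≤ 2 ^ K * (1 + 14 * Y ^ 2 / Real.sqrt P * wt U) := by
        intro U hU
        refine (fibU h1 h3 S Kl M ρ Y K F hD' hY hF p hpS h2N _ hW U hU).trans ?_
        apply mul_le_mul_of_nonneg_left _ (by positivity)
        have hw := wt_nonneg U
        have : 7 * (2 * Y ^ 2 * wt U) / Real.sqrt p ≤ 7 * (2 * Y ^ 2 * wt U) / Real.sqrt P :=
          div_le_div_of_nonneg_left (by positivity) hsP hsq
        have e : 7 * (2 * Y ^ 2 * wt U) / Real.sqrt P = 14 * Y ^ 2 / Real.sqrt P * wt U := by ring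
        linarith
      calc ∑ U ∈ F, ((((UG S M ρ Y F).filter fun t => pf t = p).filter
            fun t => t.2.1 = U).card : ℝ)
          ≤ ∑ U ∈ F, (2 : ℝ) ^ K * (1 + 14 * Y ^ 2 / Real.sqrt P * wt U) :=
            Finset.sum_le_sum hbd
        _ = 2 ^ K * (F.card + 14 * Y ^ 2 / Real.sqrt P * ∑ U ∈ F, wt U) := by
            rw [← Finset.mul_sum, Finset.sum_add_distrib, ← Finset.mul_sum, Finset.sum_const,
              nsmul_eq_mul, mul_one]
        _ ≤ _ := by linarith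
    · have h3 := hfib p hp
      have h4 := NS_lt_two h2N
      have h5 : NS {D : ℕ | Adm M ρ D ∧ Kl D p} (2 * Y ^ 2) * (4 * Real.log Y) ^ K ≤
          1 * (4 * Real.log Y) ^ K := mul_le_mul_of_nonneg_right h4 hc
      linarith
  · -- large primes
    intro p hp hwp
    obtain ⟨hpS, -, -⟩ := hmem p hp
    refine (hfib p hp).trans ?_
    have h4 : NS {D : ℕ | Adm M ρ D ∧ Kl D p} (2 * Y ^ 2) ≤ 1 := by
      apply (hkil p hpS).2.1
      have e : 4 * (2 * Y ^ 2) ^ 2 = 16 * Y ^ 4 := by ring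
      rw [e]
      exact hwp
    calc NS {D : ℕ | Adm M ρ D ∧ Kl D p} (2 * Y ^ 2) * (4 * Real.log Y) ^ K ≤
          1 * (4 * Real.log Y) ^ K := mul_le_mul_of_nonneg_right h4 hc
      _ = (4 * Real.log Y) ^ K := one_mul _

end SSD
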