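import Pool.Agent.SSD.Targets
import Pool.Agent.SSN.LBD

/-!
# MP_d74fca_nt, AXG: the Dirichlet hyperbola method for `1 * f` (adapted from SSN/AX.lean; helper76)
-/

set_option autoImplicit false

open scoped BigOperators Classical
open Finset

namespace SSD

open SSC

namespace AXG_

theorem abs_f_le {q : ℕ} {f : ℕ → ℤ} (h : RC q f) (n : ℕ) : |(f n : ℝ)| ≤ 1 := by
  rcases h.2.1 n with h1 | h1 | h1 <;> rw [h1] <;> simp

/-- sums of the character over initial segments -/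
theorem abs_sum_le {q : ℕ} {f : ℕ → ℤ} (h : RC q f) (m : ℕ) :
    |∑ n ∈ Icc 1 m, (f n : ℝ)| ≤ q := by
  obtain ⟨hq, -, χ, hχ, hc⟩ := h
  have : NeZero q := ⟨hq.ne'⟩
  have h2 := SSN.LBD_.norm_AA hχ m
  have e : SSN.LBD_.AA χ m = ((∑ n ∈ Icc 1 m, (f n : ℝ) : ℝ) : ℂ) := by
    unfold SSN.LBD_.AA
    have e1 : Icc 1 m = (range m).image (fun k => k + 1) := by
      ext x
      simp only [mem_Icc, mem_image, mem_range]
      constructor
      · rintro ⟨ha, hb⟩
        exact ⟨x - 1, by omega, by omega⟩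
      · rintro ⟨k, hk, rfl⟩
        omega
    rw [e1, sum_image (fun a _ b _ h => by simpa using h)]
    push_cast
    refine sum_congr rfl fun k _ => ?_
    have := hc (k + 1)
    push_cast at this
    exact this
  rw [e, Complex.norm_real, Real.norm_eq_abs] at h2
  exact h2

/-- exchange of the summations -/
theorem sum_rr (f : ℕ → ℤ) (N : ℕ) : ∑ n ∈ Icc 1 N, (rg f n : ℝ) =
    ∑ d ∈ Icc 1 N, (f d : ℝ) * ((N / d : ℕ) : ℝ) := by
  have e1 : ∀ n ∈ Icc 1 N, (rg f n : ℝ) = ∑ d ∈ Icc 1 N, if d ∣ n then (f d : ℝ) else 0 := by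
    intro n hn
    rw [mem_Icc] at hn
    unfold rg
    push_cast
    rw [← sum_filter]
    refine sum_congr ?_ fun _ _ => rfl
    ext d
    simp only [Nat.mem_divisors, mem_filter, mem_Icc]
    constructor
    · rintro ⟨hd, h0⟩
      exact ⟨⟨Nat.pos_of_dvd_of_pos hd (by omega), (Nat.le_of_dvd (by omega) hd).trans hn.2⟩, hd⟩
    · rintro ⟨_, hd⟩
      exact ⟨hd, by omega⟩
  rw [sum_congr rfl e1, sum_comm]
  refine sum_congr rfl fun d _ => ?_
  rw [← sum_filter, sum_const, nsmul_eq_mul, mul_comm]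
  congr 2
  have := Nat.Ioc_filter_dvd_card_eq_div N d
  rw [← this]
  rfl

/-- the tail of the hyperbola -/
theorem tail_eq (f : ℕ → ℤ) (N y : ℕ) :
    ∑ d ∈ Ioc y N, (f d : ℝ) * ((N / d : ℕ) : ℝ) =
      ∑ m ∈ Icc 1 (N / (y + 1)), ∑ d ∈ Ioc y (N / m), (f d : ℝ) := by
  have e1 : ∀ d ∈ Ioc y N, (f d : ℝ) * ((N / d : ℕ) : ℝ) =
      ∑ m ∈ Icc 1 (N / (y + 1)), if m * d ≤ N then (f d : ℝ) else 0 := by
    intro d hd
    rw [mem_Ioc] at hd
    rw [← sum_filter, sum_const, nsmul_eq_mul, mul_comm]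
    congr 2
    have e2 : (Icc 1 (N / (y + 1))).filter (fun m => m * d ≤ N) = Icc 1 (N / d) := by
      ext m
      simp only [mem_filter, mem_Icc]
      rw [Nat.le_div_iff_mul_le (by omega : 0 < d), Nat.le_div_iff_mul_le (by omega : 0 < y + 1)]
      constructor
      · rintro ⟨⟨ha, _⟩, hb⟩
        exact ⟨ha, hb⟩
      · rintro ⟨ha, hb⟩
        exact ⟨⟨ha, (Nat.mul_le_mul_left m (by omega : y + 1 ≤ d)).trans hb⟩, hb⟩
    rw [e2]
    simp
  rw [sum_congr rfl e1, sum_comm]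
  refine sum_congr rfl fun m hm => ?_
  rw [mem_Icc] at hm
  rw [← sum_filter]
  refine sum_congr ?_ fun _ _ => rfl
  ext d
  simp only [mem_filter, mem_Ioc]
  rw [Nat.le_div_iff_mul_le (by omega : 0 < m), mul_comm d m]
  constructor
  · rintro ⟨⟨ha, _⟩, hb⟩
    exact ⟨ha, hb⟩
  · rintro ⟨ha, hb⟩
    exact ⟨⟨ha, (Nat.le_mul_of_pos_left d (by omega)).trans hb⟩, hb⟩

theorem abs_inner_le {q : ℕ} {f : ℕ → ℤ} (h : RC q f) {y z : ℕ} (hyz : y ≤ z) :
    |∑ d ∈ Ioc y z, (f d : ℝ)| ≤ 2 * q := by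
  have e : ∑ d ∈ Ioc y z, (f d : ℝ) =
      (∑ d ∈ Icc 1 z, (f d : ℝ)) - ∑ d ∈ Icc 1 y, (f d : ℝ) := by
    have e1 : Icc 1 z = Icc 1 y ∪ Ioc y z := by
      ext x
      simp only [mem_union, mem_Icc, mem_Ioc]
      omega
    have hd : Disjoint (Icc 1 y) (Ioc y z) := by
      rw [disjoint_left]
      intro x hx hx'
      rw [mem_Icc] at hx
      rw [mem_Ioc] at hx'
      omega
    rw [e1, sum_union hd]
    ring
  rw [e]
  have a1 := abs_sum_le h z
  have a2 := abs_sum_le h y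
  refine (abs_sub _ _).trans ?_
  linarith

end AXG_

theorem p_AXG : T_AXG := by
  refine ⟨9, by norm_num, ?_⟩
  intro q f L hRC hL N hN
  have hq : 0 < q := hRC.1
  have hq' : (1 : ℝ) ≤ q := by exact_mod_cast hq
  have hNpos : 0 < N := by omega
  have hN' : (0 : ℝ) < N := by exact_mod_cast hNpos
  -- the cut
  set y : ℕ := Nat.sqrt (q * N) with hy
  have hyN : y ≤ N := by
    have h2 : q * N ≤ N * N := Nat.mul_le_mul_right N hN
    have h3 := Nat.sqrt_le_sqrt h2
    rw [Nat.sqrt_eq] at h3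
    exact h3
  have hy1 : 1 ≤ y := by
    rw [hy, Nat.le_sqrt]
    exact Nat.mul_pos hq hNpos
  have hy1' : (1 : ℝ) ≤ y := by exact_mod_cast hy1
  set s : ℝ := Real.sqrt (q * N) with hs
  have hs0 : 0 < s := Real.sqrt_pos.2 (by positivity)
  have hss : s * s = q * N := Real.mul_self_sqrt (by positivity)
  have hy_le : (y : ℝ) ≤ s := by
    have h2 : y * y ≤ q * N := Nat.sqrt_le (q * N)
    have h3 : (y : ℝ) * y ≤ q * N := by exact_mod_cast h2
    nlinarith
  have hy_ge : s ≤ 2 * y := by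
    have h2 : q * N < (y + 1) * (y + 1) := Nat.lt_succ_sqrt (q * N)
    have h3 : (q : ℝ) * N < (y + 1) * (y + 1) := by exact_mod_cast h2
    nlinarith
  -- splitting
  rw [AXG_.sum_rr]
  have e1 : Icc 1 N = Icc 1 y ∪ Ioc y N := by
    ext x
    simp only [mem_union, mem_Icc, mem_Ioc]
    omega
  have hd : Disjoint (Icc 1 y) (Ioc y N) := by
    rw [disjoint_left]
    intro x hx hx'
    rw [mem_Icc] at hx
    rw [mem_Ioc] at hx'
    omega
  rw [e1, sum_union hd, AXG_.tail_eq]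
  -- the second part
  have hT : |∑ m ∈ Icc 1 (N / (y + 1)), ∑ d ∈ Ioc y (N / m), (f d : ℝ)| ≤ 2 * q * N / y := by
    have h2 : |∑ m ∈ Icc 1 (N / (y + 1)), ∑ d ∈ Ioc y (N / m), (f d : ℝ)| ≤
        ∑ m ∈ Icc 1 (N / (y + 1)), (2 * q : ℝ) := by
      refine (abs_sum_le_sum_abs _ _).trans (sum_le_sum fun m hm => ?_)
      rw [mem_Icc] at hm
      refine AXG_.abs_inner_le hRC ?_
      have h3 := (Nat.le_div_iff_mul_le (by omega : 0 < y + 1)).1 hm.2
      rw [Nat.le_div_iff_mul_le (by omega : 0 < m), mul_comm]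
      exact (Nat.mul_le_mul_left m (by omega : y ≤ y + 1)).trans h3
    rw [sum_const, nsmul_eq_mul, Nat.card_Icc, Nat.add_sub_cancel] at h2
    refine h2.trans ?_
    have h4 : ((N / (y + 1) : ℕ) : ℝ) ≤ N / y := by
      refine Nat.cast_div_le.trans ?_
      push_cast
      exact div_le_div_of_nonneg_left hN'.le (by linarith) (by linarith)
    calc ((N / (y + 1) : ℕ) : ℝ) * (2 * q) ≤ (N / y) * (2 * q) :=
          mul_le_mul_of_nonneg_right h4 (by positivity)
      _ = 2 * q * N / y := by ring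
  -- the first part
  have hS : |∑ d ∈ Icc 1 y, (f d : ℝ) * ((N / d : ℕ) : ℝ) -
      N * ∑ d ∈ Icc 1 y, (f d : ℝ) / d| ≤ y := by
    rw [mul_sum, ← sum_sub_distrib]
    refine (abs_sum_le_sum_abs _ _).trans ?_
    calc ∑ d ∈ Icc 1 y, |(f d : ℝ) * ((N / d : ℕ) : ℝ) - N * ((f d : ℝ) / d)|
        ≤ ∑ d ∈ Icc 1 y, (1 : ℝ) := by
          refine sum_le_sum fun d hd' => ?_
          rw [mem_Icc] at hd'
          have hd0 : (0 : ℝ) < d := by exact_mod_cast (by omega : 0 < d)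
          have e2 : (f d : ℝ) * ((N / d : ℕ) : ℝ) - N * ((f d : ℝ) / d) =
              (f d : ℝ) * (((N / d : ℕ) : ℝ) - N / d) := by ring
          rw [e2, abs_mul]
          have h5 : |((N / d : ℕ) : ℝ) - N / d| ≤ 1 := by
            have a1 : ((N / d : ℕ) : ℝ) ≤ N / d := Nat.cast_div_le
            have a2 : (N : ℝ) / d < ((N / d : ℕ) : ℝ) + 1 := by
              rw [div_lt_iff₀ hd0]
              have b1 := Nat.div_add_mod N d
              have b2 := Nat.mod_lt N (by omega : d > 0)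
              have b3 : N < (N / d + 1) * d := by nlinarith
              exact_mod_cast b3
            rw [abs_le]
            constructor <;> linarith
          calc |(f d : ℝ)| * |((N / d : ℕ) : ℝ) - N / d| ≤ 1 * 1 :=
                mul_le_mul (AXG_.abs_f_le hRC d) h5 (abs_nonneg _) (by norm_num)
            _ = 1 := by norm_num
      _ = y := by simp
  have hL' : |N * (∑ d ∈ Icc 1 y, (f d : ℝ) / d) - N * L| ≤ 2 * q * N / y := by
    rw [← mul_sub, abs_mul, abs_of_pos hN']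
    calc (N : ℝ) * |(∑ d ∈ Icc 1 y, (f d : ℝ) / d) - L| ≤ N * (2 * q / y) :=
          mul_le_mul_of_nonneg_left (hL y hy1) hN'.le
      _ = 2 * q * N / y := by ring
  have hmain : (2 : ℝ) * q * N / y ≤ 4 * s := by
    rw [div_le_iff₀ (by linarith)]
    nlinarith
  have htri : |∑ d ∈ Icc 1 y, (f d : ℝ) * ((N / d : ℕ) : ℝ) +
      ∑ m ∈ Icc 1 (N / (y + 1)), ∑ d ∈ Ioc y (N / m), (f d : ℝ) - N * L| ≤
      y + 2 * q * N / y + 2 * q * N / y := by
    rw [abs_le] at hS hL' hT ⊢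
    constructor <;> linarith [hS.1, hS.2, hL'.1, hL'.2, hT.1, hT.2]
  refine htri.trans ?_
  linarith

end SSD
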