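import Pool.Agent.SSD.Targets
import Pool.Agent.SSD.CHEG
import Pool.Agent.SSC.CHG

/-!
# MP_d74fca_nt, CHGG: comparison of `(σ-1) G(σ)` at two points, general real characters (helper76)

The general lemmas of SSC/CHG.lean are used with `q` in place of `Δ`.
-/

set_option autoImplicit false

open scoped BigOperators Classical
open Finset

namespace SSD

open SSC

namespace CHGG_

open SSC.CHG_

/-- `(4 q)^u ≤ 4 e ^ 2` -/
theorem pow_le {q : ℕ} (hq : 0 < q) {u : ℝ} (hu : 0 < u) (hu1 : u ≤ 1)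
    (hD : (q : ℝ) ≤ Real.exp (2 / u)) : (4 * (q : ℝ)) ^ u ≤ 4 * Real.exp 2 := by
  have h1 : (0 : ℝ) < q := by exact_mod_cast hq
  rw [Real.mul_rpow (by norm_num) h1.le]
  have h2 : (4 : ℝ) ^ u ≤ 4 := by
    calc (4 : ℝ) ^ u ≤ (4 : ℝ) ^ (1 : ℝ) := Real.rpow_le_rpow_of_exponent_le (by norm_num) hu1
      _ = 4 := Real.rpow_one 4
  have h3 : (q : ℝ) ^ u ≤ Real.exp 2 := by
    calc (q : ℝ) ^ u ≤ (Real.exp (2 / u)) ^ u := Real.rpow_le_rpow h1.le hD hu.le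
      _ = Real.exp 2 := by
        rw [← Real.exp_mul]
        congr 1
        field_simp
  exact mul_le_mul h2 h3 (Real.rpow_nonneg h1.le _) (by norm_num)

/-- comparison of the initial segments -/
theorem init_le {q : ℕ} (hq : 0 < q) {f : ℕ → ℝ} (hf : ∀ n, 0 ≤ f n) {u₁ u₂ : ℝ}
    (hu1 : 0 < u₁) (hu12 : u₁ ≤ u₂) (hu2 : u₂ ≤ 1) (hD : (q : ℝ) ≤ Real.exp (2 / u₂)) :
    ∑ n ∈ Icc 1 (4 * q), f n * (n : ℝ) ^ (-(1 + u₁)) ≤
      4 * Real.exp 2 * ∑ n ∈ Icc 1 (4 * q), f n * (n : ℝ) ^ (-(1 + u₂)) := by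
  rw [mul_sum]
  refine sum_le_sum fun n hn => ?_
  rw [mem_Icc] at hn
  have hn0 : (0 : ℝ) < n := by exact_mod_cast hn.1
  have hn1 : (1 : ℝ) ≤ n := by exact_mod_cast hn.1
  have hn4 : (n : ℝ) ≤ 4 * q := by exact_mod_cast hn.2
  have h1 : (n : ℝ) ^ u₂ ≤ 4 * Real.exp 2 :=
    (Real.rpow_le_rpow hn0.le hn4 (by linarith)).trans (pow_le hq (by linarith) hu2 hD)
  have h2 : (n : ℝ) ^ (-(1 + u₁)) ≤ 4 * Real.exp 2 * (n : ℝ) ^ (-(1 + u₂)) := by
    calc (n : ℝ) ^ (-(1 + u₁)) ≤ (n : ℝ) ^ (-1 : ℝ) :=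
          Real.rpow_le_rpow_of_exponent_le hn1 (by linarith)
      _ = (n : ℝ) ^ u₂ * (n : ℝ) ^ (-(1 + u₂)) := by
          rw [← Real.rpow_add hn0]
          congr 1
          ring
      _ ≤ 4 * Real.exp 2 * (n : ℝ) ^ (-(1 + u₂)) :=
          mul_le_mul_of_nonneg_right h1 (Real.rpow_nonneg hn0.le _)
  calc f n * (n : ℝ) ^ (-(1 + u₁)) ≤ f n * (4 * Real.exp 2 * (n : ℝ) ^ (-(1 + u₂))) :=
        mul_le_mul_of_nonneg_left h2 (hf n)
    _ = 4 * Real.exp 2 * (f n * (n : ℝ) ^ (-(1 + u₂))) := by ring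

/-- lower bound for the sum -/
theorem tsum_low {q : ℕ} (hq : 0 < q) {f : ℕ → ℝ} (hf : ∀ n, 0 ≤ f n) {L C : ℝ} (hC : 0 ≤ C)
    (hA : ∀ j, |(∑ n ∈ Icc 1 (MJ q j), f n) - MJ q j * L| ≤ C * (MJ q j * rho ^ j / 2))
    {u : ℝ} (hu : 0 < u) (hu1 : u ≤ 1) (hD : (q : ℝ) ≤ Real.exp (2 / u)) :
    max L 0 ≤ 32 * Real.exp 2 * (u * (∑' n : ℕ, f n * (n : ℝ) ^ (-(1 + u)) + 4 * C)) := by
  have hG : ∀ s : Finset ℕ, ∑ n ∈ s, f n * (n : ℝ) ^ (-(1 + u)) ≤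
      ∑' n : ℕ, f n * (n : ℝ) ^ (-(1 + u)) := fun s =>
    (summ hq hf hC hA hu hu1).sum_le_tsum s fun n _ =>
      mul_nonneg (hf n) (Real.rpow_nonneg (Nat.cast_nonneg _) _)
  have he : (0 : ℝ) < Real.exp 2 := Real.exp_pos 2
  have hG0 : 0 ≤ ∑' n : ℕ, f n * (n : ℝ) ^ (-(1 + u)) := by
    have := hG ∅
    rwa [sum_empty] at this
  rcases le_total L 0 with hL | hL
  · rw [max_eq_right hL]
    positivity
  · rw [max_eq_left hL]
    set k := ⌈1 / u⌉₊ with hk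
    have hk1 : 1 / u ≤ k := Nat.le_ceil _
    have hk2 : (k : ℝ) ≤ 2 / u := by
      have h1 : (k : ℝ) < 1 / u + 1 := Nat.ceil_lt_add_one (by positivity)
      have h2 : 1 ≤ 1 / u := by
        rw [le_div_iff₀ hu]
        linarith
      have h3 : 2 / u = 1 / u + 1 / u := by ring
      linarith
    have h1 := lower hq hf L C hC hA u hu.le k
    have h2 := hG (Icc 1 (MJ q k))
    rw [sum_sub_distrib, ← mul_sum] at h1
    have h3 : C * ∑ j ∈ range k, rho ^ j ≤ C * 4 := mul_le_mul_of_nonneg_left (sum_rho k) hC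
    rw [mul_sum] at h3
    have h4 : ∀ j ∈ range k, 1 / (16 * Real.exp 2) ≤ (MJ q (j + 1) : ℝ) ^ (-u) := by
      intro j hj
      rw [mem_range] at hj
      have h5 : (MJ q (j + 1) : ℝ) ≤ (2 : ℝ) ^ (k : ℝ) * (4 * q) := by
        rw [MJ_cast, Real.rpow_natCast]
        have h6 : (2 : ℝ) ^ (j + 1) ≤ 2 ^ k := pow_le_pow_right₀ (by norm_num) (by omega)
        exact mul_le_mul_of_nonneg_right h6 (by positivity)
      have h7 : (MJ q (j + 1) : ℝ) ^ u ≤ 16 * Real.exp 2 := by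
        calc (MJ q (j + 1) : ℝ) ^ u ≤ ((2 : ℝ) ^ (k : ℝ) * (4 * q)) ^ u :=
              Real.rpow_le_rpow (Nat.cast_nonneg _) h5 hu.le
          _ = (2 : ℝ) ^ ((k : ℝ) * u) * (4 * (q : ℝ)) ^ u := by
              rw [Real.mul_rpow (by positivity) (by positivity), ← Real.rpow_mul (by norm_num)]
          _ ≤ 4 * (4 * Real.exp 2) := by
              refine mul_le_mul ?_ (CHGG_.pow_le hq hu hu1 hD) (by positivity) (by norm_num)
              have h8 : (k : ℝ) * u ≤ 2 := by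
                rw [le_div_iff₀ hu] at hk2
                exact hk2
              calc (2 : ℝ) ^ ((k : ℝ) * u) ≤ (2 : ℝ) ^ (2 : ℝ) :=
                    Real.rpow_le_rpow_of_exponent_le (by norm_num) h8
                _ = 4 := by norm_num
          _ = 16 * Real.exp 2 := by ring
      rw [Real.rpow_neg (Nat.cast_nonneg _), ← one_div]
      exact one_div_le_one_div_of_le (Real.rpow_pos_of_pos (MJ_pos' hq _) _) h7
    have h5 : (k : ℝ) * (1 / (16 * Real.exp 2)) ≤ ∑ j ∈ range k, (MJ q (j + 1) : ℝ) ^ (-u) := by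
      have h6 := card_nsmul_le_sum (range k) (fun j => (MJ q (j + 1) : ℝ) ^ (-u)) _ h4
      rw [card_range, nsmul_eq_mul] at h6
      exact h6
    have h6 : L / 2 * (1 / u * (1 / (16 * Real.exp 2))) ≤
        L / 2 * ∑ j ∈ range k, (MJ q (j + 1) : ℝ) ^ (-u) := by
      refine mul_le_mul_of_nonneg_left (le_trans ?_ h5) (by linarith)
      exact mul_le_mul_of_nonneg_right hk1 (by positivity)
    have h7 : L / 2 * (1 / u * (1 / (16 * Real.exp 2))) ≤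
        ∑' n : ℕ, f n * (n : ℝ) ^ (-(1 + u)) + 4 * C := by linarith
    have h8 : L = 32 * Real.exp 2 * (u * (L / 2 * (1 / u * (1 / (16 * Real.exp 2))))) := by
      field_simp
      ring
    calc L = 32 * Real.exp 2 * (u * (L / 2 * (1 / u * (1 / (16 * Real.exp 2))))) := h8
      _ ≤ 32 * Real.exp 2 * (u * (∑' n : ℕ, f n * (n : ℝ) ^ (-(1 + u)) + 4 * C)) :=
        mul_le_mul_of_nonneg_left (mul_le_mul_of_nonneg_left h7 hu.le) (by positivity)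

end CHGG_

open SSC.CHG_ in
theorem p_CHGG (h3 : SSN.T_LBD) (h4 : T_AXG) : T_CHGG := by
  obtain ⟨C, hC1, hC⟩ := h4
  have hC0 : 0 ≤ C := by linarith
  have he : (0 : ℝ) < Real.exp 2 := Real.exp_pos 2
  have he1 : (1 : ℝ) ≤ Real.exp 2 := Real.one_le_exp (by norm_num)
  refine ⟨4 * Real.exp 2 + 128 * Real.exp 2 * (1 + 4 * C) + 4 * C, by nlinarith, ?_⟩
  intro q f u₁ u₂ hRC hu1 hu12 hu2 hD
  have hq : 0 < q := hRC.1
  have hu2' : 0 < u₂ := lt_of_lt_of_le hu1 hu12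
  have : NeZero q := ⟨hq.ne'⟩
  have hr0 := CHEG_.rg_nonneg hRC
  have hr1 := CHEG_.rg_one hRC
  obtain ⟨χ, hχ1, hχ⟩ := hRC.2.2
  obtain ⟨-, hL⟩ := h3 q χ hχ1
  have hLN : ∀ N : ℕ, 1 ≤ N →
      |(∑ n ∈ Icc 1 N, (f n : ℝ) / n) - (χ.LFunction 1).re| ≤ 2 * q / N := by
    intro N hN
    have h5 := hL N hN
    have h6 : ((∑ n ∈ Icc 1 N, χ (n : ZMod q) / (n : ℂ)) - χ.LFunction 1).re =
        (∑ n ∈ Icc 1 N, (f n : ℝ) / n) - (χ.LFunction 1).re := by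
      rw [Complex.sub_re, Complex.re_sum]
      congr 1
      refine sum_congr rfl fun n _ => ?_
      rw [hχ n]
      have h7 : (((f n : ℤ) : ℂ) / (n : ℂ)) = (((f n : ℝ) / n : ℝ) : ℂ) := by push_cast; rfl
      rw [h7, Complex.ofReal_re]
    rw [← h6]
    exact (Complex.abs_re_le_norm _).trans h5
  have hA0 := hC q f (χ.LFunction 1).re hRC hLN
  set L : ℝ := (χ.LFunction 1).re with hLdef
  set g : ℕ → ℝ := fun n => (rg f n : ℝ) with hgdef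
  have hg : ∀ n, 0 ≤ g n := fun n => by
    have := hr0 n
    show (0 : ℝ) ≤ (rg f n : ℝ)
    exact_mod_cast this
  have hA : ∀ j, |(∑ n ∈ Icc 1 (MJ q j), g n) - MJ q j * L| ≤
      C * (MJ q j * rho ^ j / 2) := by
    intro j
    have h5 := hA0 (MJ q j) ((Nat.le_mul_of_pos_left q (by norm_num : 0 < 4)).trans (le_MJ q j))
    rw [sqrt_MJ hq j] at h5
    exact h5
  have hGG : ∀ u : ℝ, Gg f (1 + u) = ∑' n : ℕ, g n * (n : ℝ) ^ (-(1 + u)) := fun u => rfl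
  have hG1 : 1 ≤ Gg f (1 + u₂) := by
    rw [hGG]
    have h5 := (summ hq hg hC0 hA hu2' hu2).sum_le_tsum {1} fun n _ =>
      mul_nonneg (hg n) (Real.rpow_nonneg (Nat.cast_nonneg _) _)
    rw [sum_singleton] at h5
    have h6 : g 1 * ((1 : ℕ) : ℝ) ^ (-(1 + u₂)) = 1 := by
      rw [Nat.cast_one, Real.one_rpow, mul_one]
      show ((rg f 1 : ℤ) : ℝ) = 1
      rw [hr1]
      norm_num
    linarith
  have hup := tsum_up hq hg hC0 hA hu1 (hu12.trans hu2)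
  have hin := CHGG_.init_le hq hg hu1 hu12 hu2 hD
  have hin2 : ∑ n ∈ Icc 1 (4 * q), g n * (n : ℝ) ^ (-(1 + u₂)) ≤ Gg f (1 + u₂) := by
    rw [hGG]
    exact (summ hq hg hC0 hA hu2' hu2).sum_le_tsum _ fun n _ =>
      mul_nonneg (hg n) (Real.rpow_nonneg (Nat.cast_nonneg _) _)
  have hlow := CHGG_.tsum_low hq hg hC0 hA hu2' hu2 hD
  rw [← hGG] at hup hlow
  set G2 := Gg f (1 + u₂) with hG2
  have h5 : Gg f (1 + u₁) ≤ 4 * Real.exp 2 * G2 + (4 * max L 0 / u₁ + 4 * C) := by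
    have h6 : 4 * Real.exp 2 * ∑ n ∈ Icc 1 (4 * q), g n * (n : ℝ) ^ (-(1 + u₂)) ≤
        4 * Real.exp 2 * G2 := mul_le_mul_of_nonneg_left hin2 (by positivity)
    linarith
  have h6 : u₁ * Gg f (1 + u₁) ≤
      4 * Real.exp 2 * (u₁ * G2) + 4 * max L 0 + 4 * C * u₁ := by
    calc u₁ * Gg f (1 + u₁) ≤ u₁ * (4 * Real.exp 2 * G2 + (4 * max L 0 / u₁ + 4 * C)) :=
          mul_le_mul_of_nonneg_left h5 hu1.le
      _ = 4 * Real.exp 2 * (u₁ * G2) + 4 * max L 0 + 4 * C * u₁ := by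
          field_simp
          ring
  have h7 : u₁ * G2 ≤ u₂ * G2 := mul_le_mul_of_nonneg_right hu12 (by linarith)
  have h8 : u₂ ≤ u₂ * G2 := le_mul_of_one_le_right hu2'.le hG1
  have h9 : 4 * Real.exp 2 * (u₁ * G2) ≤ 4 * Real.exp 2 * (u₂ * G2) :=
    mul_le_mul_of_nonneg_left h7 (by positivity)
  have h10 : 4 * C * u₁ ≤ 4 * C * (u₂ * G2) :=
    mul_le_mul_of_nonneg_left (hu12.trans h8) (by linarith)
  have h11 : u₂ * (G2 + 4 * C) ≤ (1 + 4 * C) * (u₂ * G2) := by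
    have h12 : 4 * C * u₂ ≤ 4 * C * (u₂ * G2) := mul_le_mul_of_nonneg_left h8 (by linarith)
    nlinarith
  have h12 : max L 0 ≤ 32 * Real.exp 2 * ((1 + 4 * C) * (u₂ * G2)) :=
    hlow.trans (mul_le_mul_of_nonneg_left h11 (by positivity))
  calc u₁ * Gg f (1 + u₁) ≤ 4 * Real.exp 2 * (u₁ * G2) + 4 * max L 0 + 4 * C * u₁ := h6
    _ ≤ 4 * Real.exp 2 * (u₂ * G2) + 4 * (32 * Real.exp 2 * ((1 + 4 * C) * (u₂ * G2))) +
        4 * C * (u₂ * G2) := by linarith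
    _ = (4 * Real.exp 2 + 128 * Real.exp 2 * (1 + 4 * C) + 4 * C) * (u₂ * G2) := by ring

end SSD
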