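import Pool.Agent.SSD.Targets
import Pool.Agent.SSC.CHI

/-! CHIG: for a real character the primes with value `1` are at most half of all primes beyond
`√q`. -/

set_option autoImplicit false

open scoped BigOperators Classical
open Finset

namespace SSD

open SSC

namespace CHIG_

lemma le_one {q : ℕ} {f : ℕ → ℤ} (h : RC q f) (l : ℕ) : (f l : ℝ) ≤ 1 := by
  rcases h.2.1 l with h | h | h <;> rw [h] <;> norm_num

lemma neg_one_le {q : ℕ} {f : ℕ → ℤ} (h : RC q f) (l : ℕ) : -1 ≤ (f l : ℝ) := by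
  rcases h.2.1 l with h | h | h <;> rw [h] <;> norm_num

end CHIG_

theorem p_CHIG (h1 : T_CHGG) (h2 : T_CHEG) : T_CHIG := by
  obtain ⟨C₁, hC₁, hG⟩ := h1
  obtain ⟨C₂, hC₂, hE⟩ := h2
  have h4 : 0 ≤ Real.log 4 := Real.log_nonneg (by norm_num)
  have hlC : 0 ≤ Real.log C₁ := Real.log_nonneg hC₁
  refine ⟨Real.log C₁ + 2 * C₂ + 2 * (1 + Real.log 4) + 2 * (8 + 2 * Real.log 4), by linarith, ?_⟩
  intro q f z Z hΔ hΔz hz hZ
  have hlz : 1 < Real.log z := by
    rw [Real.lt_log_iff_exp_lt (by linarith)]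
    have := Real.exp_one_lt_d9
    linarith
  have hlZ : Real.log z ≤ Real.log Z := Real.log_le_log (by linarith) hZ
  have hz0 : 0 < Real.log z := by linarith
  have hZ0 : 0 < Real.log Z := by linarith
  set u₁ : ℝ := 1 / Real.log Z with hu₁
  set u₂ : ℝ := 1 / Real.log z with hu₂
  have hu1 : 0 < u₁ := by positivity
  have hu2 : 0 < u₂ := by positivity
  have hu12 : u₁ ≤ u₂ := one_div_le_one_div_of_le hz0 hlZ
  have hu21 : u₂ ≤ 1 := by
    rw [hu₂, div_le_one hz0]; linarith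
  have hg := hG q f u₁ u₂ hΔ hu1 hu12 hu21 (by
    have e : (2 : ℝ) / u₂ = Real.log (z ^ 2) := by
      rw [hu₂, Real.log_pow, div_div_eq_mul_div, div_one]
      norm_num
    rw [e, Real.exp_log (by positivity)]
    exact hΔz)
  obtain ⟨_, hG1, hs1, hE1⟩ := hE q f (1 + u₁) hΔ (by linarith) (by linarith)
  obtain ⟨_, hG2, hs2, hE2⟩ := hE q f (1 + u₂) hΔ (by linarith) (by linarith)
  -- take logarithms
  have hlog : Real.log (Gg f (1 + u₁)) - Real.log (Gg f (1 + u₂)) ≤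
      Real.log C₁ + Real.log (Real.log Z) - Real.log (Real.log z) := by
    have h := Real.log_le_log (by positivity) hg
    rw [Real.log_mul hu1.ne' (by linarith), Real.log_mul (by linarith) (by positivity),
      Real.log_mul hu2.ne' (by linarith), hu₁, hu₂, one_div, one_div, Real.log_inv,
      Real.log_inv] at h
    simp only [hu₁, hu₂, one_div]
    linarith
  have ha1 := (abs_le.1 hE1).1
  have ha2 := (abs_le.1 hE2).2
  have hmono : ∀ l : ℕ, l.Prime → 0 ≤ (1 + (f l : ℝ)) *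
      ((l : ℝ) ^ (-(1 + u₁)) - (l : ℝ) ^ (-(1 + u₂))) := by
    intro l hl
    refine mul_nonneg (by linarith [CHIG_.neg_one_le hΔ l]) (sub_nonneg.2 ?_)
    refine Real.rpow_le_rpow_of_exponent_le ?_ (by linarith)
    exact_mod_cast hl.one_le
  have hsum : ∑ l ∈ pri z Z, (1 + (f l : ℝ)) *
      ((l : ℝ) ^ (-(1 + u₁)) - (l : ℝ) ^ (-(1 + u₂))) ≤
      Real.log C₁ + 2 * C₂ + (Real.log (Real.log Z) - Real.log (Real.log z)) := by
    have hs : Summable (fun l : Nat.Primes => (1 + (f l : ℝ)) *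
      ((l : ℝ) ^ (-(1 + u₁)) - (l : ℝ) ^ (-(1 + u₂)))) := by
      refine (hs1.sub hs2).congr fun l => ?_
      ring
    have ht : ∑' l : Nat.Primes, (1 + (f l : ℝ)) *
      ((l : ℝ) ^ (-(1 + u₁)) - (l : ℝ) ^ (-(1 + u₂))) =
      ∑' l : Nat.Primes, (1 + (f l : ℝ)) * (l : ℝ) ^ (-(1 + u₁)) -
      ∑' l : Nat.Primes, (1 + (f l : ℝ)) * (l : ℝ) ^ (-(1 + u₂)) := by
      rw [← hs1.tsum_sub hs2]
      refine tsum_congr fun l => ?_
      ring
    have hle := Summable.sum_le_tsum (f := fun l : Nat.Primes => (1 + (f l : ℝ)) *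
      ((l : ℝ) ^ (-(1 + u₁)) - (l : ℝ) ^ (-(1 + u₂))))
      ((pri z Z).subtype Nat.Prime : Finset Nat.Primes) (fun l _ => hmono l l.2) hs
    rw [ht] at hle
    have he := Finset.sum_subtype_of_mem (s := pri z Z) (p := Nat.Prime)
      (fun l : ℕ => (1 + (f l : ℝ)) * ((l : ℝ) ^ (-(1 + u₁)) - (l : ℝ) ^ (-(1 + u₂))))
      (fun l hl => (CHI_.mem_pri (by linarith) hl).1)
    rw [← he]
    exact hle.trans (by linarith)
  -- second part
  have hsec : ∑ l ∈ pri z Z, (1 + (f l : ℝ)) * (1 / (l : ℝ) - (l : ℝ) ^ (-(1 + u₁))) ≤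
      2 * (1 + Real.log 4) := by
    have hm := CHI_.mert (show 1 ≤ Z by linarith) (pri z Z) (fun l hl =>
      ⟨(CHI_.mem_pri (by linarith) hl).1, (CHI_.mem_pri (by linarith) hl).2.2⟩)
    have h5 : ∑ l ∈ pri z Z, (1 + (f l : ℝ)) * (1 / (l : ℝ) - (l : ℝ) ^ (-(1 + u₁))) ≤
        ∑ l ∈ pri z Z, (2 / Real.log Z) * (Real.log l / l) := by
      refine Finset.sum_le_sum fun l hl => ?_
      obtain ⟨hp, hl1, hl2⟩ := CHI_.mem_pri (by linarith) hl
      have hl0 : (0 : ℝ) < l := by linarith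
      have hll : 0 ≤ Real.log l := Real.log_nonneg (by linarith)
      have e1 : (l : ℝ) ^ (-(1 + u₁)) = (1 / l) * Real.exp (-(Real.log l / Real.log Z)) := by
        rw [Real.rpow_def_of_pos hl0]
        have : Real.log l * (-(1 + u₁)) = -Real.log l + -(Real.log l / Real.log Z) := by
          rw [hu₁]; ring
        rw [this, Real.exp_add, Real.exp_neg, Real.exp_log hl0, one_div]
      rw [e1]
      have h6 := Real.one_sub_le_exp_neg (Real.log l / Real.log Z)
      have h7 : Real.exp (-(Real.log l / Real.log Z)) ≤ 1 := by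
        rw [Real.exp_le_one_iff]
        have : 0 ≤ Real.log l / Real.log Z := by positivity
        linarith
      have h8 : 0 ≤ 1 / (l:ℝ) := by positivity
      have h9 : 1 / (l : ℝ) - 1 / l * Real.exp (-(Real.log l / Real.log Z)) ≤
          1 / l * (Real.log l / Real.log Z) := by nlinarith
      have h10 : 0 ≤ 1 / (l : ℝ) - 1 / l * Real.exp (-(Real.log l / Real.log Z)) := by nlinarith
      calc (1 + (f l : ℝ)) * (1 / (l : ℝ) - 1 / l * Real.exp (-(Real.log l / Real.log Z)))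
          ≤ 2 * (1 / (l : ℝ) - 1 / l * Real.exp (-(Real.log l / Real.log Z))) :=
            mul_le_mul_of_nonneg_right (by linarith [CHIG_.le_one hΔ l]) h10
        _ ≤ 2 * (1 / l * (Real.log l / Real.log Z)) := by linarith
        _ = _ := by ring
    refine h5.trans ?_
    rw [← Finset.mul_sum, div_mul_eq_mul_div, div_le_iff₀ hZ0]
    nlinarith
  -- third part
  have hthird : ∑ l ∈ pri z Z, (1 + (f l : ℝ)) * (l : ℝ) ^ (-(1 + u₂)) ≤
      2 * (8 + 2 * Real.log 4) := by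
    have h5 := CHI_.tail hz hZ
    refine le_trans ?_ (mul_le_mul_of_nonneg_left h5 (show (0:ℝ) ≤ 2 by norm_num))
    rw [Finset.mul_sum]
    refine Finset.sum_le_sum fun l hl => ?_
    refine mul_le_mul_of_nonneg_right (by linarith [CHIG_.le_one hΔ l]) ?_
    exact Real.rpow_nonneg (Nat.cast_nonneg l) _
  have hfin : ∑ l ∈ pri z Z, (1 + (f l : ℝ)) / l =
      ∑ l ∈ pri z Z, (1 + (f l : ℝ)) *
        ((l : ℝ) ^ (-(1 + u₁)) - (l : ℝ) ^ (-(1 + u₂))) +
      ∑ l ∈ pri z Z, (1 + (f l : ℝ)) * (1 / (l : ℝ) - (l : ℝ) ^ (-(1 + u₁))) +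
      ∑ l ∈ pri z Z, (1 + (f l : ℝ)) * (l : ℝ) ^ (-(1 + u₂)) := by
    rw [← Finset.sum_add_distrib, ← Finset.sum_add_distrib]
    refine Finset.sum_congr rfl fun l _ => ?_
    ring
  rw [hfin]
  linarith

end SSD
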