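import Pool.Agent.SSD.Targets
import Pool.Agent.SSC.CHI
import Pool.Agent.SSC.MER

/-!
# CHLG: for a fixed real nonprincipal character `f` the sums of `f(l)/l` over windows are bounded
-/

set_option autoImplicit false

open scoped BigOperators Classical
open Finset

namespace SSD

open SSC

namespace CHLG_

/-- the convolution as a real number -/
theorem term_eq {q : ℕ} {f : ℕ → ℤ} {χ : DirichletCharacter ℂ q}
    (hχ : ∀ n : ℕ, χ (n : ZMod q) = ((f n : ℤ) : ℂ)) (σ : ℝ) (n : ℕ) :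
    LSeries.term (LSeries.convolution (1 : ℕ → ℂ) (fun n : ℕ => χ (n : ZMod q))) (σ : ℂ) n =
      (((rg f n : ℝ) * (n : ℝ) ^ (-σ) : ℝ) : ℂ) := by
  rcases Nat.eq_zero_or_pos n with hn | hn
  · subst hn
    rw [LSeries.term_zero]
    simp [rg]
  · rw [LSeries.term_of_ne_zero hn.ne', LSeries.convolution_def]
    have e1 : ∑ p ∈ n.divisorsAntidiagonal, (1 : ℕ → ℂ) p.1 * χ (p.2 : ZMod q) =
        ((rg f n : ℤ) : ℂ) := by
      simp only [Pi.one_apply, one_mul, hχ]
      unfold rg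
      rw [Nat.sum_divisorsAntidiagonal' (fun _ d => ((f d : ℤ) : ℂ))]
      push_cast
      rfl
    simp only [e1]
    rw [Complex.ofReal_mul, Complex.ofReal_cpow (Nat.cast_nonneg n), Complex.ofReal_neg,
      Complex.cpow_neg, div_eq_mul_inv]
    push_cast
    rfl

/-- `Gg f σ = ζ(σ) L(σ,χ)` -/
theorem Gg_eq {q : ℕ} [NeZero q] {f : ℕ → ℤ} {χ : DirichletCharacter ℂ q}
    (hχ : ∀ n : ℕ, χ (n : ZMod q) = ((f n : ℤ) : ℂ)) {σ : ℝ} (hσ : 1 < σ) :
    ((Gg f σ : ℝ) : ℂ) = riemannZeta σ * χ.LFunction σ := by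
  have hre : 1 < (σ : ℂ).re := by simpa using hσ
  rw [DirichletCharacter.LFunction_eq_LSeries χ hre, ← LSeries_one_eq_riemannZeta hre,
    ← LSeries_convolution' (LSeriesSummable_one_iff.mpr hre)
      (DirichletCharacter.LSeriesSummable_of_one_lt_re χ hre)]
  unfold Gg LSeries
  rw [Complex.ofReal_tsum]
  exact tsum_congr fun n => (term_eq hχ σ n).symm

/-- `(s - 1) ζ(s)`, continuous everywhere -/
noncomputable def zz : ℂ → ℂ := Function.update (fun s : ℂ => (s - 1) * riemannZeta s) 1 1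

theorem zz_cont : Continuous zz := by
  rw [continuous_iff_continuousAt]
  intro s
  unfold zz
  by_cases hs : s = 1
  · subst hs
    rw [continuousAt_update_same]
    exact riemannZeta_residue_one
  · rw [continuousAt_update_of_ne hs]
    exact (by fun_prop : ContinuousAt (fun s : ℂ => s - 1) s).mul
      (differentiableAt_riemannZeta hs).continuousAt

/-- `(σ - 1) Gg f σ` is bounded above and below -/
theorem gbd {q : ℕ} {f : ℕ → ℤ} (hf : RC q f)
    (hG : ∀ σ : ℝ, 1 < σ → σ ≤ 2 → 1 ≤ Gg f σ) :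
    ∃ c₁ c₂ : ℝ, 0 < c₁ ∧ ∀ σ : ℝ, 1 < σ → σ ≤ 2 →
      c₁ ≤ (σ - 1) * Gg f σ ∧ (σ - 1) * Gg f σ ≤ c₂ := by
  obtain ⟨hq, -, χ, hχ1, hχ⟩ := hf
  have : NeZero q := ⟨hq.ne'⟩
  set H : ℝ → ℝ := fun s => ‖zz (s : ℂ) * χ.LFunction (s : ℂ)‖ with hH
  have hcont : Continuous H := by
    refine Continuous.norm (Continuous.mul (zz_cont.comp Complex.continuous_ofReal) ?_)
    exact (DirichletCharacter.differentiable_LFunction hχ1).continuous.comp
      Complex.continuous_ofReal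
  have hH1 : 0 < H 1 := by
    rw [hH]
    simp only
    rw [norm_pos_iff, Complex.ofReal_one]
    refine mul_ne_zero ?_ (DirichletCharacter.LFunction_apply_one_ne_zero hχ1)
    unfold zz
    rw [Function.update_self]
    exact one_ne_zero
  have hHσ : ∀ σ : ℝ, 1 < σ → σ ≤ 2 → H σ = (σ - 1) * Gg f σ := by
    intro σ h1 h2
    have hne : (σ : ℂ) ≠ 1 := by
      intro h
      have : σ = 1 := by exact_mod_cast h
      linarith
    rw [hH]
    simp only
    unfold zz
    rw [Function.update_of_ne hne, mul_assoc, ← Gg_eq hχ h1]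
    have e : ((σ : ℂ) - 1) * ((Gg f σ : ℝ) : ℂ) = (((σ - 1) * Gg f σ : ℝ) : ℂ) := by
      push_cast
      ring
    rw [e, Complex.norm_real, Real.norm_of_nonneg]
    have := hG σ h1 h2
    exact mul_nonneg (by linarith) (by linarith)
  have hne : (Set.Icc (1 : ℝ) 2).Nonempty := ⟨1, by norm_num, by norm_num⟩
  obtain ⟨a, ha, hamin⟩ := isCompact_Icc.exists_isMinOn hne hcont.continuousOn
  obtain ⟨b, hb, hbmax⟩ := isCompact_Icc.exists_isMaxOn hne hcont.continuousOn
  refine ⟨H a, H b, ?_, ?_⟩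
  · rcases eq_or_lt_of_le ha.1 with h | h
    · rw [← h]; exact hH1
    · rw [hHσ a h ha.2]
      have := hG a h ha.2
      exact mul_pos (by linarith) (by linarith)
  · intro σ h1 h2
    rw [← hHσ σ h1 h2]
    exact ⟨hamin ⟨h1.le, h2⟩, hbmax ⟨h1.le, h2⟩⟩

/-- Mertens on a window -/
theorem merw : ∃ C : ℝ, 0 < C ∧ ∀ z Z : ℝ, 3 ≤ z → z ≤ Z →
    |∑ l ∈ pri z Z, 1 / (l : ℝ) - (Real.log (Real.log Z) - Real.log (Real.log z))| ≤ C := by
  obtain ⟨C, hC, h⟩ := p_MER
  refine ⟨2 * C, by linarith, fun z Z hz hZ => ?_⟩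
  have h1 := h z (by linarith)
  have h2 := h Z (by linarith)
  have hsplit : ∑ l ∈ pri 1 Z, 1 / (l : ℝ) =
      ∑ l ∈ pri 1 z, 1 / (l : ℝ) + ∑ l ∈ pri z Z, 1 / (l : ℝ) := by
    rw [← Finset.sum_union]
    · congr 1
      ext l
      unfold pri
      simp only [mem_union, mem_filter, mem_Icc]
      constructor
      · rintro ⟨⟨a1, a2⟩, a3, a4⟩
        by_cases hl : (l : ℝ) ≤ z
        · left
          exact ⟨⟨a1, Nat.le_floor hl⟩, a3, a4⟩
        · right
          exact ⟨⟨a1, a2⟩, a3, not_le.1 hl⟩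
      · rintro (⟨⟨a1, a2⟩, a3, a4⟩ | ⟨⟨a1, a2⟩, a3, a4⟩)
        · exact ⟨⟨a1, a2.trans (Nat.floor_mono hZ)⟩, a3, a4⟩
        · exact ⟨⟨a1, a2⟩, a3, by linarith⟩
    · rw [Finset.disjoint_left]
      intro l h1 h2
      obtain ⟨-, -, h3⟩ := CHI_.mem_pri (by linarith : (0 : ℝ) ≤ z) h1
      obtain ⟨-, h4, -⟩ := CHI_.mem_pri (by linarith : (0 : ℝ) ≤ Z) h2
      linarith
  rw [hsplit] at h2
  rw [abs_le] at h1 h2 ⊢
  constructor <;> linarith [h1.1, h1.2, h2.1, h2.2]

/-- values of `f` -/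
theorem f_bd {q : ℕ} {f : ℕ → ℤ} (hf : RC q f) (l : ℕ) : -1 ≤ (f l : ℝ) ∧ (f l : ℝ) ≤ 1 := by
  rcases hf.2.1 l with h | h | h <;> rw [h] <;> norm_num

/-- `1/l - l ^ (-(1+1/log Z))` -/
theorem one_term {Z : ℝ} (hZ : 0 < Real.log Z) {l : ℕ} (hl : 1 ≤ l) :
    0 ≤ 1 / (l : ℝ) - (l : ℝ) ^ (-(1 + 1 / Real.log Z)) ∧
    1 / (l : ℝ) - (l : ℝ) ^ (-(1 + 1 / Real.log Z)) ≤ 1 / Real.log Z * (Real.log l / l) := by
  have hl0 : (0 : ℝ) < l := by exact_mod_cast hl
  have hll : 0 ≤ Real.log l := Real.log_natCast_nonneg l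
  have e1 : (l : ℝ) ^ (-(1 + 1 / Real.log Z)) =
      (1 / l) * Real.exp (-(Real.log l / Real.log Z)) := by
    rw [Real.rpow_def_of_pos hl0]
    have : Real.log l * (-(1 + 1 / Real.log Z)) = -Real.log l + -(Real.log l / Real.log Z) := by
      ring
    rw [this, Real.exp_add, Real.exp_neg, Real.exp_log hl0, one_div]
  rw [e1]
  have h6 := Real.one_sub_le_exp_neg (Real.log l / Real.log Z)
  have h7 : Real.exp (-(Real.log l / Real.log Z)) ≤ 1 := by
    rw [Real.exp_le_one_iff]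
    have : 0 ≤ Real.log l / Real.log Z := by positivity
    linarith
  have h8 : 0 ≤ 1 / (l : ℝ) := by positivity
  refine ⟨by nlinarith, ?_⟩
  have h9 : 1 / (l : ℝ) - 1 / l * Real.exp (-(Real.log l / Real.log Z)) ≤
      1 / l * (Real.log l / Real.log Z) := by nlinarith
  refine h9.trans (le_of_eq ?_)
  ring

/-- comparison of the series and the sum over the window -/
theorem cmp {c : ℕ → ℝ} (hc0 : ∀ l, 0 ≤ c l) (hc2 : ∀ l, c l ≤ 2) {z Z : ℝ} (hz : 3 ≤ z)
    (hZ : z ≤ Z) (hs1 : Summable (fun l : Nat.Primes => c l * (l : ℝ) ^ (-(1 + 1 / Real.log Z))))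
    (hs2 : Summable (fun l : Nat.Primes => c l * (l : ℝ) ^ (-(1 + 1 / Real.log z)))) :
    |(∑' l : Nat.Primes, c l * (l : ℝ) ^ (-(1 + 1 / Real.log Z)) -
      ∑' l : Nat.Primes, c l * (l : ℝ) ^ (-(1 + 1 / Real.log z))) - ∑ l ∈ pri z Z, c l / l| ≤
      2 * (1 + Real.log 4) + 2 * (8 + 2 * Real.log 4) := by
  have h4 : 0 ≤ Real.log 4 := Real.log_nonneg (by norm_num)
  have hlz : 1 < Real.log z := by
    rw [Real.lt_log_iff_exp_lt (by linarith)]
    have := Real.exp_one_lt_d9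
    linarith
  have hlZ : Real.log z ≤ Real.log Z := Real.log_le_log (by linarith) hZ
  have hz0 : 0 < Real.log z := by linarith
  have hZ0 : 0 < Real.log Z := by linarith
  have hu12 : 1 / Real.log Z ≤ 1 / Real.log z := one_div_le_one_div_of_le hz0 hlZ
  set t : ℕ → ℝ := fun l => c l * ((l : ℝ) ^ (-(1 + 1 / Real.log Z)) -
    (l : ℝ) ^ (-(1 + 1 / Real.log z))) with ht
  have hdiff : ∀ l : ℕ, 1 ≤ l → 0 ≤ (l : ℝ) ^ (-(1 + 1 / Real.log Z)) -
      (l : ℝ) ^ (-(1 + 1 / Real.log z)) := by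
    intro l hl
    refine sub_nonneg.2 (Real.rpow_le_rpow_of_exponent_le ?_ (by linarith))
    exact_mod_cast hl
  have ht0 : ∀ l : ℕ, 1 ≤ l → 0 ≤ t l := fun l hl => mul_nonneg (hc0 l) (hdiff l hl)
  have hst : Summable (fun l : Nat.Primes => t l) := by
    refine (hs1.sub hs2).congr fun l => ?_
    rw [ht]; ring
  have hsum : ∑' l : Nat.Primes, c l * (l : ℝ) ^ (-(1 + 1 / Real.log Z)) -
      ∑' l : Nat.Primes, c l * (l : ℝ) ^ (-(1 + 1 / Real.log z)) = ∑' l : Nat.Primes, t l := by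
    rw [← hs1.tsum_sub hs2]
    refine tsum_congr fun l => ?_
    rw [ht]; ring
  rw [hsum, abs_le]
  constructor
  · -- lower bound
    have hle := Summable.sum_le_tsum (f := fun l : Nat.Primes => t l)
      ((pri z Z).subtype Nat.Prime : Finset Nat.Primes) (fun l _ => ht0 l l.2.one_le) hst
    have he := Finset.sum_subtype_of_mem (s := pri z Z) (p := Nat.Prime)
      (fun l : ℕ => t l) (fun l hl => (CHI_.mem_pri (by linarith) hl).1)
    have hle' : ∑ l ∈ pri z Z, t l ≤ ∑' l : Nat.Primes, t l := by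
      rw [← he]
      exact hle
    have hm := CHI_.mert (show 1 ≤ Z by linarith) (pri z Z) (fun l hl =>
      ⟨(CHI_.mem_pri (by linarith) hl).1, (CHI_.mem_pri (by linarith) hl).2.2⟩)
    have htl := CHI_.tail hz hZ
    have hb : ∑ l ∈ pri z Z, c l / l ≤ ∑ l ∈ pri z Z, t l +
        2 / Real.log Z * ∑ l ∈ pri z Z, Real.log l / l +
        2 * ∑ l ∈ pri z Z, (l : ℝ) ^ (-(1 + 1 / Real.log z)) := by
      rw [Finset.mul_sum, Finset.mul_sum, ← Finset.sum_add_distrib, ← Finset.sum_add_distrib]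
      refine Finset.sum_le_sum fun l hl => ?_
      obtain ⟨hp, hl1, hl2⟩ := CHI_.mem_pri (by linarith) hl
      obtain ⟨o1, o2⟩ := one_term hZ0 hp.one_le
      have o3 : 0 ≤ (l : ℝ) ^ (-(1 + 1 / Real.log z)) := Real.rpow_nonneg (Nat.cast_nonneg l) _
      have o4 : c l / l = t l + c l * (1 / (l : ℝ) - (l : ℝ) ^ (-(1 + 1 / Real.log Z))) +
          c l * (l : ℝ) ^ (-(1 + 1 / Real.log z)) := by
        rw [ht]; ring
      rw [o4]
      have o5 : c l * (1 / (l : ℝ) - (l : ℝ) ^ (-(1 + 1 / Real.log Z))) ≤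
          2 / Real.log Z * (Real.log l / l) := by
        calc c l * (1 / (l : ℝ) - (l : ℝ) ^ (-(1 + 1 / Real.log Z)))
            ≤ 2 * (1 / (l : ℝ) - (l : ℝ) ^ (-(1 + 1 / Real.log Z))) :=
              mul_le_mul_of_nonneg_right (hc2 l) o1
          _ ≤ 2 * (1 / Real.log Z * (Real.log l / l)) := by linarith
          _ = _ := by ring
      have o6 : c l * (l : ℝ) ^ (-(1 + 1 / Real.log z)) ≤
          2 * (l : ℝ) ^ (-(1 + 1 / Real.log z)) := mul_le_mul_of_nonneg_right (hc2 l) o3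
      linarith
    have hb2 : 2 / Real.log Z * ∑ l ∈ pri z Z, Real.log l / l ≤ 2 * (1 + Real.log 4) := by
      rw [div_mul_eq_mul_div, div_le_iff₀ hZ0]
      nlinarith
    linarith
  · -- upper bound
    suffices h : ∑' l : Nat.Primes, t l ≤ ∑ l ∈ pri z Z, c l / l +
        (2 * (1 + Real.log 4) + 2 * (8 + 2 * Real.log 4)) by linarith
    refine Summable.tsum_le_of_sum_le hst fun s => ?_
    -- move to a sum over naturals
    set s' : Finset ℕ := s.image (fun a : Nat.Primes => (a : ℕ)) with hs'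
    have hs'p : ∀ l ∈ s', l.Prime := by
      intro l hl
      rw [hs', Finset.mem_image] at hl
      obtain ⟨a, -, rfl⟩ := hl
      exact a.2
    have hss : ∑ l ∈ s, t l = ∑ l ∈ s', t l := by
      rw [hs', Finset.sum_image]
      intro a _ b _ hab
      exact Subtype.ext hab
    rw [hss]
    have hsp1 := Finset.sum_filter_add_sum_filter_not s' (fun l : ℕ => (l : ℝ) ≤ z) t
    have hsp2 := Finset.sum_filter_add_sum_filter_not (s'.filter fun l : ℕ => ¬ (l : ℝ) ≤ z)
      (fun l : ℕ => (l : ℝ) ≤ Z) t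
    -- small primes
    have hA : ∑ l ∈ s'.filter (fun l : ℕ => (l : ℝ) ≤ z), t l ≤ 2 * (1 + Real.log 4) := by
      have hm := CHI_.mert (show 1 ≤ z by linarith) (s'.filter fun l : ℕ => (l : ℝ) ≤ z)
        (fun l hl => by
          rw [Finset.mem_filter] at hl
          exact ⟨hs'p l hl.1, hl.2⟩)
      have h5 : ∑ l ∈ s'.filter (fun l : ℕ => (l : ℝ) ≤ z), t l ≤
          ∑ l ∈ s'.filter (fun l : ℕ => (l : ℝ) ≤ z), 2 / Real.log z * (Real.log l / l) := by
        refine Finset.sum_le_sum fun l hl => ?_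
        rw [Finset.mem_filter] at hl
        have hp := hs'p l hl.1
        obtain ⟨o1, o2⟩ := one_term hz0 hp.one_le
        obtain ⟨o3, -⟩ := one_term hZ0 hp.one_le
        have o4 := hdiff l hp.one_le
        calc t l ≤ 2 * ((l : ℝ) ^ (-(1 + 1 / Real.log Z)) - (l : ℝ) ^ (-(1 + 1 / Real.log z))) :=
              mul_le_mul_of_nonneg_right (hc2 l) o4
          _ ≤ 2 * (1 / (l : ℝ) - (l : ℝ) ^ (-(1 + 1 / Real.log z))) := by linarith
          _ ≤ 2 * (1 / Real.log z * (Real.log l / l)) := by linarith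
          _ = _ := by ring
      refine h5.trans ?_
      rw [← Finset.mul_sum, div_mul_eq_mul_div, div_le_iff₀ hz0]
      nlinarith
    -- the window
    have hB : ∑ l ∈ (s'.filter fun l : ℕ => ¬ (l : ℝ) ≤ z).filter (fun l : ℕ => (l : ℝ) ≤ Z), t l ≤
        ∑ l ∈ pri z Z, c l / l := by
      have h5 : ∑ l ∈ (s'.filter fun l : ℕ => ¬ (l : ℝ) ≤ z).filter
          (fun l : ℕ => (l : ℝ) ≤ Z), t l ≤
          ∑ l ∈ (s'.filter fun l : ℕ => ¬ (l : ℝ) ≤ z).filter
          (fun l : ℕ => (l : ℝ) ≤ Z), c l / l := by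
        refine Finset.sum_le_sum fun l hl => ?_
        rw [Finset.mem_filter, Finset.mem_filter] at hl
        have hp := hs'p l hl.1.1
        obtain ⟨o1, -⟩ := one_term hZ0 hp.one_le
        have o3 : 0 ≤ (l : ℝ) ^ (-(1 + 1 / Real.log z)) := Real.rpow_nonneg (Nat.cast_nonneg l) _
        rw [div_eq_mul_one_div]
        exact mul_le_mul_of_nonneg_left (by linarith) (hc0 l)
      refine h5.trans (Finset.sum_le_sum_of_subset_of_nonneg ?_ ?_)
      · intro l hl
        rw [Finset.mem_filter, Finset.mem_filter] at hl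
        have hp := hs'p l hl.1.1
        unfold pri
        rw [Finset.mem_filter, Finset.mem_Icc]
        exact ⟨⟨hp.one_le, Nat.le_floor hl.2⟩, hp, not_le.1 hl.1.2⟩
      · intro l _ _
        exact div_nonneg (hc0 l) (Nat.cast_nonneg l)
    -- large primes
    have hD : ∑ l ∈ (s'.filter fun l : ℕ => ¬ (l : ℝ) ≤ z).filter
        (fun l : ℕ => ¬ (l : ℝ) ≤ Z), t l ≤ 2 * (8 + 2 * Real.log 4) := by
      set V : ℝ := Z + ∑ l ∈ s', (l : ℝ) with hV
      have hVZ : Z ≤ V := by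
        have : (0 : ℝ) ≤ ∑ l ∈ s', (l : ℝ) := Finset.sum_nonneg fun l _ => Nat.cast_nonneg l
        linarith
      have htl := CHI_.tail (show 3 ≤ Z by linarith) hVZ
      have h5 : ∑ l ∈ (s'.filter fun l : ℕ => ¬ (l : ℝ) ≤ z).filter
          (fun l : ℕ => ¬ (l : ℝ) ≤ Z), t l ≤
          ∑ l ∈ (s'.filter fun l : ℕ => ¬ (l : ℝ) ≤ z).filter
          (fun l : ℕ => ¬ (l : ℝ) ≤ Z), 2 * (l : ℝ) ^ (-(1 + 1 / Real.log Z)) := by
        refine Finset.sum_le_sum fun l hl => ?_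
        rw [Finset.mem_filter, Finset.mem_filter] at hl
        have hp := hs'p l hl.1.1
        have o3 : 0 ≤ (l : ℝ) ^ (-(1 + 1 / Real.log z)) := Real.rpow_nonneg (Nat.cast_nonneg l) _
        calc t l ≤ 2 * ((l : ℝ) ^ (-(1 + 1 / Real.log Z)) - (l : ℝ) ^ (-(1 + 1 / Real.log z))) :=
              mul_le_mul_of_nonneg_right (hc2 l) (hdiff l hp.one_le)
          _ ≤ _ := by linarith
      refine h5.trans ?_
      rw [← Finset.mul_sum]
      refine mul_le_mul_of_nonneg_left (le_trans ?_ htl) (by norm_num)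
      refine Finset.sum_le_sum_of_subset_of_nonneg ?_ ?_
      · intro l hl
        rw [Finset.mem_filter, Finset.mem_filter] at hl
        have hp := hs'p l hl.1.1
        unfold pri
        rw [Finset.mem_filter, Finset.mem_Icc]
        refine ⟨⟨hp.one_le, Nat.le_floor ?_⟩, hp, not_le.1 hl.2⟩
        have h6 : (l : ℝ) ≤ ∑ l ∈ s', (l : ℝ) :=
          Finset.single_le_sum (f := fun l : ℕ => (l : ℝ)) (fun i _ => Nat.cast_nonneg i) hl.1.1
        linarith
      · intro l _ _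
        exact Real.rpow_nonneg (Nat.cast_nonneg l) _
    linarith

end CHLG_

open CHLG_ in
theorem p_CHLG (h : T_CHEG) : T_CHLG := by
  intro q f hf
  obtain ⟨C₂, hC₂, hE⟩ := h
  obtain ⟨c₁, c₂, hc₁, hg⟩ := gbd hf (fun σ h1 h2 => (hE q f σ hf h1 h2).2.1)
  obtain ⟨C₃, hC₃, hM⟩ := merw
  have h4 : 0 ≤ Real.log 4 := Real.log_nonneg (by norm_num)
  have hc12 : c₁ ≤ c₂ := by
    obtain ⟨a, b⟩ := hg 2 (by norm_num) le_rfl
    exact a.trans b
  have hlc : Real.log c₁ ≤ Real.log c₂ := Real.log_le_log hc₁ hc12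
  refine ⟨(Real.log c₂ - Real.log c₁) + 2 * C₂ + C₃ +
    (2 * (1 + Real.log 4) + 2 * (8 + 2 * Real.log 4)), by linarith, fun z Z hz hZ => ?_⟩
  have hlz : 1 < Real.log z := by
    rw [Real.lt_log_iff_exp_lt (by linarith)]
    have := Real.exp_one_lt_d9
    linarith
  have hlZ : Real.log z ≤ Real.log Z := Real.log_le_log (by linarith) hZ
  have hz0 : 0 < Real.log z := by linarith
  have hZ0 : 0 < Real.log Z := by linarith
  have key : ∀ w : ℝ, 3 ≤ w → 1 < Real.log w →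
      Summable (fun l : Nat.Primes => (1 + (f l : ℝ)) * (l : ℝ) ^ (-(1 + 1 / Real.log w))) ∧
      |Real.log (Gg f (1 + 1 / Real.log w)) -
        ∑' l : Nat.Primes, (1 + (f l : ℝ)) * (l : ℝ) ^ (-(1 + 1 / Real.log w))| ≤ C₂ ∧
      Real.log c₁ + Real.log (Real.log w) ≤ Real.log (Gg f (1 + 1 / Real.log w)) ∧
      Real.log (Gg f (1 + 1 / Real.log w)) ≤ Real.log c₂ + Real.log (Real.log w) := by
    intro w hw hlw
    have hw0 : 0 < Real.log w := by linarith
    have hu0 : 0 < 1 / Real.log w := by positivity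
    have hu1 : 1 / Real.log w ≤ 1 := by rw [div_le_one hw0]; exact hlw.le
    obtain ⟨-, hG1, hs, hE1⟩ := hE q f (1 + 1 / Real.log w) hf (by linarith) (by linarith)
    obtain ⟨g1, g2⟩ := hg (1 + 1 / Real.log w) (by linarith) (by linarith)
    have e : (1 + 1 / Real.log w - 1) = 1 / Real.log w := by ring
    rw [e] at g1 g2
    have hG0 : 0 < Gg f (1 + 1 / Real.log w) := by linarith
    have e2 : Real.log (1 / Real.log w * Gg f (1 + 1 / Real.log w)) =
        Real.log (Gg f (1 + 1 / Real.log w)) - Real.log (Real.log w) := by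
      rw [Real.log_mul hu0.ne' hG0.ne', one_div, Real.log_inv]
      ring
    have g3 := Real.log_le_log hc₁ g1
    have g4 := Real.log_le_log (by positivity) g2
    rw [e2] at g3 g4
    exact ⟨hs, hE1, by linarith, by linarith⟩
  obtain ⟨s1, e1, l1, u1⟩ := key Z (by linarith) (by linarith)
  obtain ⟨s2, e2, l2, u2⟩ := key z hz hlz
  have hc := cmp (c := fun l => 1 + (f l : ℝ)) (fun l => by linarith [(f_bd hf l).1])
    (fun l => by linarith [(f_bd hf l).2]) hz hZ s1 s2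
  have hm := hM z Z hz hZ
  have hsplit : ∑ l ∈ pri z Z, (1 + (f l : ℝ)) / l =
      ∑ l ∈ pri z Z, 1 / (l : ℝ) + ∑ l ∈ pri z Z, (f l : ℝ) / l := by
    rw [← Finset.sum_add_distrib]
    exact Finset.sum_congr rfl fun l _ => by ring
  rw [hsplit] at hc
  rw [abs_le] at e1 e2 hc hm ⊢
  constructor <;> linarith [e1.1, e1.2, e2.1, e2.2, hc.1, hc.2, hm.1, hm.2]

end SSD
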