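import Pool.Agent.SSD.Targets

/-!
# MP_d74fca_nt, improved counting, target CLS: the class of primes in windows
-/

set_option autoImplicit false

open scoped BigOperators Classical
open Finset

namespace SSD

open SSC

theorem p_CLS (h1 : T_QCL) (h2 : T_NSS) : T_CLS := by
  intro A B hD
  have hk : -(4 * A ^ 3 + 27 * B ^ 2) ≠ 0 := neg_ne_zero.mpr hD
  obtain ⟨θ, C, hθ, hC, hlow, hup⟩ := h1 (-(4 * A ^ 3 + 27 * B ^ 2)) hk
  set A' : ℝ := max 3 (Real.exp ((20 * C + 20) / θ)) with hA'
  have hA3 : 3 ≤ A' := le_max_left _ _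
  have hApos : 0 < A' := by linarith
  have hlog : 20 * C + 20 ≤ θ * Real.log A' := by
    have e1 : (20 * C + 20) / θ ≤ Real.log A' := by
      rw [Real.le_log_iff_exp_le hApos]
      exact le_max_right _ _
    rw [div_le_iff₀ hθ] at e1
    linarith
  refine ⟨QQ (-(4 * A ^ 3 + 27 * B ^ 2)), A', hA3, ?_, ?_⟩
  · intro l hl
    refine ⟨hl.1, ?_, h2 A B l hl⟩
    rintro rfl
    have := hl.2.1
    omega
  · intro s hs
    have hs0 : 0 < s := by linarith
    have hz : (3 : ℝ) ≤ Real.exp s := by
      have := Real.add_one_le_exp s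
      linarith
    have hsA : s ≤ A' * s := by nlinarith
    have hzZ : Real.exp s ≤ Real.exp (A' * s) := Real.exp_le_exp.mpr hsA
    have hll : Real.log (Real.log (Real.exp (A' * s))) - Real.log (Real.log (Real.exp s)) =
        Real.log A' := by
      rw [Real.log_exp, Real.log_exp, Real.log_mul hApos.ne' hs0.ne']
      ring
    have hL := hlow _ _ hz hzZ
    rw [hll] at hL
    refine ⟨by linarith, ?_⟩
    intro p hp hps
    have hpp : p.Prime := hp.1
    have hp2 : p ≠ 2 := by
      rintro rfl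
      apply hp.2.1
      have : (2 : ℤ) ∣ 6 * (4 * A ^ 3 + 27 * B ^ 2) := Dvd.dvd.mul_right (by norm_num) _
      exact_mod_cast this
    have hpk : ¬ (p : ℤ) ∣ -(4 * A ^ 3 + 27 * B ^ 2) := by
      intro h
      rw [Int.dvd_neg] at h
      exact hp.2.1 (Dvd.dvd.mul_left h 6)
    have hU := hup p hpp hp2 hpk _ _ hz hzZ hps
    rw [hll] at hU
    linarith

end SSD
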