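import Pool.Agent.SSD.Targets
import Pool.Agent.SSC.DIC

/-!
# MP_d74fca_nt, SSD-DI3: the dichotomy with windows at all scales
-/

set_option autoImplicit false

open scoped BigOperators Classical
open Finset

namespace SSD

open SSC

namespace DI3_

open Filter

/-- the inequalities that are needed for large `L = log Y` -/
structure Good (ε L : ℝ) : Prop where
  g1 : 5 ≤ L
  g2 : 32 * L ^ 5 ≤ Real.exp L
  g3 : 2 * L ^ 5 ≤ Real.exp (3 * ε / 4 * L)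
  g4 : 2 / ε ≤ L

lemma ev_pow_le_exp {b : ℝ} (C : ℝ) (hb : 0 < b) :
    ∀ᶠ L : ℝ in atTop, C * L ^ 5 ≤ Real.exp (b * L) := by
  have h1 := (Real.tendsto_exp_div_pow_atTop 5).eventually_ge_atTop (C / b ^ 5)
  have h2 : Tendsto (fun L : ℝ => b * L) atTop atTop := tendsto_id.const_mul_atTop hb
  filter_upwards [h2.eventually h1, eventually_gt_atTop (0:ℝ)] with L hL hL0
  rw [div_le_div_iff₀ (by positivity) (by positivity), mul_pow] at hL
  have hb5 : 0 < b ^ 5 := by positivity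
  have h3 : b ^ 5 * (C * L ^ 5) ≤ b ^ 5 * Real.exp (b * L) := by
    calc b ^ 5 * (C * L ^ 5) = C * (b ^ 5 * L ^ 5) := by ring
      _ ≤ Real.exp (b * L) * b ^ 5 := hL
      _ = b ^ 5 * Real.exp (b * L) := by ring
  exact le_of_mul_le_mul_left h3 hb5

lemma ev_good {ε : ℝ} (hε : 0 < ε) : ∀ᶠ L : ℝ in atTop, Good ε L := by
  filter_upwards [eventually_ge_atTop (5:ℝ), ev_pow_le_exp 32 one_pos,
    ev_pow_le_exp 2 (show 0 < 3 * ε / 4 by positivity), eventually_ge_atTop (2 / ε)]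
    with L a1 a2 a3 a4
  rw [one_mul] at a2
  exact ⟨a1, a2, a3, a4⟩

/-- the final computation -/
lemma fin_ {N v T1 T2 T3 T4 Q X Z : ℝ} (hQ : 0 < Q) (h0 : v ≤ N)
    (h1 : N ≤ T1 + (T2 + (T3 + T4)) + Q * X) (t1 : T1 ≤ v / 8) (t2 : T2 ≤ v / 16)
    (t3 : T3 ≤ v / 16) (t4 : T4 ≤ v / 8) (hv : 0 ≤ v) (h2 : Z * (2 * Q) ≤ v) : Z ≤ X := by
  have h3 : v / 2 ≤ Q * X := by linarith
  have h4 : Z * Q ≤ X * Q := by linarith
  exact le_of_mul_le_mul_right h4 hQ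

/-- `2 K ≤ L / 16` -/
lemma two_K {A δ L : ℝ} {J : ℕ} {k : ℕ → ℕ} (hA : 3 ≤ A)
    (h0 : 2 ≤ sj A δ L 0)
    (h : ∑ j ∈ range (J + 1), (k j : ℝ) * sj A δ L (j + 1) ≤ L / 16) :
    2 * (KK k J : ℝ) ≤ L / 16 := by
  refine le_trans ?_ h
  have h1 : (2:ℝ) * (KK k J : ℝ) = ∑ j ∈ range (J + 1), (k j : ℝ) * 2 := by
    unfold KK
    push_cast
    rw [← Finset.sum_mul, mul_comm]
  rw [h1]
  refine Finset.sum_le_sum fun j _ => mul_le_mul_of_nonneg_left ?_ (Nat.cast_nonneg _)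
  have h2 : sj A δ L (j + 1) = A ^ (j + 1) * sj A δ L 0 := by
    unfold sj
    ring
  rw [h2]
  have h3 : (1:ℝ) ≤ A ^ (j + 1) := one_le_pow₀ (by linarith)
  calc (2:ℝ) ≤ sj A δ L 0 := h0
    _ ≤ A ^ (j + 1) * sj A δ L 0 := le_mul_of_one_le_left (by linarith) h3

/-- all real computations -/
lemma core {L R E N X N1 N0 Fc ε Y : ℝ} {K J : ℕ} (hYpos : 0 < Y) (hL : L = Real.log Y)
    (hG : Good ε L) (hε : 0 < ε) (hε1 : ε < 1) (_hN1nn : 0 ≤ N1) (hN10 : N1 ≤ N0) (hN0 : 0 < N0)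
    (hFnn : 0 ≤ Fc) (hRnn : 0 ≤ R)
    (P3 : (J : ℝ) ≤ 2 * Real.log L) (P6 : N0 * 2 ^ K * L ^ 8 ≤ Real.exp (2 * (K : ℝ)))
    (P7 : (8 * L) ^ (4 * K) ≤ Real.exp (ε / 8 * L)) (h2K : 2 * (K : ℝ) ≤ L / 16)
    (hRlow : Y ^ 2 / L ^ 2 ≤ R) (f3 : Fc ≤ Y ^ (1 / 16 : ℝ)) (f4 : Y ^ (-(ε / 8)) ≤ E)
    (hlow : R / L ^ 3 * E ≤ N)
    (hle : N ≤ 2 * R * (2 * (1 / L ^ 6 + J / L ^ 8) * E) + N1 * ((4 * L) ^ K +
      2 ^ K * (Fc + 14 * Y ^ 2 / Real.exp (2 * (K : ℝ)) * E)) + (4 * L) ^ K * X) :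
    Y ^ (2 - ε) ≤ X := by
  obtain ⟨g1, g2, g3, -⟩ := hG
  have hYe : Y = Real.exp L := by rw [hL, Real.exp_log hYpos]
  have hLpos : 0 < L := by linarith
  have hL1' : 1 ≤ L := by linarith
  have hEpos : 0 < E := lt_of_lt_of_le (Real.rpow_pos_of_pos hYpos _) f4
  have hRE : 0 ≤ R * E := mul_nonneg hRnn hEpos.le
  have hQpos : 0 < (4 * L) ^ K := pow_pos (by linarith) K
  have hL3 : (125:ℝ) ≤ L ^ 3 := by
    have := pow_le_pow_left₀ (by norm_num : (0:ℝ) ≤ 5) g1 3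
    norm_num at this
    exact this
  have hL3p : 0 < L ^ 3 := by linarith
  have hL8 : (1:ℝ) ≤ L ^ 8 := one_le_pow₀ hL1'
  have h2p : (1:ℝ) ≤ 2 ^ K := one_le_pow₀ (by norm_num)
  obtain ⟨v, hv⟩ : ∃ v : ℝ, v = R * E / L ^ 3 := ⟨_, rfl⟩
  have hvnn : 0 ≤ v := by rw [hv]; exact div_nonneg hRE hL3p.le
  have hvN : v ≤ N := by
    refine le_trans (le_of_eq ?_) hlow
    rw [hv]
    ring
  -- lower bound for `v`
  have hvlow : Real.exp ((2 - ε / 8) * L) / L ^ 5 ≤ v := by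
    have h1 : Real.exp ((2 - ε / 8) * L) = Y ^ 2 * Y ^ (-(ε / 8)) := by
      rw [Real.rpow_def_of_pos hYpos, ← hL, hYe, ← Real.exp_nat_mul, ← Real.exp_add]
      congr 1
      push_cast
      ring
    have h2 : Y ^ 2 / L ^ 2 * Y ^ (-(ε / 8)) ≤ R * E :=
      mul_le_mul hRlow f4 (Real.rpow_nonneg hYpos.le _) hRnn
    rw [hv, h1]
    calc Y ^ 2 * Y ^ (-(ε / 8)) / L ^ 5 = Y ^ 2 / L ^ 2 * Y ^ (-(ε / 8)) / L ^ 3 := by
          field_simp
      _ ≤ R * E / L ^ 3 := div_le_div_of_nonneg_right h2 hL3p.le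
  have hεL : ε * L ≤ L := by
    have := mul_le_mul_of_nonneg_right hε1.le hLpos.le
    linarith
  have hvl16 : Real.exp (L / 4) ≤ v / 16 := by
    have hL5 : 0 ≤ L ^ 5 := pow_nonneg hLpos.le 5
    have hL5p : 0 < L ^ 5 := pow_pos hLpos 5
    have h1 : Real.exp (L / 4) * (16 * L ^ 5) ≤ Real.exp ((2 - ε / 8) * L) := by
      calc Real.exp (L / 4) * (16 * L ^ 5) ≤ Real.exp (L / 4) * Real.exp L := by
            refine mul_le_mul_of_nonneg_left ?_ (Real.exp_pos _).le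
            linarith
        _ = Real.exp (L / 4 + L) := by rw [Real.exp_add]
        _ ≤ Real.exp ((2 - ε / 8) * L) := by
            refine Real.exp_le_exp.2 ?_
            linarith
    have h2 : Real.exp (L / 4) ≤ Real.exp ((2 - ε / 8) * L) / L ^ 5 / 16 := by
      rw [div_div, le_div_iff₀ (by linarith)]
      linarith
    linarith
  -- the terms
  have hKexp : N0 * 2 ^ K ≤ Real.exp (L / 16) := by
    have h0 : 0 ≤ N0 * 2 ^ K := mul_nonneg hN0.le (by linarith)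
    have h1 : N0 * 2 ^ K ≤ N0 * 2 ^ K * L ^ 8 := le_mul_of_one_le_right h0 hL8
    exact (h1.trans P6).trans (Real.exp_le_exp.2 h2K)
  have hN0exp : N0 ≤ Real.exp (L / 16) := by
    refine le_trans ?_ hKexp
    exact le_mul_of_one_le_right hN0.le h2p
  have hQexp : (4 * L) ^ K ≤ Real.exp (ε / 8 * L) := by
    refine le_trans ?_ P7
    calc (4 * L) ^ K ≤ (8 * L) ^ K := pow_le_pow_left₀ (by linarith) (by linarith) K
      _ ≤ (8 * L) ^ (4 * K) := pow_le_pow_right₀ (by linarith) (by omega)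
  have hlogL : Real.log L ≤ L := by
    have := Real.log_le_sub_one_of_pos hLpos
    linarith
  have t1 : 2 * R * (2 * (1 / L ^ 6 + J / L ^ 8) * E) ≤ v / 8 := by
    have h1 : (J:ℝ) / L ^ 8 ≤ 1 / L ^ 6 := by
      rw [div_le_div_iff₀ (pow_pos hLpos 8) (pow_pos hLpos 6)]
      have h2 : (J:ℝ) ≤ L ^ 2 := by
        have h5 : 5 * L ≤ L * L := mul_le_mul_of_nonneg_right g1 hLpos.le
        rw [sq]
        linarith
      have h3 : (J:ℝ) * L ^ 6 ≤ L ^ 2 * L ^ 6 := mul_le_mul_of_nonneg_right h2 (pow_pos hLpos 6).le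
      calc (J:ℝ) * L ^ 6 ≤ L ^ 2 * L ^ 6 := h3
        _ = 1 * L ^ 8 := by ring
    have h2 : 2 * R * (2 * (1 / L ^ 6 + J / L ^ 8) * E) ≤
        2 * R * (2 * (1 / L ^ 6 + 1 / L ^ 6) * E) := by
      have h3 : 2 * (1 / L ^ 6 + J / L ^ 8) * E ≤ 2 * (1 / L ^ 6 + 1 / L ^ 6) * E :=
        mul_le_mul_of_nonneg_right (by linarith) hEpos.le
      exact mul_le_mul_of_nonneg_left h3 (by linarith)
    refine h2.trans ?_
    have h3 : 2 * R * (2 * (1 / L ^ 6 + 1 / L ^ 6) * E) = v * (8 / L ^ 3) := by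
      rw [hv]
      field_simp
      ring
    have h4 : 8 / L ^ 3 ≤ 1 / 8 := by
      rw [div_le_div_iff₀ hL3p (by norm_num)]
      linarith
    rw [h3]
    calc v * (8 / L ^ 3) ≤ v * (1 / 8) := mul_le_mul_of_nonneg_left h4 hvnn
      _ = v / 8 := by ring
  have t2 : N1 * (4 * L) ^ K ≤ v / 16 := by
    refine le_trans ?_ hvl16
    calc N1 * (4 * L) ^ K ≤ Real.exp (L / 16) * Real.exp (ε / 8 * L) :=
          mul_le_mul (hN10.trans hN0exp) hQexp hQpos.le (Real.exp_pos _).le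
      _ = Real.exp (L / 16 + ε / 8 * L) := by rw [Real.exp_add]
      _ ≤ Real.exp (L / 4) := Real.exp_le_exp.2 (by linarith)
  have t3 : N1 * (2 ^ K * Fc) ≤ v / 16 := by
    refine le_trans ?_ hvl16
    have h1 : Fc ≤ Real.exp (L / 16) := by
      refine f3.trans (le_of_eq ?_)
      rw [Real.rpow_def_of_pos hYpos, ← hL]
      congr 1
      ring
    have h3 : N1 * 2 ^ K ≤ N0 * 2 ^ K := mul_le_mul_of_nonneg_right hN10 (by linarith)
    calc N1 * (2 ^ K * Fc) = N1 * 2 ^ K * Fc := by ring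
      _ ≤ Real.exp (L / 16) * Real.exp (L / 16) :=
          mul_le_mul (h3.trans hKexp) h1 hFnn (Real.exp_pos _).le
      _ = Real.exp (L / 16 + L / 16) := by rw [Real.exp_add]
      _ ≤ Real.exp (L / 4) := Real.exp_le_exp.2 (by linarith)
  have t4 : N1 * (2 ^ K * (14 * Y ^ 2 / Real.exp (2 * (K : ℝ)) * E)) ≤ v / 8 := by
    have he : 0 < Real.exp (2 * (K : ℝ)) := Real.exp_pos _
    have h3 : N1 * 2 ^ K ≤ N0 * 2 ^ K := mul_le_mul_of_nonneg_right hN10 (by linarith)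
    have h1 : N1 * 2 ^ K / Real.exp (2 * (K : ℝ)) ≤ 1 / L ^ 8 := by
      rw [div_le_div_iff₀ he (pow_pos hLpos 8), one_mul]
      exact (mul_le_mul_of_nonneg_right h3 (pow_pos hLpos 8).le).trans P6
    have h2 : Y ^ 2 ≤ R * L ^ 2 := by
      rw [div_le_iff₀ (pow_pos hLpos 2)] at hRlow
      exact hRlow
    have h4 : 14 * Y ^ 2 * E ≤ 14 * (R * L ^ 2) * E :=
      mul_le_mul_of_nonneg_right (by linarith) hEpos.le
    calc N1 * (2 ^ K * (14 * Y ^ 2 / Real.exp (2 * (K : ℝ)) * E))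
        = N1 * 2 ^ K / Real.exp (2 * (K : ℝ)) * (14 * Y ^ 2 * E) := by
          ring
      _ ≤ 1 / L ^ 8 * (14 * (R * L ^ 2) * E) :=
          mul_le_mul h1 h4 (by positivity) (by positivity)
      _ = v * (14 / L ^ 3) := by
          rw [hv]
          field_simp
      _ ≤ v * (1 / 8) := by
          refine mul_le_mul_of_nonneg_left ?_ hvnn
          rw [div_le_div_iff₀ hL3p (by norm_num)]
          linarith
      _ = v / 8 := by ring
  have hmain : N ≤ 2 * R * (2 * (1 / L ^ 6 + J / L ^ 8) * E) +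
      (N1 * (4 * L) ^ K + (N1 * (2 ^ K * Fc) +
        N1 * (2 ^ K * (14 * Y ^ 2 / Real.exp (2 * (K : ℝ)) * E)))) +
      (4 * L) ^ K * X := by
    refine hle.trans (le_of_eq ?_)
    ring
  have hYpow : Y ^ (2 - ε) * (2 * (4 * L) ^ K) ≤ v := by
    refine le_trans ?_ hvlow
    rw [le_div_iff₀ (pow_pos hLpos 5)]
    have h1 : Y ^ (2 - ε) = Real.exp ((2 - ε) * L) := by
      rw [Real.rpow_def_of_pos hYpos, ← hL]
      congr 1
      ring
    rw [h1]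
    calc Real.exp ((2 - ε) * L) * (2 * (4 * L) ^ K) * L ^ 5
        = Real.exp ((2 - ε) * L) * (4 * L) ^ K * (2 * L ^ 5) := by ring
      _ ≤ Real.exp ((2 - ε) * L) * Real.exp (ε / 8 * L) * Real.exp (3 * ε / 4 * L) := by
          refine mul_le_mul ?_ g3 (by positivity) (by positivity)
          exact mul_le_mul_of_nonneg_left hQexp (Real.exp_pos _).le
      _ = Real.exp ((2 - ε / 8) * L) := by
          rw [← Real.exp_add, ← Real.exp_add]
          congr 1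
          ring
  exact fin_ hQpos hvN hmain t1 t2 t3 t4 hvnn hYpow

/-- comparison of the exponents -/
lemma expo {ε Y L : ℝ} (hYpos : 0 < Y) (hL : L = Real.log Y) (hε : 0 < ε) (hε1 : ε < 1)
    (g4 : 2 / ε ≤ L) : ((2:ℝ) * Y ^ 2) ^ (1 / 2 + ε / 8) ≤ Y ^ (1 + ε) := by
  have h7 : ((2:ℝ) * Y ^ 2) ^ (1 / 2 + ε / 8) = 2 ^ (1 / 2 + ε / 8) * Y ^ (1 + ε / 4) := by
    rw [Real.mul_rpow (by norm_num) (by positivity)]
    congr 1
    rw [← Real.rpow_natCast Y 2, ← Real.rpow_mul hYpos.le]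
    congr 1
    push_cast
    ring
  rw [h7]
  have h8 : (2:ℝ) ^ (1 / 2 + ε / 8) ≤ 2 := by
    calc (2:ℝ) ^ (1 / 2 + ε / 8) ≤ 2 ^ (1:ℝ) :=
          Real.rpow_le_rpow_of_exponent_le (by norm_num) (by linarith)
      _ = 2 := Real.rpow_one 2
  have h9 : (2:ℝ) ≤ Y ^ (3 * ε / 4) := by
    rw [Real.rpow_def_of_pos hYpos, ← hL]
    have h10 : 1 ≤ L * (3 * ε / 4) := by
      rw [div_le_iff₀ hε] at g4
      linarith
    have h11 := Real.add_one_le_exp (L * (3 * ε / 4))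
    linarith
  calc (2:ℝ) ^ (1 / 2 + ε / 8) * Y ^ (1 + ε / 4) ≤ Y ^ (3 * ε / 4) * Y ^ (1 + ε / 4) :=
        mul_le_mul_of_nonneg_right (h8.trans h9) (Real.rpow_nonneg hYpos.le _)
    _ = Y ^ (1 + ε) := by
        rw [← Real.rpow_add hYpos]
        congr 1
        ring

end DI3_

open DI3_ in
theorem p_DI3 (hPAR : T_PAR) (hFML : T_FML) (hSML : T_SML) (hRRL : T_RRL) (hLO2 : T_LO2)
    (hAS3 : T_AS3) (hTU2 : T_TU2) : T_DI3 := by
  intro S Kl M ρ Q A hD hC δ ε hδ hδ1 hε hε1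
  have hD' := hD
  obtain ⟨hM, hρ1, hρ2, hS, hKill, -⟩ := hD'
  have hA : 3 ≤ A := hC.1
  have hη : (0:ℝ) < 2 + 3 * δ := by linarith
  obtain ⟨L1, hL1, hPar⟩ := hPAR A δ (ε / 8) hA hδ hδ1 (by positivity)
  obtain ⟨Y1, hY1, hRR⟩ := hRRL (2 + 3 * δ) hη
  obtain ⟨Y2, hY2, hLO⟩ := hLO2 M ρ δ (2 + 3 * δ) hM hρ1 hρ2 hδ (by linarith)
  obtain ⟨D₀, hD₀⟩ := hKill (ε / 8) (by positivity)
  obtain ⟨L₀, hL₀⟩ := (Filter.eventually_atTop.1 (ev_good (ε := ε) hε))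
  refine ⟨max (max (max Y1 Y2) (max (Real.exp L1) (Real.exp L₀))) (256 * (D₀ + 1)), ?_, ?_⟩
  · refine le_trans ?_ (le_max_left _ _)
    refine le_trans ?_ (le_max_left _ _)
    refine le_trans ?_ (le_max_left _ _)
    linarith
  intro Y hY
  have hYY1 : Y1 ≤ Y := le_trans (le_max_left _ _) (le_trans (le_max_left _ _)
    (le_trans (le_max_left _ _) hY))
  have hYY2 : Y2 ≤ Y := le_trans (le_max_right _ _) (le_trans (le_max_left _ _)
    (le_trans (le_max_left _ _) hY))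
  have hYL1 : Real.exp L1 ≤ Y := le_trans (le_max_left _ _) (le_trans (le_max_right _ _)
    (le_trans (le_max_left _ _) hY))
  have hYL : Real.exp L₀ ≤ Y := le_trans (le_max_right _ _) (le_trans (le_max_right _ _)
    (le_trans (le_max_left _ _) hY))
  have hYD : 256 * ((D₀:ℝ) + 1) ≤ Y := le_trans (le_max_right _ _) hY
  clear hY
  have hY32 : 32 ≤ Y := hY1.trans hYY1
  have hYpos : 0 < Y := by linarith
  have hSp : ∀ p ∈ S, p.Prime := fun p hp => (hS p hp).1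
  have hY4 : Y ≤ 16 * Y ^ 4 := by
    have h8 : (1:ℝ) ≤ Y ^ 3 := one_le_pow₀ (by linarith)
    have h9 : 16 * Y ^ 4 = Y * (16 * Y ^ 3) := by ring
    rw [h9]
    exact le_mul_of_one_le_right hYpos.le (by linarith)
  set L : ℝ := Real.log Y with hL
  have hYe : Y = Real.exp L := by rw [hL, Real.exp_log hYpos]
  have G : Good ε L := by
    apply hL₀
    rw [hL, Real.le_log_iff_exp_le hYpos]
    exact hYL
  obtain ⟨g1, g2, g3, g4⟩ := G
  have hLL1 : L1 ≤ L := by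
    rw [hL, Real.le_log_iff_exp_le hYpos]
    exact hYL1
  have hLpos : 0 < L := by linarith
  have hL1' : 1 ≤ L := by linarith
  obtain ⟨J, k, hP⟩ := hPar L hLL1
  have hP' := hP
  obtain ⟨P1, P2, P3, P4, P5, P6, P7, P8, P9, P10⟩ := hP'
  rcases le_or_gt (Real.exp (L / (Real.log L) ^ (2 + 3 * δ))) (NS S (16 * Y ^ 4)) with hcase | hcase
  · left
    exact hcase
  right
  set F : Finset (Finset ℕ) := FF (Wj Q A δ L) k J with hF
  set K : ℕ := KK k J with hK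
  have h3L : 3 ≤ Real.log Y := by rw [← hL]; linarith
  obtain ⟨f1, f2, f3, f4⟩ := hFML S Q A δ (ε / 8) Y J k hC hδ (by positivity) hYpos h3L hP
  rw [← hL] at f1 f2 f3 f4
  rw [← hF] at f1 f2 f3 f4
  rw [← hK] at f1
  set E : ℝ := ∑ U ∈ F, wt U with hE
  set R : ℝ := RR S Y with hR
  have hRlow := hRR Y S hYY1 hcase.le
  rw [← hL, ← hR] at hRlow
  have hlow := hLO Y S K F hYY2 hSp hcase.le f1 f2
  rw [← hL, ← hR, ← hE] at hlow
  obtain ⟨hT1, -, -, -⟩ := hTU2 S M ρ Y K F hSp hM hρ1 hρ2 hY32 f1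
  have hkill : ∀ t ∈ UG S M ρ Y F, ∃ p ∈ S, ¬ p ∣ dd t ∧ Kl (dd t) p ∧
      (p : ℝ) ≤ Real.exp ((2 * Y ^ 2) ^ (1 / 2 + ε / 8)) := by
    intro t ht
    obtain ⟨q1, q2, q3, q4, -⟩ := hT1 t ht
    have q5 : D₀ ≤ dd t := by
      have : (D₀:ℝ) ≤ dd t := by
        refine le_trans ?_ q4
        rw [le_div_iff₀ (by norm_num)]
        have h9 : Y ≤ Y ^ 2 := by
          rw [sq]
          exact le_mul_of_one_le_right hYpos.le (by linarith)
        linarith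
      exact_mod_cast this
    rcases hD₀ (dd t) q5 q1 with ⟨q, hq, hqd⟩ | ⟨p, hp, hpd, hK', hple⟩
    · exact absurd hqd (q2 q hq)
    · refine ⟨p, hp, hpd, hK', hple.trans (Real.exp_le_exp.2 ?_)⟩
      exact Real.rpow_le_rpow (by positivity) q3 (by positivity)
  have h2K : 2 * (K : ℝ) ≤ L / 16 := two_K hA P10 P2
  have hPP : Real.exp (4 * (K : ℝ)) ≤ 16 * Y ^ 4 := by
    refine le_trans ?_ hY4
    rw [hYe]
    exact Real.exp_le_exp.2 (by linarith)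
  have hPP1 : 1 ≤ Real.exp (4 * (K : ℝ)) := Real.one_le_exp (by positivity)
  obtain ⟨B, hB, hle⟩ := hAS3 S Kl M ρ (ε / 8) Y (Real.exp (4 * (K : ℝ))) K F hD hY32 f1 hPP1 hPP
    (by positivity) hkill
  have hsml := hSML S Q A δ (ε / 8) Y J k B hC hS hδ (by positivity) h3L hP hcase.le hB
  rw [← hL] at hsml hle
  rw [← hF, ← hK, ← hE] at hsml
  rw [← hR, ← hE] at hle
  have hRnn : 0 ≤ R := by rw [hR]; unfold RR; exact Finset.sum_nonneg fun _ _ => Nat.cast_nonneg _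
  have hsum : (∑ p ∈ (Icc 1 ⌊Real.exp (4 * (K : ℝ))⌋₊).filter (fun p : ℕ => p ∈ S),
      2 * R * ∑ U ∈ F.filter fun U => ∀ l ∈ U, SSN.ch p l = 1 ∨ l ∈ B p, wt U) ≤
      2 * R * (2 * (1 / L ^ 6 + J / L ^ 8) * E) := by
    rw [← Finset.mul_sum]
    exact mul_le_mul_of_nonneg_left hsml (by linarith)
  have hsq : Real.sqrt (Real.exp (4 * (K : ℝ))) = Real.exp (2 * (K : ℝ)) := by
    rw [show (4:ℝ) * (K : ℝ) = 2 * (K : ℝ) + 2 * (K : ℝ) by ring, Real.exp_add,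
      Real.sqrt_mul_self (Real.exp_pos _).le]
  rw [hsq] at hle
  have hN1nn : 0 ≤ NS S (16 * Y ^ 4) := by unfold NS; exact Nat.cast_nonneg _
  have hfinal : Y ^ (2 - ε) ≤ NS S (Real.exp ((2 * Y ^ 2) ^ (1 / 2 + ε / 8))) :=
    core hYpos hL ⟨g1, g2, g3, g4⟩ hε hε1 hN1nn hcase.le (Real.exp_pos _) (Nat.cast_nonneg F.card)
      hRnn P3 P6 P7 h2K hRlow f3 f4 hlow (hle.trans (by linarith [hsum]))
  refine hfinal.trans ?_
  exact SSC.DIC_.NS_mono S (Real.exp_le_exp.2 (expo hYpos hL hε hε1 g4))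

end SSD
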