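import Pool.Agent.SSD.Targets
import Pool.Agent.SSC.FINA

/-!
# FA3: all large `x` (helper94, for helper69)
-/

set_option autoImplicit false

open scoped BigOperators Classical
open Finset

namespace SSD

open SSC

namespace FA3_

lemma ev1 {κ η : ℝ} (h0 : 0 < κ) (h : κ < η) : ∀ᶠ u : ℝ in Filter.atTop,
    u / (Real.log u) ^ η ≤ (u / 2) / (Real.log (u / 2)) ^ κ := by
  have h1 := ((tendsto_rpow_atTop (sub_pos.2 h)).comp Real.tendsto_log_atTop).eventually_ge_atTop
    (2 : ℝ)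
  filter_upwards [h1, Filter.eventually_gt_atTop (4 : ℝ)] with u hu hu4
  rw [Function.comp_apply] at hu
  have hlog : 0 < Real.log u := Real.log_pos (by linarith)
  have hlog2 : 0 < Real.log (u / 2) := Real.log_pos (by linarith)
  have hle : Real.log (u / 2) ≤ Real.log u := Real.log_le_log (by linarith) (by linarith)
  have hp : 0 < (Real.log (u / 2)) ^ κ := Real.rpow_pos_of_pos hlog2 _
  have hq : 0 < (Real.log u) ^ η := Real.rpow_pos_of_pos hlog _
  have h2 : (Real.log (u / 2)) ^ κ ≤ (Real.log u) ^ κ := Real.rpow_le_rpow hlog2.le hle h0.le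
  have h3 : 2 * (Real.log u) ^ κ ≤ (Real.log u) ^ η := by
    have h4 : (Real.log u) ^ η = (Real.log u) ^ (η - κ) * (Real.log u) ^ κ := by
      rw [← Real.rpow_add hlog]
      congr 1
      ring
    rw [h4]
    exact mul_le_mul_of_nonneg_right hu (Real.rpow_nonneg hlog.le _)
  rw [div_le_div_iff₀ hq hp]
  have h5 : 2 * (Real.log (u / 2)) ^ κ ≤ (Real.log u) ^ η := by linarith
  nlinarith

lemma ev2 {η : ℝ} (h : 0 < η) : ∀ᶠ u : ℝ in Filter.atTop,
    u / (Real.log u) ^ η ≤ 3 / 4 * u := by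
  have h1 := ((tendsto_rpow_atTop h).comp Real.tendsto_log_atTop).eventually_ge_atTop (2 : ℝ)
  filter_upwards [h1, Filter.eventually_gt_atTop (4 : ℝ)] with u hu hu4
  rw [Function.comp_apply] at hu
  rw [div_le_iff₀ (by linarith)]
  nlinarith

end FA3_

open FA3_ in
theorem p_FA3 (h1 : T_DI3) : T_FA3 := by
  intro S Kl M ρ Q A hData hCls η hη
  obtain ⟨δ, hδ⟩ : ∃ δ : ℝ, δ = min 1 ((η - 2) / 6) := ⟨_, rfl⟩
  have hδ0 : 0 < δ := by
    rw [hδ]
    exact lt_min (by norm_num) (by linarith)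
  have hδ1 : δ ≤ 1 := by
    rw [hδ]
    exact min_le_left _ _
  have hδ2 : 2 + 3 * δ < η := by
    have : δ ≤ (η - 2) / 6 := by
      rw [hδ]
      exact min_le_right _ _
    linarith
  obtain ⟨Y₀, hY₀, H⟩ := h1 S Kl M ρ Q A hData hCls δ (1 / 2) hδ0 hδ1 (by norm_num) (by norm_num)
  have hLL : Filter.Tendsto (fun x : ℝ => Real.log (Real.log x)) Filter.atTop Filter.atTop :=
    Real.tendsto_log_atTop.comp Real.tendsto_log_atTop
  have hev : ∀ᶠ x : ℝ in Filter.atTop,
      Real.exp (Real.log (Real.log x) / (Real.log (Real.log (Real.log x))) ^ η) ≤ NS S x := by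
    filter_upwards [FINA_.ev3, hLL.eventually (ev1 (show 0 < 2 + 3 * δ by linarith) hδ2),
      hLL.eventually (ev2 (show 0 < η by linarith)),
      Real.tendsto_log_atTop.eventually_ge_atTop (Y₀ ^ 2),
      Real.tendsto_log_atTop.eventually_ge_atTop 1, Filter.eventually_gt_atTop (0:ℝ)]
      with x e1 e2 e3 e4 e5 e6
    obtain ⟨l, hl⟩ : ∃ l : ℝ, l = Real.log x := ⟨_, rfl⟩
    rw [← hl] at e1 e2 e3 e4 e5 ⊢
    have hl0 : 0 < l := by linarith
    have hY : Y₀ ≤ l ^ (1 / 2 : ℝ) := by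
      rw [← Real.sqrt_eq_rpow]
      exact Real.le_sqrt_of_sq_le e4
    have hY4 : 16 * (l ^ (1 / 2 : ℝ)) ^ 4 ≤ x := by
      have : (l ^ (1 / 2 : ℝ)) ^ 4 = l ^ 2 := by
        rw [← Real.sqrt_eq_rpow]
        have h2 := Real.sq_sqrt hl0.le
        calc (Real.sqrt l) ^ 4 = ((Real.sqrt l) ^ 2) ^ 2 := by ring
          _ = l ^ 2 := by rw [h2]
      rw [this]
      exact e1
    have hlogY : Real.log (l ^ (1 / 2 : ℝ)) = Real.log l / 2 := by
      rw [Real.log_rpow hl0]
      ring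
    rcases H (l ^ (1 / 2 : ℝ)) hY with h | h
    · rw [hlogY] at h
      exact ((Real.exp_le_exp.2 e2).trans h).trans (FINA_.NS_mono S hY4)
    · have h2 : (l ^ (1 / 2 : ℝ)) ^ ((2:ℝ) - 1 / 2) = l ^ (3 / 4 : ℝ) := by
        rw [← Real.rpow_mul hl0.le]
        norm_num
      have h3 : (l ^ (1 / 2 : ℝ)) ^ ((1:ℝ) + 1 / 2) = l ^ (3 / 4 : ℝ) := by
        rw [← Real.rpow_mul hl0.le]
        norm_num
      rw [h2, h3] at h
      have h4 : l ^ (3 / 4 : ℝ) ≤ l := by
        conv_rhs => rw [← Real.rpow_one l]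
        exact Real.rpow_le_rpow_of_exponent_le e5 (by norm_num)
      have h5 : Real.exp (l ^ (3 / 4 : ℝ)) ≤ x := by
        refine (Real.exp_le_exp.2 h4).trans (le_of_eq ?_)
        rw [hl, Real.exp_log e6]
      have h6 : Real.exp (3 / 4 * Real.log l) = l ^ (3 / 4 : ℝ) := by
        rw [Real.rpow_def_of_pos hl0, mul_comm]
      exact ((Real.exp_le_exp.2 e3).trans (h6.le.trans h)).trans (FINA_.NS_mono S h5)
  exact Filter.eventually_atTop.1 hev

end SSD
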