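import Pool.Agent.SSD.Targets

/-!
# SSD-FML: the family of the factors
-/

set_option autoImplicit false

open scoped BigOperators Classical
open Finset

namespace SSD

open SSC

namespace FML_

/-- members of the windows -/
theorem mem_Wj {Q : Set ℕ} {A δ L : ℝ} {j l : ℕ} (h : l ∈ Wj Q A δ L j) :
    l ∈ Q ∧ l.Prime ∧ Real.exp (sj A δ L j) < (l : ℝ) ∧ (l : ℝ) ≤ Real.exp (sj A δ L (j + 1)) := by
  unfold Wj pri at h
  rw [mem_filter, mem_filter, mem_Icc] at h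
  obtain ⟨⟨⟨h1, h2⟩, h3, h4⟩, h5⟩ := h
  refine ⟨h5, h3, h4, ?_⟩
  have h6 : (l : ℝ) ≤ (⌊Real.exp (sj A δ L (j + 1))⌋₊ : ℝ) := by exact_mod_cast h2
  exact h6.trans (Nat.floor_le (Real.exp_pos _).le)

theorem sj_succ (A δ L : ℝ) (j : ℕ) : sj A δ L (j + 1) = A * sj A δ L j := by
  unfold sj
  rw [pow_succ]
  ring

theorem sj_mono {A δ L : ℝ} (hA : 1 ≤ A) (h0 : 0 ≤ sj A δ L 0) : Monotone (sj A δ L) := by
  have hb : 0 ≤ (Real.log L) ^ (1 + δ) := by
    have h : sj A δ L 0 = (Real.log L) ^ (1 + δ) := by unfold sj; simp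
    rw [h] at h0
    exact h0
  intro i j hij
  unfold sj
  exact mul_le_mul_of_nonneg_right (pow_le_pow_right₀ hA hij) hb

/-- the windows are disjoint -/
theorem disj {Q : Set ℕ} {A δ L : ℝ} (hA : 1 ≤ A) (h0 : 0 ≤ sj A δ L 0) :
    ∀ i j, i ≠ j → Disjoint (Wj Q A δ L i) (Wj Q A δ L j) := by
  have key : ∀ i j, i < j → Disjoint (Wj Q A δ L i) (Wj Q A δ L j) := by
    intro i j hij
    rw [Finset.disjoint_left]
    intro l h1 h2
    obtain ⟨-, -, -, h3⟩ := mem_Wj h1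
    obtain ⟨-, -, h4, -⟩ := mem_Wj h2
    have h5 : sj A δ L (i + 1) ≤ sj A δ L j := sj_mono hA h0 (by omega)
    have h6 := Real.exp_le_exp.2 h5
    linarith
  intro i j hij
  rcases lt_or_gt_of_ne hij with h | h
  · exact key i j h
  · exact (key j i h).symm

theorem mem_FF {W : ℕ → Finset ℕ} {k : ℕ → ℕ} {J : ℕ} {U : Finset ℕ} :
    U ∈ FF W k J ↔ U ⊆ (range (J + 1)).biUnion W ∧ ∀ j ∈ range (J + 1), (U ∩ W j).card = k j := by
  unfold FF
  simp only [mem_filter, mem_powerset]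

/-- the product of the elements of a member of the family -/
theorem prod_eq {W : ℕ → Finset ℕ} {k : ℕ → ℕ} {J : ℕ} {U : Finset ℕ}
    (hd : ∀ i j, i ≠ j → Disjoint (W i) (W j)) (hU : U ∈ FF W k J) :
    ∏ l ∈ U, (l : ℝ) = ∏ j ∈ range (J + 1), ∏ l ∈ U ∩ W j, (l : ℝ) := by
  rw [mem_FF] at hU
  have h1 : U = (range (J + 1)).biUnion fun j => U ∩ W j := by
    ext l
    simp only [mem_biUnion, mem_inter]
    constructor
    · intro hl
      obtain ⟨j, hj, hlj⟩ := mem_biUnion.1 (hU.1 hl)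
      exact ⟨j, hj, hl, hlj⟩
    · rintro ⟨j, -, hl, -⟩
      exact hl
  conv_lhs => rw [h1]
  rw [prod_biUnion]
  intro i _ j _ hij
  exact (hd i j hij).mono inter_subset_right inter_subset_right

theorem prod_le {Q : Set ℕ} {A δ L : ℝ} {k : ℕ → ℕ} {J : ℕ} {U : Finset ℕ} (hA : 1 ≤ A)
    (h0 : 0 ≤ sj A δ L 0) (hU : U ∈ FF (Wj Q A δ L) k J) :
    ∏ l ∈ U, (l : ℝ) ≤ Real.exp (∑ j ∈ range (J + 1), (k j : ℝ) * sj A δ L (j + 1)) := by
  rw [prod_eq (disj hA h0) hU, Real.exp_sum]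
  rw [mem_FF] at hU
  refine prod_le_prod (fun j _ => prod_nonneg fun l _ => Nat.cast_nonneg l) fun j hj => ?_
  calc ∏ l ∈ U ∩ Wj Q A δ L j, (l : ℝ)
      ≤ ∏ _l ∈ U ∩ Wj Q A δ L j, Real.exp (sj A δ L (j + 1)) :=
        prod_le_prod (fun l _ => Nat.cast_nonneg l) fun l hl =>
          (mem_Wj (mem_of_mem_inter_right hl)).2.2.2
    _ = Real.exp ((k j : ℝ) * sj A δ L (j + 1)) := by
        rw [prod_const, hU.2 j hj, ← Real.exp_nat_mul]

/-- a set of primes is determined by its product -/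
theorem inj_prod {U V : Finset ℕ} (hU : ∀ l ∈ U, l.Prime) (hV : ∀ l ∈ V, l.Prime)
    (h : ∏ l ∈ U, l = ∏ l ∈ V, l) : U = V := by
  have h1 := Nat.primeFactors_prod hU
  have h2 := Nat.primeFactors_prod hV
  rw [← h1, ← h2, h]

theorem prime_of_mem {Q : Set ℕ} {A δ L : ℝ} {k : ℕ → ℕ} {J : ℕ} {U : Finset ℕ}
    (hU : U ∈ FF (Wj Q A δ L) k J) {l : ℕ} (hl : l ∈ U) :
    l ∈ Q ∧ l.Prime ∧ ∃ j ∈ range (J + 1), Real.exp (sj A δ L j) < (l : ℝ) := by
  rw [mem_FF] at hU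
  obtain ⟨j, hj, hlj⟩ := mem_biUnion.1 (hU.1 hl)
  obtain ⟨h1, h2, h3, -⟩ := mem_Wj hlj
  exact ⟨h1, h2, j, hj, h3⟩

/-- the number of members of the family -/
theorem card_le {Q : Set ℕ} {A δ L Z : ℝ} {k : ℕ → ℕ} {J : ℕ}
    (h : ∀ U ∈ FF (Wj Q A δ L) k J, ((∏ l ∈ U, l : ℕ) : ℝ) ≤ Z) (hZ : 0 ≤ Z) :
    ((FF (Wj Q A δ L) k J).card : ℝ) ≤ Z := by
  have h1 : (FF (Wj Q A δ L) k J).card ≤ (Icc 1 ⌊Z⌋₊).card := by
    refine card_le_card_of_injOn (fun U : Finset ℕ => ∏ l ∈ U, l) ?_ ?_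
    · intro U hU
      have hU' : U ∈ FF (Wj Q A δ L) k J := by exact_mod_cast hU
      have h2 : 0 < ∏ l ∈ U, l := prod_pos fun l hl => (prime_of_mem hU' hl).2.1.pos
      have h3 : ∏ l ∈ U, l ≤ ⌊Z⌋₊ := Nat.le_floor (h U hU')
      simp only [coe_Icc, Set.mem_Icc]
      exact ⟨h2, h3⟩
    · intro U hU V hV hUV
      have hU' : U ∈ FF (Wj Q A δ L) k J := by exact_mod_cast hU
      have hV' : V ∈ FF (Wj Q A δ L) k J := by exact_mod_cast hV
      exact inj_prod (fun l hl => (prime_of_mem hU' hl).2.1)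
        (fun l hl => (prime_of_mem hV' hl).2.1) hUV
  rw [Nat.card_Icc] at h1
  have h2 : ((FF (Wj Q A δ L) k J).card : ℝ) ≤ (⌊Z⌋₊ : ℝ) := by
    exact_mod_cast (by omega : (FF (Wj Q A δ L) k J).card ≤ ⌊Z⌋₊)
  exact h2.trans (Nat.floor_le hZ)

/-- each term is at most the sum -/
theorem kj_le {A δ L : ℝ} {k : ℕ → ℕ} {J : ℕ} (hs : ∀ j, 2 ≤ sj A δ L j)
    (h : ∑ j ∈ range (J + 1), (k j : ℝ) * sj A δ L (j + 1) ≤ L / 16) :
    ∀ j ∈ range (J + 1), (k j : ℝ) ≤ L / 32 := by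
  intro j hj
  have h1 : (k j : ℝ) * sj A δ L (j + 1) ≤
      ∑ j ∈ range (J + 1), (k j : ℝ) * sj A δ L (j + 1) :=
    single_le_sum (f := fun j => (k j : ℝ) * sj A δ L (j + 1))
      (fun i _ => mul_nonneg (Nat.cast_nonneg _) (by linarith [hs (i + 1)])) hj
  have h2 : (k j : ℝ) * 2 ≤ (k j : ℝ) * sj A δ L (j + 1) :=
    mul_le_mul_of_nonneg_left (hs (j + 1)) (Nat.cast_nonneg _)
  linarith

/-- lower bound for the total weight -/
theorem low {S Q : Set ℕ} {A δ ε L : ℝ} {k : ℕ → ℕ} {J : ℕ} (hP : T_PRD) (hR : T_RAT)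
    (hC : Cls S Q A) (hL : 3 ≤ L) (hs : ∀ j, 2 ≤ sj A δ L j)
    (h2 : ∑ j ∈ range (J + 1), (k j : ℝ) * sj A δ L (j + 1) ≤ L / 16)
    (h7 : (8 * L) ^ (4 * KK k J) ≤ Real.exp (ε * L))
    (h8 : ∀ j ∈ range (J + 1), 4 * (k j : ℝ) ^ 2 ≤ Real.exp (sj A δ L j)) :
    Real.exp (-(ε * L)) ≤ ∑ U ∈ FF (Wj Q A δ L) k J, wt U := by
  obtain ⟨hA, hQ, hM⟩ := hC
  rw [(hP _ k J (disj (by linarith) (by linarith [hs 0]))).2.1]
  have hlog : 0 ≤ Real.log L := Real.log_nonneg (by linarith)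
  have hstep : ∀ j ∈ range (J + 1),
      Real.exp (-(k j * (Real.log L + 1))) ≤ em (Wj Q A δ L j) (k j) := by
    intro j hj
    have h3 : 1 ≤ ∑ l ∈ Wj Q A δ L j, 1 / (l : ℝ) := by
      have h4 := (hM (sj A δ L j) (hs j)).1
      unfold Wj
      rw [sj_succ]
      exact h4
    have h5 := (hR (Wj Q A δ L j) ∅ (k j) (sj A δ L j) (empty_subset _)
      (fun l hl => (mem_Wj hl).2.2.1) h3 (h8 j hj)).2
    refine le_trans (Real.exp_le_exp.2 ?_) h5
    have h6 : Real.log ((k j : ℝ) + 1) ≤ Real.log L := by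
      refine Real.log_le_log (by positivity) ?_
      have := kj_le hs h2 j hj
      linarith
    have h9 : (k j : ℝ) * (Real.log ((k j : ℝ) + 1) + 1) ≤ (k j : ℝ) * (Real.log L + 1) :=
      mul_le_mul_of_nonneg_left (by linarith) (Nat.cast_nonneg _)
    linarith
  calc Real.exp (-(ε * L)) ≤ Real.exp (∑ j ∈ range (J + 1), -(k j * (Real.log L + 1))) := by
        refine Real.exp_le_exp.2 ?_
        rw [sum_neg_distrib, ← sum_mul]
        have h10 : (∑ j ∈ range (J + 1), (k j : ℝ)) = (KK k J : ℝ) := by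
          unfold KK
          push_cast
          rfl
        rw [h10]
        have h11 : ((4 * KK k J : ℕ) : ℝ) * Real.log (8 * L) ≤ ε * L := by
          have h12 := Real.log_le_log (by positivity) h7
          rw [Real.log_exp, Real.log_pow] at h12
          exact h12
        have h13 : Real.log L + 1 ≤ Real.log (8 * L) := by
          rw [Real.log_mul (by norm_num) (by linarith)]
          have h14 : (1 : ℝ) ≤ Real.log 8 := by
            rw [Real.le_log_iff_exp_le (by norm_num)]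
            linarith [Real.exp_one_lt_d9]
          linarith
        have h15 : (KK k J : ℝ) * (Real.log L + 1) ≤ (KK k J : ℝ) * Real.log (8 * L) :=
          mul_le_mul_of_nonneg_left h13 (Nat.cast_nonneg _)
        have h16 : 0 ≤ (KK k J : ℝ) * (Real.log L + 1) :=
          mul_nonneg (Nat.cast_nonneg _) (by linarith)
        push_cast at h11
        linarith
    _ = ∏ j ∈ range (J + 1), Real.exp (-(k j * (Real.log L + 1))) := by rw [Real.exp_sum]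
    _ ≤ ∏ j ∈ range (J + 1), em (Wj Q A δ L j) (k j) :=
        prod_le_prod (fun j _ => (Real.exp_pos _).le) hstep

end FML_

open FML_ in
/-- FML for positive `Y` -/
theorem FML_pos (hP : T_PRD) (hR : T_RAT) (S Q : Set ℕ) (A δ ε Y : ℝ) (J : ℕ) (k : ℕ → ℕ)
    (hC : Cls S Q A) (_hδ : 0 < δ) (_hε : 0 < ε) (hY : 0 < Y) (hL : 3 ≤ Real.log Y)
    (hPrm : Prm A δ ε (Real.log Y) J k) :
    Fam S Y (KK k J) (FF (Wj Q A δ (Real.log Y)) k J) ∧
    (∀ U ∈ FF (Wj Q A δ (Real.log Y)) k J, ∀ l ∈ U,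
      Real.exp ((Real.log (Real.log Y)) ^ (1 + δ)) < (l : ℝ)) ∧
    ((FF (Wj Q A δ (Real.log Y)) k J).card : ℝ) ≤ Y ^ (1 / 16 : ℝ) ∧
    Y ^ (-ε) ≤ ∑ U ∈ FF (Wj Q A δ (Real.log Y)) k J, wt U := by
  have hA : (1 : ℝ) ≤ A := by linarith [hC.1]
  obtain ⟨-, h2, -, -, -, -, h7, h8, -, h10⟩ := hPrm
  have hmono : Monotone (sj A δ (Real.log Y)) := sj_mono hA (by linarith)
  have hs : ∀ j, 2 ≤ sj A δ (Real.log Y) j := fun j => h10.trans (hmono (Nat.zero_le j))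
  have hpr : ∀ U ∈ FF (Wj Q A δ (Real.log Y)) k J,
      ((∏ l ∈ U, l : ℕ) : ℝ) ≤ Y ^ (1 / 16 : ℝ) := by
    intro U hU
    push_cast
    refine (prod_le hA (by linarith) hU).trans ?_
    rw [Real.rpow_def_of_pos hY]
    refine Real.exp_le_exp.2 (h2.trans (le_of_eq ?_))
    ring
  refine ⟨?_, ?_, ?_, ?_⟩
  · intro U hU
    refine ⟨(hP _ k J (disj hA (by linarith))).1 U hU, ?_, hpr U hU⟩
    intro l hl
    exact hC.2.1 l (prime_of_mem hU hl).1
  · intro U hU l hl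
    obtain ⟨-, -, j, -, hj⟩ := prime_of_mem hU hl
    refine lt_of_le_of_lt (Real.exp_le_exp.2 ?_) hj
    have h0 : sj A δ (Real.log Y) 0 = (Real.log (Real.log Y)) ^ (1 + δ) := by unfold sj; simp
    rw [← h0]
    exact hmono (Nat.zero_le j)
  · exact card_le hpr (Real.rpow_nonneg hY.le _)
  · have h := low hP hR hC hL hs h2 h7 h8
    rw [Real.rpow_def_of_pos hY]
    refine le_trans (le_of_eq ?_) h
    congr 1
    ring

/-- FML -/
theorem p_FML (hP : T_PRD) (hR : T_RAT) : T_FML := fun S Q A δ ε Y J k hC hδ hε hY hL hPrm =>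
  FML_pos hP hR S Q A δ ε Y J k hC hδ hε hY hL hPrm

end SSD
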