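import Pool.Agent.SSD.Targets
import Pool.Agent.SSC.HLO

/-! # SSD, target HL3: many numbers `h` (Brun's pure sieve), primes `l` slightly larger than a power
of `log Y` -/

set_option autoImplicit false

open scoped BigOperators Classical
open Finset

namespace SSD

open SSC

namespace HL3_

/-- the inequalities which hold for large `L` -/
lemma ev (δ η C c Mr : ℝ) (hδ : 0 < δ) (hη : 1 < η) (hc : 0 < c) :
    ∃ L0 : ℝ, 4 ≤ L0 ∧ ∀ L : ℝ, L0 ≤ L →
      1 ≤ Real.log L + C ∧ Mr < Real.exp ((Real.log L) ^ (1 + δ)) ∧ Mr < Real.exp L / 16 ∧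
      2 ≤ L / (400 * Real.log L) ∧ L / (400 * Real.log L) ≤ L ∧
      (L / (400 * Real.log L) + 1) * (20 * (Real.log L + C) + 3) + 1 ≤ L / 8 ∧
      1 / L ^ 3 ≤ c / L ^ 2 - 2 * (L * Real.exp (-((Real.log L) ^ (1 + δ)))
        + (2 + Real.exp (L / (Real.log L) ^ η)) * Real.exp (-(L / (400 * Real.log L))))
        - 16 * Real.exp (-(5 / 8 * L)) := by
  have t1 : ∀ᶠ L : ℝ in Filter.atTop, 1 - C ≤ Real.log L :=
    Real.tendsto_log_atTop.eventually_ge_atTop _
  have t1' : ∀ᶠ L : ℝ in Filter.atTop, 20 * |C| + 3 ≤ Real.log L :=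
    Real.tendsto_log_atTop.eventually_ge_atTop _
  have t1'' : ∀ᶠ L : ℝ in Filter.atTop, |Mr| + 5 ≤ Real.log L :=
    Real.tendsto_log_atTop.eventually_ge_atTop _
  have t2 : ∀ᶠ L : ℝ in Filter.atTop, 5 ≤ (Real.log L) ^ δ :=
    ((tendsto_rpow_atTop hδ).comp Real.tendsto_log_atTop).eventually_ge_atTop _
  have t2' : ∀ᶠ L : ℝ in Filter.atTop, 800 ≤ (Real.log L) ^ (η - 1) :=
    ((tendsto_rpow_atTop (by linarith : 0 < η - 1)).comp
      Real.tendsto_log_atTop).eventually_ge_atTop _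
  have t3 : ∀ᶠ L : ℝ in Filter.atTop, 16 * |Mr| + 28 + 2 / c + 3 ≤ L :=
    Filter.eventually_ge_atTop _
  have t4 : ∀ᶠ L : ℝ in Filter.atTop, ‖Real.log L‖ ≤ 1 / 3200 * ‖L ^ (1 / 2 : ℝ)‖ :=
    (isLittleO_log_rpow_atTop (by norm_num)).def (by norm_num)
  obtain ⟨L1, hL1⟩ := Filter.eventually_atTop.1
    (t1.and (t1'.and (t1''.and (t2.and (t2'.and (t3.and t4))))))
  refine ⟨max 4 L1, le_max_left _ _, fun L hL => ?_⟩
  obtain ⟨h1, h1', h1'', h2, h2', h3, h4⟩ := hL1 L ((le_max_right _ _).trans hL)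
  have hL3 : 4 ≤ L := (le_max_left _ _).trans hL
  have hL0 : 0 < L := by linarith
  have hMr : Mr ≤ |Mr| := le_abs_self _
  have hMr0 : 0 ≤ |Mr| := abs_nonneg _
  have hc2 : 0 < 2 / c := by positivity
  set lam := Real.log L with hlam
  have hlam5 : 5 ≤ lam := by linarith
  have hlam0 : 0 < lam := by linarith
  have hsq : (L ^ (1 / 2 : ℝ)) ^ 2 = L := by
    rw [← Real.rpow_natCast, ← Real.rpow_mul hL0.le]
    norm_num
  have hr0 : 0 < L ^ (1 / 2 : ℝ) := Real.rpow_pos_of_pos hL0 _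
  rw [Real.norm_of_nonneg hlam0.le, Real.norm_of_nonneg hr0.le] at h4
  -- `3200 lam ^ 2 ≤ L`
  have h5 : 3200 * lam ^ 2 ≤ L := by
    have : lam ^ 2 ≤ (1 / 3200 * L ^ (1 / 2 : ℝ)) ^ 2 := pow_le_pow_left₀ hlam0.le h4 2
    rw [mul_pow, hsq] at this
    nlinarith
  set Z := L / (400 * lam) with hZ
  have hZl : Z * (400 * lam) = L := by rw [hZ]; field_simp
  have hZ8 : 8 * lam ≤ Z := by
    rw [hZ, le_div_iff₀ (by positivity)]
    nlinarith
  have hw : 5 * lam ≤ lam ^ (1 + δ) := by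
    rw [Real.rpow_add hlam0, Real.rpow_one]
    nlinarith
  have hE3 : L / lam ^ η ≤ Z / 2 := by
    have e1 : lam ^ η = lam * lam ^ (η - 1) := by
      nth_rewrite 2 [← Real.rpow_one lam]
      rw [← Real.rpow_add hlam0]; congr 1; ring
    rw [hZ, div_div, e1]
    refine div_le_div_of_nonneg_left hL0.le (by positivity) ?_
    nlinarith
  refine ⟨by linarith, ?_, ?_, by linarith, ?_, ?_, ?_⟩
  · have := Real.add_one_le_exp (lam ^ (1 + δ))
    linarith
  · have := Real.add_one_le_exp L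
    linarith
  · rw [hZ]
    exact div_le_self hL0.le (by linarith)
  · have hC : C ≤ |C| := le_abs_self _
    have e1 : 20 * (lam + C) + 3 ≤ 21 * lam := by linarith
    have e2 : (Z + 1) * (20 * (lam + C) + 3) ≤ (Z + 1) * (21 * lam) :=
      mul_le_mul_of_nonneg_left e1 (by linarith)
    nlinarith
  · have hlogk : ∀ k : ℕ, Real.exp (-((k : ℝ) * lam)) = 1 / L ^ k := by
      intro k
      rw [Real.exp_neg, one_div]
      congr 1
      rw [Real.exp_nat_mul, hlam, Real.exp_log hL0]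
    have x1 : Real.exp (-(lam ^ (1 + δ))) ≤ 1 / L ^ 5 := by
      rw [← hlogk 5]
      refine Real.exp_le_exp.2 ?_
      push_cast
      linarith
    have x1' : L * Real.exp (-(lam ^ (1 + δ))) ≤ 1 / L ^ 4 := by
      calc L * Real.exp (-(lam ^ (1 + δ))) ≤ L * (1 / L ^ 5) :=
            mul_le_mul_of_nonneg_left x1 hL0.le
        _ = 1 / L ^ 4 := by field_simp
    have x2 : Real.exp (-Z) ≤ 1 / L ^ 4 := by
      rw [← hlogk 4]
      refine Real.exp_le_exp.2 ?_
      push_cast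
      linarith
    have x3 : Real.exp (L / lam ^ η) * Real.exp (-Z) ≤ 1 / L ^ 4 := by
      rw [← Real.exp_add, ← hlogk 4]
      refine Real.exp_le_exp.2 ?_
      push_cast
      linarith
    have x5 : 16 * Real.exp (-(5 / 8 * L)) ≤ 16 / L ^ 4 := by
      have : Real.exp (-(5 / 8 * L)) ≤ 1 / L ^ 4 := by
        rw [← hlogk 4]
        refine Real.exp_le_exp.2 ?_
        push_cast
        nlinarith
      calc 16 * Real.exp (-(5 / 8 * L)) ≤ 16 * (1 / L ^ 4) := by linarith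
        _ = 16 / L ^ 4 := by ring
    have x6 : 1 / L ^ 3 + 28 / L ^ 4 ≤ c / L ^ 2 := by
      have hcL : 2 ≤ c * L := by
        have : 2 / c ≤ L := by linarith
        rw [div_le_iff₀ hc] at this
        linarith
      have hL28' : 28 ≤ L := by linarith
      have h28 : L + 28 ≤ c * L ^ 2 := by nlinarith
      have e1 : 1 / L ^ 3 + 28 / L ^ 4 = (L + 28) / L ^ 4 := by field_simp
      have e2 : c / L ^ 2 = (c * L ^ 2) / L ^ 4 := by field_simp
      rw [e1, e2]
      exact div_le_div_of_nonneg_right h28 (by positivity)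
    have x7 : 2 * (L * Real.exp (-(lam ^ (1 + δ)))
        + (2 + Real.exp (L / lam ^ η)) * Real.exp (-Z)) ≤ 8 / L ^ 4 := by
      have : (2 + Real.exp (L / lam ^ η)) * Real.exp (-Z)
          = 2 * Real.exp (-Z) + Real.exp (L / lam ^ η) * Real.exp (-Z) := by ring
      rw [this]
      have e3 : 8 / L ^ 4 = 2 * (1 / L ^ 4 + (2 * (1 / L ^ 4) + 1 / L ^ 4)) := by ring
      rw [e3]
      linarith
    have x8 : 8 / L ^ 4 + 16 / L ^ 4 ≤ 28 / L ^ 4 := by
      rw [← add_div]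
      exact div_le_div_of_nonneg_right (by norm_num) (by positivity)
    linarith

end HL3_

open HLO_ HL3_

theorem p_HL3 (h1 : SSC.T_BRU) (h2 : SSC.T_MER) : T_HL3 := by
  intro M ρ δ η hM hρ1 hρ2 hδ hη
  obtain ⟨C, hC, hMER⟩ := h2
  have hMr : (0:ℝ) < M := by exact_mod_cast hM
  set c : ℝ := (ρ - 1) * Real.exp (-(2 * C)) / (2 * M) with hc
  have hc0 : 0 < c := by
    have : 0 < ρ - 1 := by linarith
    positivity
  obtain ⟨L0, hL03, hev⟩ := HL3_.ev δ η C c M hδ hη hc0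
  refine ⟨max 32 (Real.exp L0), le_max_left _ _, ?_⟩
  intro Y S a Λ hY hS hNS ha haY1 haY2 hΛsq hΛY hΛp
  have hY3 : 32 ≤ Y := (le_max_left _ _).trans hY
  have hY0 : 0 < Y := by linarith
  set L := Real.log Y with hL
  have hLL0 : L0 ≤ L := by
    rw [hL, Real.le_log_iff_exp_le hY0]
    exact (le_max_right _ _).trans hY
  have hYL : Real.exp L = Y := by rw [hL, Real.exp_log hY0]
  obtain ⟨v1, v2, v3, v4, v4', v5, v6⟩ := hev L hLL0
  have hL3 : 4 ≤ L := hL03.trans hLL0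
  have hLpos : 0 < L := by linarith
  set Z : ℝ := L / (400 * Real.log L) with hZ
  set w : ℝ := (Real.log L) ^ (1 + δ) with hw
  set z0 : ℝ := Real.exp Z with hz0
  have hz00 : 0 < z0 := Real.exp_pos _
  have hz02 : 2 ≤ z0 := by
    have := Real.add_one_le_exp Z
    rw [hz0]; linarith
  have har : (0:ℝ) < a := by exact_mod_cast ha.pos
  have hΛ0 : 0 < Λ := Nat.pos_of_ne_zero (Squarefree.ne_zero hΛsq)
  have hΛr : (0:ℝ) < Λ := by exact_mod_cast hΛ0
  have hY14 : Y ^ (1 / 4 : ℝ) = Real.exp (L / 4) := by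
    rw [← hYL, ← Real.exp_mul]; congr 1; ring
  have hΛlog : Real.log Λ ≤ L / 4 := by
    rw [Real.log_le_iff_le_exp hΛr, ← hY14]
    exact hΛY
  have hE8 : (16 : ℝ) < Real.exp (3 / 4 * L) := by
    have h4 := Real.add_one_le_exp (3 / 4 * L)
    have h5 : (2 + 1) * (20 * 1 + 3) + 1 ≤ L / 8 := by
      refine le_trans ?_ v5
      have : (2 + 1) * (20 * 1 + 3) ≤ (Z + 1) * (20 * (Real.log L + C) + 3) :=
        mul_le_mul (by linarith) (by linarith) (by norm_num) (by linarith)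
      linarith
    linarith
  have hΛa : Λ < a := by
    have h3 : (Λ : ℝ) < a := by
      have h4 : Real.exp (L / 4) * 16 < Y := by
        have : Y = Real.exp (L / 4) * Real.exp (3 / 4 * L) := by
          rw [← hYL, ← Real.exp_add]; congr 1; ring
        rw [this]
        exact mul_lt_mul_of_pos_left hE8 (Real.exp_pos _)
      rw [hY14] at hΛY
      linarith
    exact_mod_cast h3
  -- the class `b`
  have hcop : (a * Λ).Coprime M := by
    refine Nat.Coprime.mul_left ?_ ?_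
    · rw [ha.coprime_iff_not_dvd]
      intro h3
      have h4 : (a : ℝ) ≤ M := by exact_mod_cast Nat.le_of_dvd hM h3
      rw [hYL] at v3
      linarith
    · refine Nat.coprime_of_dvd fun l hl h3 h4 => ?_
      have h5 : (l : ℝ) ≤ M := by exact_mod_cast Nat.le_of_dvd hM h4
      have := (hΛp l hl h3).1
      linarith
  obtain ⟨b, hb⟩ := exb M (a * Λ) hM hcop
  set Q : Finset ℕ := (pri 1 z0).filter fun q => ¬ q ∣ M with hQ
  set m : ℕ → ℕ := fun q => if q ∈ S then q else q ^ 2 with hm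
  set s : ℝ := Real.log L + C with hs
  set r : ℕ := 2 * ⌈10 * s⌉₊ + 1 with hr
  have hs0 : 0 ≤ 10 * s := by linarith
  have hr1 : 20 * s ≤ (r : ℝ) + 1 := by
    have := Nat.le_ceil (10 * s)
    rw [hr]; push_cast; linarith
  have hr2 : (r : ℝ) ≤ 20 * s + 3 := by
    have := Nat.ceil_lt_add_one hs0
    rw [hr]; push_cast; linarith
  have hQmem : ∀ q ∈ Q, q.Prime ∧ (q : ℝ) ≤ z0 ∧ ¬ q ∣ M := by
    intro q hq
    rw [hQ, mem_filter, pri, mem_filter, mem_Icc] at hq
    exact ⟨hq.1.2.1, (Nat.le_floor_iff hz00.le).1 hq.1.1.2, hq.2⟩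
  have hmq : ∀ q : ℕ, q ≤ m q := by
    intro q
    simp only [hm]
    split_ifs
    · exact le_rfl
    · exact Nat.le_self_pow (by norm_num) q
  set u : ℝ := (a : ℝ) / Λ with hu
  set v : ℝ := ρ * a / Λ with hv
  have hu0 : 0 < u := by positivity
  have huv : v = ρ * u := by rw [hv, hu]; ring
  have huv' : u ≤ v := by rw [huv]; nlinarith
  have hv2 : v ≤ 2 * u := by rw [huv]; nlinarith
  have hv0 : 0 < v := lt_of_lt_of_le hu0 huv'
  have hBRU := h1 Q m M b r u v hM ⟨⌈10 * s⌉₊, rfl⟩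
    (fun q hq => ⟨(hQmem q hq).1, (Nat.Prime.coprime_iff_not_dvd (hQmem q hq).1).2
      (hQmem q hq).2.2, by simp only [hm]; split_ifs <;> simp⟩) hu0.le huv'
  -- the sum
  have hW : ∑ q ∈ Q, 1 / (m q : ℝ) ≤ s := by
    have e1 : ∑ q ∈ Q, 1 / (m q : ℝ) ≤ ∑ q ∈ pri 1 z0, 1 / (q : ℝ) := by
      calc ∑ q ∈ Q, 1 / (m q : ℝ) ≤ ∑ q ∈ Q, 1 / (q : ℝ) := by
            refine Finset.sum_le_sum fun q hq => ?_
            have h3 : (0:ℝ) < q := by exact_mod_cast (hQmem q hq).1.pos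
            exact one_div_le_one_div_of_le h3 (by exact_mod_cast hmq q)
        _ ≤ ∑ q ∈ pri 1 z0, 1 / (q : ℝ) :=
            Finset.sum_le_sum_of_subset_of_nonneg (filter_subset _ _)
              fun _ _ _ => by positivity
    have e2 := (abs_le.1 (hMER z0 hz02)).2
    have e3 : Real.log (Real.log z0) ≤ Real.log L := by
      rw [hz0, Real.log_exp]
      exact Real.log_le_log (by linarith) v4'
    linarith
  have hnum := num Q (fun q => 1 / (m q : ℝ)) s r v1 (fun q hq => by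
    have h3 : (2:ℝ) ≤ m q := by exact_mod_cast (hQmem q hq).1.two_le.trans (hmq q)
    refine ⟨by positivity, ?_⟩
    exact one_div_le_one_div_of_le (by norm_num) h3) hW hr1
  have hexp2s : Real.exp (-(2 * s)) = Real.exp (-(2 * C)) / L ^ 2 := by
    have : -(2 * s) = -(2 * C) - ((2:ℕ):ℝ) * Real.log L := by rw [hs]; push_cast; ring
    rw [this, Real.exp_sub, Real.exp_nat_mul, Real.exp_log hLpos]
  have hmain : u * (c / L ^ 2) ≤ (v - u) / M * ((∏ q ∈ Q, (1 - 1 / (m q : ℝ))) -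
      (∑ q ∈ Q, 1 / (m q : ℝ)) ^ (r + 1) / (r + 1).factorial) := by
    have e1 : u * (c / L ^ 2) = (v - u) / M * (Real.exp (-(2 * s)) / 2) := by
      rw [hexp2s, huv, hc]
      field_simp
    rw [e1]
    exact mul_le_mul_of_nonneg_left hnum (div_nonneg (by linarith) hMr.le)
  -- the error term
  have hQc : ((Q.card : ℝ) + 1) ≤ Real.exp (Z + 1) := by
    have e1 : Q.card ≤ ⌊z0⌋₊ := by
      calc Q.card ≤ (Icc 1 ⌊z0⌋₊).card :=
            card_le_card ((filter_subset _ _).trans (filter_subset _ _))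
        _ = ⌊z0⌋₊ := by simp
    have e2 : (Q.card : ℝ) ≤ z0 :=
      le_trans (by exact_mod_cast e1) (Nat.floor_le hz00.le)
    have e3 : (2:ℝ) ≤ Real.exp 1 := by have := Real.add_one_le_exp (1:ℝ); linarith
    rw [Real.exp_add, ← hz0]
    nlinarith
  have herr : 2 * ((Q.card : ℝ) + 1) ^ r ≤ Real.exp (L / 8) := by
    have e3 : (2:ℝ) ≤ Real.exp 1 := by have := Real.add_one_le_exp (1:ℝ); linarith
    calc 2 * ((Q.card : ℝ) + 1) ^ r ≤ Real.exp 1 * (Real.exp (Z + 1)) ^ r :=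
          mul_le_mul e3 (pow_le_pow_left₀ (by positivity) hQc r) (by positivity)
            (Real.exp_pos _).le
      _ = Real.exp ((r : ℝ) * (Z + 1) + 1) := by
          rw [← Real.exp_nat_mul, ← Real.exp_add]; congr 1; ring
      _ ≤ Real.exp (L / 8) := by
          refine Real.exp_le_exp.2 ?_
          have : (r : ℝ) * (Z + 1) ≤ (20 * s + 3) * (Z + 1) :=
            mul_le_mul_of_nonneg_right hr2 (by linarith)
          linarith
  have hu16 : Real.exp (L / 8) ≤ u * (16 * Real.exp (-(5 / 8 * L))) := by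
    have e1 : Real.exp (3 / 4 * L) / 16 ≤ u := by
      rw [hu, le_div_iff₀ hΛr]
      have e2 : Real.exp (3 / 4 * L) / 16 * Λ ≤ Real.exp (3 / 4 * L) / 16 * Real.exp (L / 4) :=
        mul_le_mul_of_nonneg_left (by rw [← hY14]; exact hΛY) (by positivity)
      have e3 : Real.exp (3 / 4 * L) / 16 * Real.exp (L / 4) = Y / 16 := by
        rw [div_mul_eq_mul_div, ← Real.exp_add]
        congr 1
        rw [← hYL]; congr 1; ring
      linarith
    have e4 : Real.exp (L / 8) = Real.exp (3 / 4 * L) / 16 * (16 * Real.exp (-(5 / 8 * L))) := by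
      have : Real.exp (L / 8) = Real.exp (3 / 4 * L) * Real.exp (-(5 / 8 * L)) := by
        rw [← Real.exp_add]; congr 1; ring
      rw [this]; ring
    rw [e4]
    exact mul_le_mul_of_nonneg_right e1 (by positivity)
  -- the exceptional sets
  set N := ⌊v⌋₊ with hN
  have hNv : (N : ℝ) ≤ v := Nat.floor_le hv0.le
  set G := (Icc 1 N).filter fun h : ℕ => u < (h : ℝ) ∧ (h : ℝ) < v ∧ h ≡ b [MOD M] ∧
      ∀ q ∈ Q, ¬ m q ∣ h with hG
  have hSfin : {p : ℕ | p ∈ S ∧ (p : ℝ) ≤ 16 * Y ^ 4}.Finite := by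
    refine Set.Finite.subset (Set.finite_Iic ⌊16 * Y ^ 4⌋₊) ?_
    rintro p ⟨-, hp⟩
    exact (Nat.le_floor_iff (by positivity)).2 hp
  set T3 : Finset ℕ := hSfin.toFinset.filter fun q : ℕ => z0 < (q : ℝ) with hT3
  set B1 := (Icc 1 N).filter fun h : ℕ => ∃ t ∈ Λ.primeFactors, t ∣ h with hB1
  set B2 := (Icc 1 N).filter fun h : ℕ => ∃ t ∈ Ioc ⌊z0⌋₊ N, t ^ 2 ∣ h with hB2
  set B3 := (Icc 1 N).filter fun h : ℕ => ∃ t ∈ T3, t ∣ h with hB3
  have hsub : G ⊆ HH S M ρ a Λ ∪ (B1 ∪ (B2 ∪ B3)) := by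
    intro h hh
    by_contra hcon
    simp only [mem_union, not_or] at hcon
    obtain ⟨c0, c1, c2, c3⟩ := hcon
    rw [hG, mem_filter] at hh
    obtain ⟨hI, g1, g2, g3, g4⟩ := hh
    have hI' := mem_Icc.1 hI
    refine c0 (core S M ρ Y z0 a Λ b Q m hM hρ2 hS ha haY2 (by linarith) hΛa hΛsq hb ?_ ?_ h
      hI'.1 g1 g2 g3 g4 ?_ ?_ ?_)
    · intro q hqp hqz hqM
      rw [hQ, mem_filter, pri, mem_filter, mem_Icc]
      exact ⟨⟨⟨hqp.one_lt.le, (Nat.le_floor_iff hz00.le).2 hqz⟩, hqp,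
        by exact_mod_cast hqp.one_lt⟩, hqM⟩
    · intro q
      refine ⟨fun hq => by simp only [hm, if_pos hq], ?_⟩
      simp only [hm]
      split_ifs
      · exact dvd_mul_right q q
      · rw [sq]
    · intro l hl hlΛ hlh
      exact c1 (mem_filter.2 ⟨hI, l, Nat.mem_primeFactors.2 ⟨hl, hlΛ, hΛ0.ne'⟩, hlh⟩)
    · intro q hqp hqz hqq
      refine c2 (mem_filter.2 ⟨hI, q, mem_Ioc.2 ⟨?_, ?_⟩, by rw [sq]; exact hqq⟩)
      · exact (Nat.floor_lt hz00.le).2 hqz
      · have h3 : q * q ≤ h := Nat.le_of_dvd (by omega) hqq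
        have h4 : q ≤ q * q := Nat.le_mul_self q
        omega
    · intro q hqS hqz hqY hqh
      refine c3 (mem_filter.2 ⟨hI, q, ?_, hqh⟩)
      rw [hT3, mem_filter, Set.Finite.mem_toFinset]
      exact ⟨⟨hqS, hqY⟩, hqz⟩
  have hcard : (G.card : ℝ) ≤ (HH S M ρ a Λ).card + (B1.card + (B2.card + B3.card)) := by
    have e1 := (card_le_card hsub).trans ((card_union_le _ _).trans
      (Nat.add_le_add_left ((card_union_le _ _).trans
        (Nat.add_le_add_left (card_union_le _ _) _)) _))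
    exact_mod_cast e1
  have hb1 : (B1.card : ℝ) ≤ L * (v / Real.exp w) := by
    refine (mult Λ.primeFactors (fun t => t) N v hNv).trans ?_
    calc ∑ t ∈ Λ.primeFactors, v / (t : ℝ) ≤ ∑ t ∈ Λ.primeFactors, v / Real.exp w := by
          refine Finset.sum_le_sum fun t ht => ?_
          have h3 := Nat.mem_primeFactors.1 ht
          exact div_le_div_of_nonneg_left hv0.le (Real.exp_pos _) (hΛp t h3.1 h3.2.1).1.le
      _ = Λ.primeFactors.card * (v / Real.exp w) := by rw [sum_const, nsmul_eq_mul]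
      _ ≤ L * (v / Real.exp w) :=
          mul_le_mul_of_nonneg_right (omega_le Λ L hLpos.le hΛsq hΛlog) (by positivity)
  have hz1 : 1 ≤ ⌊z0⌋₊ := (Nat.one_le_floor_iff _).2 (by linarith)
  have hb2 : (B2.card : ℝ) ≤ 2 * (v / z0) := by
    refine (mult (Ioc ⌊z0⌋₊ N) (fun t => t ^ 2) N v hNv).trans ?_
    rcases le_or_gt ⌊z0⌋₊ N with h3 | h3
    · have h4 := sum_Ioc_inv_sq_le_sub (α := ℝ) (k := ⌊z0⌋₊) (n := N) (by omega) h3
      have h5 : ∑ t ∈ Ioc ⌊z0⌋₊ N, v / (((t ^ 2 : ℕ)) : ℝ)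
          = v * ∑ t ∈ Ioc ⌊z0⌋₊ N, ((t : ℝ) ^ 2)⁻¹ := by
        rw [Finset.mul_sum]
        refine Finset.sum_congr rfl fun t _ => ?_
        push_cast
        rw [div_eq_mul_inv]
      rw [h5]
      have h6 : ((⌊z0⌋₊ : ℕ) : ℝ)⁻¹ ≤ 2 / z0 := by
        have h7 : z0 / 2 ≤ (⌊z0⌋₊ : ℝ) := by
          have := Nat.lt_floor_add_one z0
          have h8 : (1:ℝ) ≤ (⌊z0⌋₊ : ℝ) := by exact_mod_cast hz1
          linarith
        calc ((⌊z0⌋₊ : ℕ) : ℝ)⁻¹ ≤ (z0 / 2)⁻¹ := inv_anti₀ (by positivity) h7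
          _ = 2 / z0 := by rw [inv_div]
      have h9 : (0:ℝ) ≤ ((N : ℕ) : ℝ)⁻¹ := by positivity
      calc v * ∑ t ∈ Ioc ⌊z0⌋₊ N, ((t : ℝ) ^ 2)⁻¹ ≤ v * (2 / z0) :=
            mul_le_mul_of_nonneg_left (by linarith) hv0.le
        _ = 2 * (v / z0) := by ring
    · rw [Ioc_eq_empty (by omega)]
      simp only [sum_empty]
      positivity
  have hb3 : (B3.card : ℝ) ≤ Real.exp (L / (Real.log L) ^ η) * (v / z0) := by
    refine (mult T3 (fun t => t) N v hNv).trans ?_
    have h3 : (T3.card : ℝ) ≤ Real.exp (L / (Real.log L) ^ η) := by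
      refine le_trans ?_ hNS
      unfold NS
      rw [Set.ncard_eq_toFinset_card _ hSfin]
      exact_mod_cast card_le_card (filter_subset _ _)
    calc ∑ t ∈ T3, v / (t : ℝ) ≤ ∑ t ∈ T3, v / z0 := by
          refine Finset.sum_le_sum fun t ht => ?_
          rw [hT3, mem_filter] at ht
          exact div_le_div_of_nonneg_left hv0.le hz00 ht.2.le
      _ = T3.card * (v / z0) := by rw [sum_const, nsmul_eq_mul]
      _ ≤ Real.exp (L / (Real.log L) ^ η) * (v / z0) :=
          mul_le_mul_of_nonneg_right h3 (by positivity)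
  have hvz : v / z0 ≤ 2 * u * Real.exp (-(Z)) := by
    rw [Real.exp_neg, ← hz0, div_eq_mul_inv]
    exact mul_le_mul_of_nonneg_right hv2 (by positivity)
  have hvw : v / Real.exp w ≤ 2 * u * Real.exp (-w) := by
    rw [Real.exp_neg, div_eq_mul_inv]
    exact mul_le_mul_of_nonneg_right hv2 (by positivity)
  have hbad : (B1.card : ℝ) + (B2.card + B3.card) ≤
      u * (2 * (L * Real.exp (-w) + (2 + Real.exp (L / (Real.log L) ^ η)) * Real.exp (-Z))) := by
    have e1 : (B1.card : ℝ) + (B2.card + B3.card) ≤ L * (v / Real.exp w) +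
        (2 + Real.exp (L / (Real.log L) ^ η)) * (v / z0) := by
      linarith
    have e2 : (2 + Real.exp (L / (Real.log L) ^ η)) * (v / z0) ≤
        (2 + Real.exp (L / (Real.log L) ^ η)) * (2 * u * Real.exp (-Z)) :=
      mul_le_mul_of_nonneg_left hvz (by positivity)
    have e3 : L * (v / Real.exp w) ≤ L * (2 * u * Real.exp (-w)) :=
      mul_le_mul_of_nonneg_left hvw hLpos.le
    linarith
  have hfin := mul_le_mul_of_nonneg_left v6 hu0.le
  have hBRU' : u * (c / L ^ 2) - Real.exp (L / 8) ≤ G.card := by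
    refine le_trans ?_ hBRU
    linarith
  have : u * (c / L ^ 2 - 2 * (L * Real.exp (-w)
        + (2 + Real.exp (L / (Real.log L) ^ η)) * Real.exp (-Z))
        - 16 * Real.exp (-(5 / 8 * L))) = u * (c / L ^ 2)
        - u * (2 * (L * Real.exp (-w) + (2 + Real.exp (L / (Real.log L) ^ η)) * Real.exp (-Z)))
        - u * (16 * Real.exp (-(5 / 8 * L))) := by ring
  rw [this] at hfin
  have hgoal : (a : ℝ) / Λ / L ^ 3 = u * (1 / L ^ 3) := by rw [hu]; ring
  rw [hgoal]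
  linarith

end SSD
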