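import Pool.Agent.SSD.Targets
import Pool.Agent.SSC.KIL

/-!
# MP_d74fca_nt, SSD-KI3: refined counting of numbers killed by `p`
-/

set_option autoImplicit false

open scoped BigOperators Classical
open Finset

namespace SSD

open SSC

namespace KI3_

/-- `n` is a value of the form `f` -/
def VF (f : ℤ × ℤ × ℤ × ℤ) (n : ℤ) : Prop := SSN.Val f.1 f.2.1 f.2.2.1 n

/-- splitting along a finite set of primes -/
lemma cover (h1 : SSC.T_SPL) {p : ℕ} (hp : p.Prime) (s : Finset ℕ) :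
    (∀ l ∈ s, l.Prime ∧ l ≠ 2 ∧ l ≠ p) → ∀ A B C w : ℤ, Pf p A B C w →
    ∃ L : Finset (ℤ × ℤ × ℤ × ℤ), L.card ≤ 2 ^ s.card ∧
      (∀ f ∈ L, Pf p f.1 f.2.1 f.2.2.1 f.2.2.2) ∧
      ∀ h : ℕ, Squarefree ((∏ l ∈ s, l) * h) →
        SSN.Val A B C (((∏ l ∈ s, l) * h : ℕ) : ℤ) → ∃ f ∈ L, VF f (h : ℤ) := by
  induction s using Finset.induction_on with
  | empty =>
    intro _ A B C w hPf
    refine ⟨{(A, B, C, w)}, by simp, ?_, ?_⟩
    · intro f hf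
      rw [mem_singleton] at hf
      subst hf
      exact hPf
    · intro h _ hv
      refine ⟨(A, B, C, w), mem_singleton_self _, ?_⟩
      rw [prod_empty, one_mul] at hv
      exact hv
  | insert l s hls ih =>
    intro hs A B C w hPf
    obtain ⟨hl, hl2, hlp⟩ := hs l (mem_insert_self _ _)
    have hs' : ∀ l ∈ s, l.Prime ∧ l ≠ 2 ∧ l ≠ p := fun l hl => hs l (mem_insert_of_mem hl)
    obtain ⟨A₁, B₁, C₁, w₁, A₂, B₂, C₂, w₂, f1, f2, hsp⟩ := h1 p l A B C w hp hl hl2 hlp hPf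
    obtain ⟨L1, c1, q1, r1⟩ := ih hs' A₁ B₁ C₁ w₁ f1
    obtain ⟨L2, c2, q2, r2⟩ := ih hs' A₂ B₂ C₂ w₂ f2
    refine ⟨L1 ∪ L2, ?_, ?_, ?_⟩
    · calc (L1 ∪ L2).card ≤ L1.card + L2.card := card_union_le _ _
        _ ≤ 2 ^ s.card + 2 ^ s.card := Nat.add_le_add c1 c2
        _ = 2 ^ (insert l s).card := by rw [card_insert_of_notMem hls, pow_succ]; ring
    · intro f hf
      rcases mem_union.1 hf with hf | hf
      · exact q1 f hf
      · exact q2 f hf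
    · intro h hsq hv
      have e : (∏ l ∈ insert l s, l) * h = l * ((∏ l ∈ s, l) * h) := by
        rw [prod_insert hls, mul_assoc]
      rw [e] at hsq hv
      have hnd : ¬ l ∣ (∏ l ∈ s, l) * h := by
        rintro ⟨m, hm⟩
        rw [hm] at hsq
        have h6 := Nat.isUnit_iff.1 (hsq l ⟨m, by ring⟩)
        exact hl.one_lt.ne' h6
      have hndZ : ¬ (l : ℤ) ∣ (((∏ l ∈ s, l) * h : ℕ) : ℤ) := by
        intro h0
        exact hnd (by exact_mod_cast h0)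
      have hv' : SSN.Val A B C ((l : ℤ) * (((∏ l ∈ s, l) * h : ℕ) : ℤ)) := by
        have : (((l * ((∏ l ∈ s, l) * h) : ℕ)) : ℤ) = (l : ℤ) * (((∏ l ∈ s, l) * h : ℕ) : ℤ) := by
          push_cast
          ring
        rwa [this] at hv
      have hsq' : Squarefree ((∏ l ∈ s, l) * h) := hsq.of_mul_right
      rcases hsp _ hndZ hv' with h3 | h3
      · obtain ⟨f, hf, hf2⟩ := r1 h hsq' h3
        exact ⟨f, mem_union_left _ hf, hf2⟩
      · obtain ⟨f, hf, hf2⟩ := r2 h hsq' h3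
        exact ⟨f, mem_union_right _ hf, hf2⟩

/-- the number of squarefree values of one form -/
lemma one_form (h2 : SSN.T_RED) {p : ℕ} (hp : p.Prime) {a b c w : ℤ} (hPf : Pf p a b c w)
    {H : ℝ} (hH : 0 ≤ H) (G : Finset ℕ)
    (hG : ∀ h ∈ G, Squarefree h ∧ (h : ℝ) ≤ H ∧ SSN.Val a b c (h : ℤ)) :
    (G.card : ℝ) ≤ 1 + 7 * H / Real.sqrt p := by
  obtain ⟨ha, hΔ0, hpΔ⟩ := hPf
  have hp0 : (0 : ℝ) < p := by exact_mod_cast hp.pos
  obtain ⟨a', b', c', Δ, hred, hΔ, hiff⟩ := h2 a b c ha hΔ0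
  have hw0 : w ≠ 0 := by
    intro h0
    rw [hpΔ, h0] at hΔ0
    simp at hΔ0
  have hpleΔ : (p : ℝ) ≤ Δ := by
    have h3 : (p : ℤ) ≤ Δ := by
      rw [hΔ, hpΔ]
      have h4 : 0 < w ^ 2 := by positivity
      have h5 : (0 : ℤ) ≤ p := Int.natCast_nonneg p
      nlinarith
    exact_mod_cast h3
  obtain ⟨hf, ht1⟩ := SSC.KIL_.triv a' b' c' Δ hred H hH
  have hsub : (G : Set ℕ) ⊆ {ℓ : ℕ | Squarefree ℓ ∧ (ℓ : ℝ) ≤ H ∧ SSN.Val a' b' c' ℓ} := by
    intro h hh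
    obtain ⟨k1, k2, k3⟩ := hG h hh
    exact ⟨k1, k2, (hiff _).1 k3⟩
  have h3 : (G.card : ℝ) ≤ 1 + 7 * H / Real.sqrt Δ := by
    refine le_trans ?_ ht1
    rw [← Set.ncard_coe_finset G]
    exact_mod_cast Set.ncard_le_ncard hsub hf
  have h4 : 7 * H / Real.sqrt Δ ≤ 7 * H / Real.sqrt p :=
    div_le_div_of_nonneg_left (by positivity) (Real.sqrt_pos.2 hp0) (Real.sqrt_le_sqrt hpleΔ)
  linarith

end KI3_

open KI3_ in
theorem p_KI3 (h1 : SSC.T_SPL) (h2 : SSN.T_RED) : T_KI3 := by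
  intro p F hp hp2 hF hBin T hT hNS N H hN hNl hH G hG
  set Gs : Set ℕ := {D : ℕ | D ∈ F ∧ (D : ℝ) ≤ T} with hGs
  have hfin : Gs.Finite := by
    refine (Set.finite_Iic ⌊T⌋₊).subset fun D hD => ?_
    exact Nat.le_floor hD.2
  have hNS' : NS F T = ((Gs.ncard : ℕ) : ℝ) := rfl
  have hN1 : 2 ≤ Gs.ncard := by
    rw [hNS'] at hNS
    exact_mod_cast hNS
  have hmem : ∀ D, D ∈ hfin.toFinset ↔ D ∈ F ∧ (D : ℝ) ≤ T := fun D => by
    rw [Set.Finite.mem_toFinset, hGs, Set.mem_ofPred_eq]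
  have hGcard : hfin.toFinset.card = Gs.ncard := (Set.ncard_eq_toFinset_card _ hfin).symm
  obtain ⟨a, b, c, w, ha, hΔ0, hpΔ, hval⟩ := hBin hfin.toFinset (by rw [hGcard]; exact hN1)
    (fun D hD => ((hmem D).1 hD).1)
  have hPf : Pf p a b c w := ⟨ha, hΔ0, hpΔ⟩
  have hprod : ∏ l ∈ N.primeFactors, l = N := Nat.prod_primeFactors_of_squarefree hN
  obtain ⟨L, hLc, hLP, hLv⟩ := cover h1 hp N.primeFactors (fun l hl =>
    ⟨Nat.prime_of_mem_primeFactors hl, hNl l (Nat.prime_of_mem_primeFactors hl)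
      (Nat.dvd_of_mem_primeFactors hl)⟩) a b c w hPf
  rw [hprod] at hLv
  have hGcov : G ⊆ L.biUnion fun f => G.filter fun h : ℕ => VF f (h : ℤ) := by
    intro h hh
    obtain ⟨k1, k2, k3⟩ := hG h hh
    obtain ⟨f, hf, hf2⟩ := hLv h (hF _ k1).2 (hval _ ((hmem _).2 ⟨k1, k2⟩))
    exact mem_biUnion.2 ⟨f, hf, mem_filter.2 ⟨hh, hf2⟩⟩
  have hsqf : ∀ h ∈ G, Squarefree h := fun h hh => ((hF _ (hG h hh).1).2).of_mul_right
  have hpos : 0 ≤ 1 + 7 * H / Real.sqrt p := by positivity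
  calc (G.card : ℝ) ≤ ((L.biUnion fun f => G.filter fun h : ℕ => VF f (h : ℤ)).card : ℝ) := by
        exact_mod_cast card_le_card hGcov
    _ ≤ ∑ f ∈ L, ((G.filter fun h : ℕ => VF f (h : ℤ)).card : ℝ) := by
        exact_mod_cast card_biUnion_le
    _ ≤ ∑ f ∈ L, (1 + 7 * H / Real.sqrt p) := by
        refine sum_le_sum fun f hf => ?_
        refine one_form h2 hp (hLP f hf) hH _ fun h hh => ?_
        obtain ⟨k1, k2⟩ := mem_filter.1 hh
        exact ⟨hsqf h k1, (hG h k1).2.2, k2⟩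
    _ = L.card * (1 + 7 * H / Real.sqrt p) := by rw [sum_const, nsmul_eq_mul]
    _ ≤ 2 ^ N.primeFactors.card * (1 + 7 * H / Real.sqrt p) := by
        refine mul_le_mul_of_nonneg_right ?_ hpos
        exact_mod_cast hLc

end SSD
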