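import Pool.Agent.SSD.Targets
import Pool.Agent.SSN.CHR

/-!
# KRN: `n ↦ (k/n)` is a real nonprincipal character modulo `4 |k|` for nonsquare `k`
-/

set_option autoImplicit false

open scoped BigOperators Classical
open Finset

namespace SSD

open SSC

namespace KRN_

lemma kr_odd {k : ℤ} {n : ℕ} (h : Odd n) : kr k n = jacobiSym k n := by
  unfold kr
  rw [if_neg (Nat.not_even_iff_odd.2 h)]

lemma kr_mod {k : ℤ} (n : ℕ) : kr k (n % (4 * k.natAbs)) = kr k n := by
  have he : Even (n % (4 * k.natAbs)) ↔ Even n := by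
    have h1 := Nat.div_add_mod n (4 * k.natAbs)
    conv_rhs => rw [← h1]
    rw [Nat.even_add]
    have : Even (4 * k.natAbs * (n / (4 * k.natAbs))) := by
      rw [mul_assoc]
      exact (by decide : Even 4).mul_right _
    tauto
  unfold kr
  by_cases h : Even n
  · rw [if_pos h, if_pos (he.2 h)]
  · rw [if_neg h, if_neg (fun h' => h (he.1 h'))]
    rw [jacobiSym.mod_right k (Nat.not_even_iff_odd.1 h)]

lemma kr_mul (k : ℤ) (m n : ℕ) : kr k (m * n) = kr k m * kr k n := by
  unfold kr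
  by_cases hm : Even m
  · rw [if_pos hm, if_pos (hm.mul_right n), zero_mul]
  by_cases hn : Even n
  · rw [if_pos hn, if_pos (hn.mul_left m), mul_zero]
  rw [if_neg hm, if_neg hn, if_neg (fun h => by
    rcases Nat.even_mul.1 h with h | h
    · exact hm h
    · exact hn h)]
  have hm0 : m ≠ 0 := by rintro rfl; exact hm (by decide)
  have hn0 : n ≠ 0 := by rintro rfl; exact hn (by decide)
  exact jacobiSym.mul_right' _ hm0 hn0

lemma kr_one (k : ℤ) : kr k 1 = 1 := by
  unfold kr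
  rw [if_neg (by decide), jacobiSym.one_right]

lemma kr_zero {k : ℤ} {n : ℕ} (h : ¬ n.Coprime (4 * k.natAbs)) : kr k n = 0 := by
  unfold kr
  by_cases hn : Even n
  · rw [if_pos hn]
  · rw [if_neg hn]
    have hn0 : n ≠ 0 := by rintro rfl; exact hn (by decide)
    have : NeZero n := ⟨hn0⟩
    rw [jacobiSym.eq_zero_iff_not_coprime]
    intro h'
    apply h
    have h1 : n.Coprime k.natAbs := by
      have h3 : Nat.gcd k.natAbs n = 1 := by
        rw [Int.gcd_def] at h'
        simpa using h'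
      exact Nat.Coprime.symm h3
    have h2 : n.Coprime 4 := by
      have : n.Coprime 2 := (Nat.coprime_two_right).2 (Nat.not_even_iff_odd.1 hn)
      exact Nat.Coprime.pow_right 2 this
    exact Nat.Coprime.mul_right h2 h1

/-- the symbol at a number which is coprime to the square part -/
lemma jac_sq {a b n : ℕ} (h : Nat.Coprime b n) :
    jacobiSym ((b ^ 2 * a : ℕ) : ℤ) n = jacobiSym a n := by
  have h1 : ((b ^ 2 * a : ℕ) : ℤ) = (b : ℤ) ^ 2 * (a : ℤ) := by push_cast; ring
  rw [h1, jacobiSym.mul_left, jacobiSym.pow_left, jacobiSym.sq_one, one_mul]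
  rw [Int.gcd_natCast_natCast]
  exact h

/-- coprime to `b` if prime to `r` and `1` modulo the part of `b` prime to `r` -/
lemma cop_of {b n r : ℕ} (_hr : r.Prime) (h1 : Nat.Coprime r n)
    (h2 : n ≡ 1 [MOD (ordCompl[r] b)]) : Nat.Coprime b n := by
  rw [← Nat.ordProj_mul_ordCompl_eq_self b r]
  refine Nat.Coprime.mul_left (Nat.Coprime.pow_left _ h1) ?_
  have h3 : Nat.gcd n (ordCompl[r] b) = Nat.gcd 1 (ordCompl[r] b) := h2.gcd_eq
  rw [Nat.gcd_one_left] at h3
  exact Nat.Coprime.symm h3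

/-- two -/
lemma exists_two (b : ℕ) (hb : b ≠ 0) : ∃ n : ℕ, Odd n ∧ jacobiSym ((b ^ 2 * 2 : ℕ) : ℤ) n = -1 := by
  have hco : Nat.Coprime 8 (ordCompl[2] b) := by
    have : Nat.Coprime 2 (ordCompl[2] b) := Nat.coprime_ordCompl Nat.prime_two hb
    have h8 : (8 : ℕ) = 2 ^ 3 := by norm_num
    rw [h8]
    exact Nat.Coprime.pow_left _ this
  obtain ⟨n, hn1, hn2⟩ := Nat.chineseRemainder hco 5 1
  have h8 : n % 8 = 5 := hn1
  have hodd : Odd n := Nat.odd_iff.2 (by omega)
  refine ⟨n, hodd, ?_⟩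
  rw [jac_sq (cop_of Nat.prime_two ((Nat.coprime_two_left).2 hodd) hn2)]
  have : jacobiSym 2 n = -1 := by
    rw [jacobiSym.at_two hodd, ZMod.χ₈_nat_eq_if_mod_eight]
    rw [if_neg (by omega), if_neg (by omega)]
  exact_mod_cast this

/-- an odd prime factor -/
lemma exists_odd {a b r : ℕ} (hb : b ≠ 0) (ha : Squarefree a) (hr : r.Prime) (hr2 : r ≠ 2)
    (hra : r ∣ a) : ∃ n : ℕ, Odd n ∧ jacobiSym ((b ^ 2 * a : ℕ) : ℤ) n = -1 := by
  obtain ⟨c, rfl⟩ := hra
  have hrc : Nat.Coprime r c := (Nat.squarefree_mul_iff.1 ha).1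
  have hc0 : c ≠ 0 := by
    rintro rfl
    simp at ha
  have hrb : Nat.Coprime r (ordCompl[r] b) := Nat.coprime_ordCompl hr hb
  have hr8 : Nat.Coprime r 8 := by
    have h8 : (8 : ℕ) = 2 ^ 3 := by norm_num
    rw [h8]
    exact Nat.Coprime.pow_right _ ((Nat.coprime_primes hr Nat.prime_two).2 hr2)
  have hco : Nat.Coprime r (8 * c * (ordCompl[r] b)) :=
    Nat.Coprime.mul_right (Nat.Coprime.mul_right hr8 hrc) hrb
  have : Fact r.Prime := ⟨hr⟩
  obtain ⟨u, hu⟩ := FiniteField.exists_nonsquare (F := ZMod r) (by rw [ZMod.ringChar_zmod_n]; exact hr2)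
  have hu0 : u ≠ 0 := by
    rintro rfl
    exact hu (IsSquare.zero)
  obtain ⟨n, hn1, hn2⟩ := Nat.chineseRemainder hco u.val 1
  have hn8 : n ≡ 1 [MOD 8] := hn2.of_dvd (Dvd.intro (c * (ordCompl[r] b)) (by ring))
  have hnc : n ≡ 1 [MOD (4 * c)] := hn2.of_dvd (Dvd.intro (2 * (ordCompl[r] b)) (by ring))
  have hnb : n ≡ 1 [MOD (ordCompl[r] b)] := hn2.of_dvd (Dvd.intro_left (8 * c) rfl)
  have h8 : n % 8 = 1 := hn8
  have h4 : n % 4 = 1 := by omega
  have hodd : Odd n := Nat.odd_iff.2 (by omega)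
  have hnu : ((n : ℕ) : ZMod r) = u := by
    have := (ZMod.natCast_eq_natCast_iff n u.val r).2 hn1
    rw [this, ZMod.natCast_zmod_val]
  have hrn : Nat.Coprime r n := by
    rw [hr.coprime_iff_not_dvd]
    intro h
    apply hu0
    rw [← hnu]
    exact (ZMod.natCast_eq_zero_iff n r).2 h
  refine ⟨n, hodd, ?_⟩
  rw [jac_sq (cop_of hr hrn hnb)]
  have h1 : ((r * c : ℕ) : ℤ) = (r : ℤ) * (c : ℤ) := by push_cast; ring
  rw [h1, jacobiSym.mul_left]
  have hc : jacobiSym (c : ℤ) n = 1 := by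
    rw [jacobiSym.mod_right (c : ℤ) hodd, Int.natAbs_natCast]
    have h5 : n % (4 * c) = 1 % (4 * c) := hnc
    rw [h5, Nat.mod_eq_of_lt (by omega), jacobiSym.one_right]
  have hr' : jacobiSym (r : ℤ) n = -1 := by
    rw [← jacobiSym.quadratic_reciprocity_one_mod_four h4 (hr.odd_of_ne_two hr2),
      ← jacobiSym.legendreSym.to_jacobiSym, legendreSym.eq_neg_one_iff]
    rw [Int.cast_natCast, hnu]
    exact hu
  rw [hc, hr', mul_one]

lemma exists_neg {k : ℤ} (hk : ¬ IsSquare k) : ∃ n : ℕ, kr k n = -1 := by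
  have hk0 : k ≠ 0 := by
    rintro rfl
    exact hk IsSquare.zero
  rcases lt_or_gt_of_ne hk0 with h | h
  · refine ⟨4 * k.natAbs - 1, ?_⟩
    have hpos : 0 < k.natAbs := Int.natAbs_pos.2 hk0
    have h1 := SSN.CHR_.ch_neg hpos
    have h2 : (-(k.natAbs : ℤ)) = k := by omega
    unfold SSN.ch at h1
    rw [h2] at h1
    exact h1
  · obtain ⟨K, rfl⟩ : ∃ K : ℕ, k = (K : ℤ) := ⟨k.toNat, by omega⟩
    have hK : ¬ IsSquare K := by
      rintro ⟨m, hm⟩
      exact hk ⟨(m : ℤ), by rw [hm]; push_cast; ring⟩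
    obtain ⟨a, b, hab, hsq⟩ := Nat.sq_mul_squarefree K
    have hb0 : b ≠ 0 := by
      rintro rfl
      simp at hab
      omega
    have hn : ∃ n : ℕ, Odd n ∧ jacobiSym ((b ^ 2 * a : ℕ) : ℤ) n = -1 := by
      by_cases hp : ∃ r : ℕ, r.Prime ∧ r ≠ 2 ∧ r ∣ a
      · obtain ⟨r, h1, h2, h3⟩ := hp
        exact exists_odd hb0 hsq h1 h2 h3
      · push Not at hp
        have ha1 : a ≠ 1 := by
          rintro rfl
          apply hK
          exact ⟨b, by rw [← hab]; ring⟩
        obtain ⟨p, hp1, hp2⟩ := Nat.exists_prime_and_dvd ha1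
        have hp3 : p = 2 := by
          by_contra h3
          exact hp p hp1 h3 hp2
        subst hp3
        obtain ⟨c, rfl⟩ := hp2
        have hc : c = 1 := by
          by_contra hc
          obtain ⟨q, hq1, hq2⟩ := Nat.exists_prime_and_dvd hc
          have hq3 : q = 2 := by
            by_contra h3
            exact hp q hq1 h3 (hq2.mul_left 2)
          subst hq3
          have h5 : Nat.Coprime 2 c := (Nat.squarefree_mul_iff.1 hsq).1
          have h6 : (2 : ℕ) ∣ Nat.gcd 2 c := Nat.dvd_gcd dvd_rfl hq2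
          rw [h5] at h6
          omega
        subst hc
        rw [mul_one]
        exact exists_two b hb0
    obtain ⟨n, hn1, hn2⟩ := hn
    refine ⟨n, ?_⟩
    rw [kr_odd hn1, ← hab]
    exact hn2

end KRN_

open KRN_ in
theorem p_KRN : T_KRN := by
  intro k hk
  have hk0 : k ≠ 0 := by
    rintro rfl
    exact hk IsSquare.zero
  have hpos : 0 < k.natAbs := Int.natAbs_pos.2 hk0
  have : NeZero (4 * k.natAbs) := ⟨by omega⟩
  refine ⟨by omega, ?_, ?_⟩
  · intro n
    unfold kr
    by_cases hn : Even n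
    · rw [if_pos hn]
      left
      rfl
    · rw [if_neg hn]
      exact jacobiSym.trichotomy k n
  let χ : DirichletCharacter ℂ (4 * k.natAbs) :=
    { toFun := fun a => ((kr k a.val : ℤ) : ℂ)
      map_one' := by
        have h1 : (1 : ZMod (4 * k.natAbs)).val = 1 % (4 * k.natAbs) := by
          have := ZMod.val_natCast (4 * k.natAbs) 1
          rwa [Nat.cast_one] at this
        rw [h1, kr_mod, kr_one, Int.cast_one]
      map_mul' := by
        intro a b
        rw [ZMod.val_mul, kr_mod, kr_mul, Int.cast_mul]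
      map_nonunit' := by
        intro a ha
        have h1 : ¬ a.val.Coprime (4 * k.natAbs) := by
          intro h
          apply ha
          have := (ZMod.isUnit_iff_coprime a.val (4 * k.natAbs)).2 h
          rwa [ZMod.natCast_zmod_val] at this
        show ((kr k a.val : ℤ) : ℂ) = 0
        rw [kr_zero h1, Int.cast_zero] }
  have hχ : ∀ n : ℕ, χ (n : ZMod (4 * k.natAbs)) = ((kr k n : ℤ) : ℂ) := by
    intro n
    show ((kr k (n : ZMod (4 * k.natAbs)).val : ℤ) : ℂ) = _
    rw [ZMod.val_natCast, kr_mod]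
  refine ⟨χ, ?_, hχ⟩
  intro h1
  obtain ⟨n, hn⟩ := exists_neg hk
  have h2 := hχ n
  rw [h1, hn] at h2
  by_cases hu : IsUnit ((n : ℕ) : ZMod (4 * k.natAbs))
  · rw [MulChar.one_apply hu] at h2
    norm_num at h2
  · rw [MulChar.map_nonunit _ hu] at h2
    norm_num at h2

end SSD
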