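import Pool.Agent.SSD.Targets
import Pool.Agent.SSN.RRM

/-!
# LV: large values of `∑ ch p l / l`
-/

set_option autoImplicit false

open scoped BigOperators Classical
open Finset

namespace SSD

open SSC

namespace LV_

theorem ch_prod (Δ : ℕ) {m : ℕ} (g : Fin m → ℕ) :
    SSN.ch Δ (∏ i, g i) = ∏ i, SSN.ch Δ (g i) := by
  let φ : ℕ →* ℤ := ⟨⟨SSN.ch Δ, SSN.RRM_.ch_one Δ⟩, SSN.RRM_.ch_mul Δ⟩
  exact map_prod φ g univ

theorem kr_mul (p p' n : ℕ) : kr ((p : ℤ) * p') n = SSN.ch p n * SSN.ch p' n := by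
  unfold kr SSN.ch
  by_cases hn : Even n
  · simp [hn]
  · rw [if_neg hn, if_neg hn, if_neg hn, ← jacobiSym.mul_left]
    congr 1
    ring

theorem harm {a b : ℕ} (ha : 0 < a) (hab : a ≤ b) :
    ∑ n ∈ Ioc a b, 1 / (n : ℝ) ≤ Real.log (b / a) := by
  induction b, hab using Nat.le_induction with
  | base =>
    rw [Ioc_self, sum_empty, div_self (by exact_mod_cast ha.ne'), Real.log_one]
  | succ b hb ih =>
    rw [Finset.sum_Ioc_succ_top hb]
    have ha' : (0 : ℝ) < a := by exact_mod_cast ha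
    have hb' : (0 : ℝ) < b := by exact_mod_cast lt_of_lt_of_le ha hb
    have h1 : ((b + 1 : ℕ) : ℝ) / a = b / a * ((b + 1) / b) := by
      push_cast
      field_simp
    rw [h1, Real.log_mul (by positivity) (by positivity)]
    have h2 := Real.one_sub_inv_le_log_of_pos (show 0 < ((b : ℝ) + 1) / b by positivity)
    have h3 : 1 - (((b : ℝ) + 1) / b)⁻¹ = 1 / ((b + 1 : ℕ) : ℝ) := by
      push_cast
      field_simp
      ring
    rw [h3] at h2
    linarith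

theorem nsq {p p' : ℕ} (hp : p.Prime) (hp' : p'.Prime) (hne : p ≠ p') :
    ¬ IsSquare ((p : ℤ) * p') := by
  intro h
  have h' : IsSquare (((p * p' : ℕ) : ℕ) : ℤ) := by
    push_cast
    exact h
  rw [Int.isSquare_natCast_iff] at h'
  obtain ⟨r, hr⟩ := h'
  have h1 : p ∣ r := by
    have : p ∣ r * r := ⟨p', hr.symm⟩
    exact (hp.dvd_mul.1 this).elim id id
  obtain ⟨s, rfl⟩ := h1
  have h2 : p' = p * (s * s) := by
    have : p * p' = p * (p * (s * s)) := by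
      rw [hr]
      ring
    exact Nat.eq_of_mul_eq_mul_left hp.pos this
  have h3 : p ∣ p' := ⟨s * s, h2⟩
  exact hne ((Nat.prime_dvd_prime_iff_eq hp hp').1 h3)

theorem off (hK : T_KRN) (hL : SSN.T_LBD) {p p' : ℕ} (hp : p.Prime) (hp' : p'.Prime)
    (hne : p ≠ p') {a b : ℕ} (ha : 0 < a) (hab : a ≤ b) :
    |∑ n ∈ Ioc a b, (SSN.ch p n : ℝ) * SSN.ch p' n / n| ≤ 16 * (p * p') / a := by
  obtain ⟨hq, -, χ, hχ, hval⟩ := hK _ (nsq hp hp' hne)
  have : NeZero (4 * ((p : ℤ) * p').natAbs) := ⟨hq.ne'⟩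
  have hqe : ((4 * ((p : ℤ) * p').natAbs : ℕ) : ℝ) = 4 * (p * p') := by
    rw [Int.natAbs_mul, Int.natAbs_natCast, Int.natAbs_natCast]
    push_cast
    ring
  have hb : 0 < b := lt_of_lt_of_le ha hab
  have ha' : (0 : ℝ) < a := by exact_mod_cast ha
  have hb' : (0 : ℝ) < b := by exact_mod_cast hb
  have h1 := (hL _ χ hχ).2 a ha
  have h2 := (hL _ χ hχ).2 b hb
  have hsplit : ∑ n ∈ Icc 1 b, χ (n : ZMod _) / (n : ℂ) =
      (∑ n ∈ Icc 1 a, χ (n : ZMod _) / (n : ℂ)) + ∑ n ∈ Ioc a b, χ (n : ZMod _) / (n : ℂ) := by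
    rw [← Finset.sum_union]
    · apply Finset.sum_congr _ fun _ _ => rfl
      ext n
      simp only [mem_Icc, mem_union, mem_Ioc]
      omega
    · rw [Finset.disjoint_left]
      intro n hn hn'
      simp only [mem_Icc, mem_Ioc] at hn hn'
      omega
  have hreal : ∑ n ∈ Ioc a b, χ (n : ZMod _) / (n : ℂ) =
      ((∑ n ∈ Ioc a b, (SSN.ch p n : ℝ) * SSN.ch p' n / n : ℝ) : ℂ) := by
    push_cast
    refine Finset.sum_congr rfl fun n _ => ?_
    rw [hval n, kr_mul]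
    push_cast
    rfl
  have h3 : ((∑ n ∈ Ioc a b, (SSN.ch p n : ℝ) * SSN.ch p' n / n : ℝ) : ℂ) =
      ((∑ n ∈ Icc 1 b, χ (n : ZMod _) / (n : ℂ)) - χ.LFunction 1) -
      ((∑ n ∈ Icc 1 a, χ (n : ZMod _) / (n : ℂ)) - χ.LFunction 1) := by
    rw [hsplit, hreal]
    ring
  rw [← Real.norm_eq_abs, ← Complex.norm_real, h3]
  refine (norm_sub_le _ _).trans ((add_le_add h2 h1).trans ?_)
  rw [hqe]
  have h4 : 2 * (4 * ((p : ℝ) * p')) / b ≤ 2 * (4 * ((p : ℝ) * p')) / a := by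
    apply div_le_div_of_nonneg_left (by positivity) ha'
    exact_mod_cast hab
  calc 2 * (4 * ((p : ℝ) * p')) / b + 2 * (4 * ((p : ℝ) * p')) / a
      ≤ 2 * (4 * ((p : ℝ) * p')) / a + 2 * (4 * ((p : ℝ) * p')) / a := by linarith
    _ = 16 * (p * p') / a := by ring

theorem expand (Λ : Finset ℕ) (m Δ : ℕ) : (∑ l ∈ Λ, (SSN.ch Δ l : ℝ) / l) ^ m =
    ∑ g ∈ Fintype.piFinset fun _ : Fin m => Λ, (SSN.ch Δ (∏ i, g i) : ℝ) / ((∏ i, g i : ℕ) : ℝ) := by
  have h1 := Finset.prod_univ_sum (ι := Fin m) (fun _ => Λ) (fun _ l => (SSN.ch Δ l : ℝ) / l)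
  rw [Finset.prod_const, Finset.card_univ, Fintype.card_fin] at h1
  rw [h1]
  refine Finset.sum_congr rfl fun g _ => ?_
  rw [ch_prod, Finset.prod_div_distrib]
  push_cast
  rfl

theorem expand1 (Λ : Finset ℕ) (m : ℕ) : (∑ l ∈ Λ, 1 / (l : ℝ)) ^ m =
    ∑ g ∈ Fintype.piFinset fun _ : Fin m => Λ, 1 / ((∏ i, g i : ℕ) : ℝ) := by
  have h1 := Finset.prod_univ_sum (ι := Fin m) (fun _ => Λ) (fun _ l => 1 / (l : ℝ))
  rw [Finset.prod_const, Finset.card_univ, Fintype.card_fin] at h1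
  rw [h1]
  refine Finset.sum_congr rfl fun g _ => ?_
  rw [Finset.prod_div_distrib, Finset.prod_const_one]
  push_cast
  rfl

/-- the sum of the squares -/
theorem quad (hK : T_KRN) (hL : SSN.T_LBD) {B : Finset ℕ} {P : ℝ}
    (hB : ∀ p ∈ B, p.Prime ∧ p ≠ 2 ∧ (p : ℝ) ≤ P) {a b : ℕ} (ha : 0 < a) (hab : a ≤ b) :
    ∑ n ∈ Ioc a b, (∑ p ∈ B, (SSN.ch p n : ℝ)) ^ 2 / n ≤
      B.card * (Real.log (b / a) + 16 * P ^ 3 / a) := by
  have ha' : (0 : ℝ) < a := by exact_mod_cast ha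
  rcases B.eq_empty_or_nonempty with rfl | hBne
  · simp
  have hP1 : 0 ≤ P := by
    obtain ⟨p, hp⟩ := hBne
    exact (Nat.cast_nonneg p).trans (hB p hp).2.2
  have hcard : (B.card : ℝ) ≤ P := by
    have h1 : B ⊆ Icc 1 ⌊P⌋₊ := by
      intro p hp
      rw [mem_Icc]
      exact ⟨(hB p hp).1.pos, Nat.le_floor (hB p hp).2.2⟩
    have h2 := Finset.card_le_card h1
    rw [Nat.card_Icc, Nat.add_sub_cancel] at h2
    calc (B.card : ℝ) ≤ (⌊P⌋₊ : ℝ) := by exact_mod_cast h2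
      _ ≤ P := Nat.floor_le hP1
  have h1 : ∑ n ∈ Ioc a b, (∑ p ∈ B, (SSN.ch p n : ℝ)) ^ 2 / n =
      ∑ p ∈ B, ∑ p' ∈ B, ∑ n ∈ Ioc a b, (SSN.ch p n : ℝ) * SSN.ch p' n / n := by
    have h2 : ∀ n ∈ Ioc a b, (∑ p ∈ B, (SSN.ch p n : ℝ)) ^ 2 / n =
        ∑ p ∈ B, ∑ p' ∈ B, (SSN.ch p n : ℝ) * SSN.ch p' n / n := by
      intro n _
      rw [sq, Finset.sum_mul_sum, Finset.sum_div]
      exact Finset.sum_congr rfl fun p _ => Finset.sum_div _ _ _
    rw [Finset.sum_congr rfl h2, Finset.sum_comm]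
    exact Finset.sum_congr rfl fun p _ => Finset.sum_comm
  have hdiag : ∀ p, ∑ n ∈ Ioc a b, (SSN.ch p n : ℝ) * SSN.ch p n / n ≤ Real.log (b / a) := by
    intro p
    refine le_trans (Finset.sum_le_sum fun n _ => ?_) (harm ha hab)
    apply div_le_div_of_nonneg_right _ (Nat.cast_nonneg n)
    rcases SSN.RRM_.ch_tri p n with h | h | h <;> rw [h] <;> norm_num
  have hrow : ∀ p ∈ B, ∑ p' ∈ B, ∑ n ∈ Ioc a b, (SSN.ch p n : ℝ) * SSN.ch p' n / n ≤
      Real.log (b / a) + 16 * P ^ 3 / a := by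
    intro p hp
    rw [← Finset.add_sum_erase B _ hp]
    refine add_le_add (hdiag p) ?_
    calc ∑ p' ∈ B.erase p, ∑ n ∈ Ioc a b, (SSN.ch p n : ℝ) * SSN.ch p' n / n
        ≤ ∑ p' ∈ B.erase p, 16 * (P * P) / a := by
          refine Finset.sum_le_sum fun p' hp' => ?_
          rw [mem_erase] at hp'
          refine (le_abs_self _).trans ((off hK hL (hB p hp).1 (hB p' hp'.2).1 hp'.1.symm ha
            hab).trans ?_)
          apply div_le_div_of_nonneg_right _ ha'.le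
          have := mul_le_mul (hB p hp).2.2 (hB p' hp'.2).2.2 (Nat.cast_nonneg _) hP1
          linarith
      _ = (B.erase p).card * (16 * (P * P) / a) := by rw [Finset.sum_const, nsmul_eq_mul]
      _ ≤ P * (16 * (P * P) / a) := by
          apply mul_le_mul_of_nonneg_right _ (by positivity)
          refine le_trans ?_ hcard
          exact_mod_cast Finset.card_le_card (Finset.erase_subset _ _)
      _ = 16 * P ^ 3 / a := by ring
  rw [h1]
  calc ∑ p ∈ B, ∑ p' ∈ B, ∑ n ∈ Ioc a b, (SSN.ch p n : ℝ) * SSN.ch p' n / n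
      ≤ ∑ p ∈ B, (Real.log (b / a) + 16 * P ^ 3 / a) := Finset.sum_le_sum hrow
    _ = _ := by rw [Finset.sum_const, nsmul_eq_mul]

end LV_

open LV_ in
theorem p_LV (hK : T_KRN) (hL : SSN.T_LBD) (hT : T_TPL) : T_LV := by
  intro Λ B P s A v W m hm hs hA hΛ hB hP hv hW hV
  have hW0 : 0 ≤ W := le_trans (Finset.sum_nonneg fun l _ => by positivity) hW
  have hms : 0 < m * s := mul_pos (by exact_mod_cast hm) hs
  have hAms : m * s ≤ A * m * s := by nlinarith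
  have hR0 : 0 ≤ A * m * s + 3 := by linarith
  rcases B.eq_empty_or_nonempty with rfl | hBne
  · rw [Finset.card_empty, Nat.cast_zero]
    positivity
  set a := ⌊Real.exp (m * s)⌋₊ with hadef
  set b := ⌊Real.exp (A * m * s)⌋₊ with hbdef
  have hexp1 : 1 ≤ Real.exp (m * s) := Real.one_le_exp hms.le
  have ha : 0 < a := Nat.floor_pos.2 hexp1
  have ha' : (0 : ℝ) < a := by exact_mod_cast ha
  have ha1 : (1 : ℝ) ≤ a := by exact_mod_cast ha
  have hab : a ≤ b := Nat.floor_le_floor (Real.exp_le_exp.2 hAms)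
  have ha2 : Real.exp (m * s) ≤ 2 * a := by
    have := Nat.lt_floor_add_one (Real.exp (m * s))
    rw [← hadef] at this
    linarith
  have hb2 : (b : ℝ) ≤ Real.exp (A * m * s) := Nat.floor_le (Real.exp_pos _).le
  have hlog : Real.log (b / a) ≤ A * m * s - m * s + 1 := by
    have hb' : (0 : ℝ) < b := by exact_mod_cast lt_of_lt_of_le ha hab
    rw [Real.log_div hb'.ne' ha'.ne']
    have h1 : Real.log b ≤ A * m * s := by
      rw [← Real.log_exp (A * m * s)]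
      exact Real.log_le_log hb' hb2
    have h2 : m * s ≤ Real.log 2 + Real.log a := by
      rw [← Real.log_mul (by norm_num) ha'.ne', ← Real.log_exp (m * s)]
      exact Real.log_le_log (Real.exp_pos _) ha2
    have h3 := Real.log_two_lt_d9
    linarith
  have hP3 : 16 * P ^ 3 / a ≤ 2 := by
    rw [div_le_iff₀ ha']
    linarith
  have hq := quad hK hL hB ha hab
  have hq2 : ∑ n ∈ Ioc a b, (∑ p ∈ B, (SSN.ch p n : ℝ)) ^ 2 / n ≤
      B.card * (A * m * s + 3) := by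
    refine hq.trans (mul_le_mul_of_nonneg_left ?_ (Nat.cast_nonneg _))
    linarith
  -- the tuples
  set T := Fintype.piFinset fun _ : Fin m => Λ with hTdef
  have hmem : ∀ g ∈ T, (∏ i, g i) ∈ Ioc a b := by
    intro g hg
    rw [hTdef, Fintype.mem_piFinset] at hg
    have : Nonempty (Fin m) := ⟨⟨0, hm⟩⟩
    have h1 : Real.exp (m * s) < ((∏ i, g i : ℕ) : ℝ) := by
      push_cast
      have h2 : ∏ _i : Fin m, Real.exp s < ∏ i : Fin m, ((g i : ℕ) : ℝ) :=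
        Finset.prod_lt_prod_of_nonempty (fun i _ => Real.exp_pos s)
          (fun i _ => (hΛ _ (hg i)).2.2.1) Finset.univ_nonempty
      rw [Finset.prod_const, Finset.card_univ, Fintype.card_fin, ← Real.exp_nat_mul] at h2
      exact h2
    have h3 : ((∏ i, g i : ℕ) : ℝ) ≤ Real.exp (A * m * s) := by
      push_cast
      have h2 : ∏ i : Fin m, ((g i : ℕ) : ℝ) ≤ ∏ _i : Fin m, Real.exp (A * s) :=
        Finset.prod_le_prod (fun i _ => Nat.cast_nonneg _) (fun i _ => (hΛ _ (hg i)).2.2.2)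
      rw [Finset.prod_const, Finset.card_univ, Fintype.card_fin, ← Real.exp_nat_mul] at h2
      refine h2.trans (le_of_eq ?_)
      congr 1
      ring
    rw [mem_Ioc]
    refine ⟨?_, Nat.le_floor h3⟩
    have h4 : (a : ℝ) < ((∏ i, g i : ℕ) : ℝ) := lt_of_le_of_lt (Nat.floor_le (Real.exp_pos _).le) h1
    exact_mod_cast h4
  have hsum : (B.card : ℝ) * v ^ m ≤
      ∑ g ∈ T, (∑ p ∈ B, (SSN.ch p (∏ i, g i) : ℝ)) / ((∏ i, g i : ℕ) : ℝ) := by
    calc (B.card : ℝ) * v ^ m = ∑ p ∈ B, v ^ m := by rw [Finset.sum_const, nsmul_eq_mul]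
      _ ≤ ∑ p ∈ B, (∑ l ∈ Λ, (SSN.ch p l : ℝ) / l) ^ m :=
          Finset.sum_le_sum fun p hp => pow_le_pow_left₀ hv.le (hV p hp) m
      _ = ∑ p ∈ B, ∑ g ∈ T, (SSN.ch p (∏ i, g i) : ℝ) / ((∏ i, g i : ℕ) : ℝ) :=
          Finset.sum_congr rfl fun p _ => expand Λ m p
      _ = _ := by
          rw [Finset.sum_comm]
          exact Finset.sum_congr rfl fun g _ => (Finset.sum_div _ _ _).symm
  have hCS : (∑ g ∈ T, (∑ p ∈ B, (SSN.ch p (∏ i, g i) : ℝ)) / ((∏ i, g i : ℕ) : ℝ)) ^ 2 ≤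
      (∑ g ∈ T, 1 / ((∏ i, g i : ℕ) : ℝ)) *
        ∑ g ∈ T, (∑ p ∈ B, (SSN.ch p (∏ i, g i) : ℝ)) ^ 2 / ((∏ i, g i : ℕ) : ℝ) := by
    apply Finset.sum_sq_le_sum_mul_sum_of_sq_le_mul
    · intro g _
      positivity
    · intro g _
      positivity
    · intro g hg
      have h0 : ((∏ i, g i : ℕ) : ℝ) ≠ 0 := by
        have := (mem_Ioc.1 (hmem g hg)).1
        exact_mod_cast (lt_of_le_of_lt (Nat.zero_le _) this).ne'
      apply le_of_eq
      rw [div_pow]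
      field_simp
  have hfib : ∑ g ∈ T, (∑ p ∈ B, (SSN.ch p (∏ i, g i) : ℝ)) ^ 2 / ((∏ i, g i : ℕ) : ℝ) ≤
      m.factorial * ∑ n ∈ Ioc a b, (∑ p ∈ B, (SSN.ch p n : ℝ)) ^ 2 / n := by
    rw [← Finset.sum_fiberwise_of_maps_to hmem, Finset.mul_sum]
    refine Finset.sum_le_sum fun n _ => ?_
    have h1 : ∑ g ∈ T with ∏ i, g i = n, (∑ p ∈ B, (SSN.ch p (∏ i, g i) : ℝ)) ^ 2 /
        ((∏ i, g i : ℕ) : ℝ) =
        ∑ g ∈ T with ∏ i, g i = n, (∑ p ∈ B, (SSN.ch p n : ℝ)) ^ 2 / (n : ℝ) := by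
      refine Finset.sum_congr rfl fun g hg => ?_
      rw [(mem_filter.1 hg).2]
    rw [h1, Finset.sum_const, nsmul_eq_mul]
    apply mul_le_mul_of_nonneg_right _ (by positivity)
    exact_mod_cast hT Λ m n fun l hl => (hΛ l hl).1
  have h1T : ∑ g ∈ T, 1 / ((∏ i, g i : ℕ) : ℝ) ≤ W ^ m := by
    rw [hTdef, ← expand1]
    exact pow_le_pow_left₀ (Finset.sum_nonneg fun l _ => by positivity) hW m
  have hBpos : (0 : ℝ) < B.card := by exact_mod_cast Finset.card_pos.2 hBne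
  have hfinal : ((B.card : ℝ) * v ^ m) ^ 2 ≤
      W ^ m * (m.factorial * (B.card * (A * m * s + 3))) := by
    calc ((B.card : ℝ) * v ^ m) ^ 2 ≤ (∑ g ∈ T, (∑ p ∈ B, (SSN.ch p (∏ i, g i) : ℝ)) /
          ((∏ i, g i : ℕ) : ℝ)) ^ 2 := pow_le_pow_left₀ (by positivity) hsum 2
      _ ≤ _ := hCS
      _ ≤ W ^ m * (m.factorial * (B.card * (A * m * s + 3))) := by
          apply mul_le_mul h1T _ _ (by positivity)
          · exact hfib.trans (mul_le_mul_of_nonneg_left hq2 (by positivity))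
          · exact Finset.sum_nonneg fun g _ => by positivity
  have hvm : 0 < v ^ m := by positivity
  have h2 : (B.card : ℝ) * ((B.card : ℝ) * (v ^ m) ^ 2) ≤
      B.card * (W ^ m * (m.factorial * (A * m * s + 3))) := by
    calc (B.card : ℝ) * ((B.card : ℝ) * (v ^ m) ^ 2) = ((B.card : ℝ) * v ^ m) ^ 2 := by ring
      _ ≤ _ := hfinal
      _ = _ := by ring
  have h3 := le_of_mul_le_mul_left h2 hBpos
  have h4 : (m.factorial : ℝ) * (W / v ^ 2) ^ m * (A * m * s + 3) =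
      W ^ m * (m.factorial * (A * m * s + 3)) / (v ^ m) ^ 2 := by
    rw [div_pow, ← pow_mul, ← pow_mul, mul_comm 2 m]
    ring
  rw [h4, le_div_iff₀ (by positivity)]
  exact h3

end SSD
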