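import Pool.Agent.SSD.Targets
import Mathlib.NumberTheory.LegendreSymbol.QuadraticChar.Basic

/-!
NSS: primes `l ≡ 1 mod 4` for which `-(4 A ^ 3 + 27 B ^ 2)` is a nonzero square modulo `l` are never
supersingular: the number of affine points is even or `3` modulo `4`.
-/

set_option autoImplicit false

open scoped BigOperators Classical
open Finset

namespace SSD

namespace NSS_

/-- a finite set with a fixed point free involution has an even number of elements -/
lemma even_card {F : Type*} (s : Finset F) (φ : F → F) (h1 : ∀ x ∈ s, φ x ∈ s)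
    (h2 : ∀ x ∈ s, φ (φ x) = x) (h3 : ∀ x ∈ s, φ x ≠ x) : Even s.card := by
  have h : ∑ _x ∈ s, (1 : ZMod 2) = 0 := by
    refine Finset.sum_involution (fun x _ => φ x) ?_ ?_ ?_ ?_
    · intro x _
      decide
    · intro x hx _
      exact h3 x hx
    · intro x hx
      exact h1 x hx
    · intro x hx
      exact h2 x hx
  rw [Finset.sum_const, nsmul_eq_mul, mul_one] at h
  rw [ZMod.natCast_eq_zero_iff] at h
  exact (even_iff_two_dvd).2 h

section
variable {F : Type*} [Field F] [Fintype F]

/-- the number of points of `y ^ 2 = f x` -/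
lemma card_points (hF : ringChar F ≠ 2) (f : F → F) :
    Nat.card {P : F × F // P.2 ^ 2 = f P.1} =
      (univ.filter fun x => f x = 0).card +
        2 * (univ.filter fun x => f x ≠ 0 ∧ IsSquare (f x)).card := by
  have h1 : Nat.card {P : F × F // P.2 ^ 2 = f P.1} =
      ∑ x : F, (univ.filter fun y : F => y ^ 2 = f x).card := by
    rw [Nat.card_eq_fintype_card, Fintype.card_subtype]
    rw [Finset.card_filter, Fintype.sum_prod_type]
    refine Finset.sum_congr rfl fun x _ => ?_
    rw [Finset.card_filter]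
  rw [h1, Finset.card_filter, Finset.card_filter, Finset.mul_sum, ← Finset.sum_add_distrib]
  refine Finset.sum_congr rfl fun x _ => ?_
  by_cases h0 : f x = 0
  · rw [if_pos h0, if_neg (by simp [h0])]
    rw [h0]
    have : (univ.filter fun y : F => y ^ 2 = 0) = {0} := by
      ext y
      simp
    rw [this]
    simp
  · rw [if_neg h0]
    by_cases hs : IsSquare (f x)
    · rw [if_pos ⟨h0, hs⟩]
      obtain ⟨s, hs⟩ := hs
      have hs0 : s ≠ 0 := by
        rintro rfl
        exact h0 (by simp [hs])
      have : (univ.filter fun y : F => y ^ 2 = f x) = {s, -s} := by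
        ext y
        simp only [mem_filter, mem_univ, true_and, mem_insert, mem_singleton]
        rw [hs, ← sq, sq_eq_sq_iff_eq_or_eq_neg]
      have hne : s ≠ -s := by
        intro h
        have h2 : (2 : F) * s = 0 := by linear_combination h
        rcases mul_eq_zero.1 h2 with h | h
        · exact (Ring.two_ne_zero hF) h
        · exact hs0 h
      rw [this, Finset.card_pair hne]
      norm_num
    · rw [if_neg (fun h => hs h.2)]
      have : (univ.filter fun y : F => y ^ 2 = f x) = ∅ := by
        rw [Finset.filter_eq_empty_iff]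
        intro y _ hy
        exact hs ⟨y, by rw [← hy]; ring⟩
      rw [this]
      simp

/-- three distinct roots: an even number of `x` with `f x` a nonzero square -/
lemma even_M (hF : ringChar F ≠ 2) (f : F → F) (e₁ e₂ e₃ : F)
    (hf : ∀ x, f x = (x - e₁) * (x - e₂) * (x - e₃)) (h12 : e₁ ≠ e₂) (h13 : e₁ ≠ e₃)
    (h23 : e₂ ≠ e₃) : Even (univ.filter fun x => f x ≠ 0 ∧ IsSquare (f x)).card := by
  set M := univ.filter fun x => f x ≠ 0 ∧ IsSquare (f x) with hM
  have memM : ∀ x, x ∈ M ↔ f x ≠ 0 ∧ IsSquare (f x) := fun x => by simp [hM]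
  have n12 : e₁ - e₂ ≠ 0 := sub_ne_zero.2 h12
  have n13 : e₁ - e₃ ≠ 0 := sub_ne_zero.2 h13
  have n23 : e₂ - e₃ ≠ 0 := sub_ne_zero.2 h23
  have ne1 : ∀ x, f x ≠ 0 → x - e₁ ≠ 0 := by
    intro x hx h
    exact hx (by rw [hf, h]; ring)
  set c := (e₁ - e₂) * (e₁ - e₃) with hc
  have c0 : c ≠ 0 := mul_ne_zero n12 n13
  set φ : F → F := fun x => e₁ + c / (x - e₁) with hφ
  have hmem : ∀ x ∈ M, φ x ∈ M := by
    intro x hx
    obtain ⟨h0, s, hs⟩ := (memM x).1 hx
    have h1 := ne1 x h0
    have key : f (φ x) = c ^ 2 * f x / (x - e₁) ^ 4 := by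
      rw [hf, hf, hφ, hc]
      field_simp
      ring
    rw [memM]
    refine ⟨?_, ?_⟩
    · rw [key]
      exact div_ne_zero (mul_ne_zero (pow_ne_zero _ c0) h0) (pow_ne_zero _ h1)
    · refine ⟨c * s / (x - e₁) ^ 2, ?_⟩
      rw [key, hs]
      field_simp
  have hinv : ∀ x ∈ M, φ (φ x) = x := by
    intro x hx
    have h1 := ne1 x ((memM x).1 hx).1
    have h2 : φ x - e₁ = c / (x - e₁) := by rw [hφ]; ring
    have h3 : φ (φ x) = e₁ + c / (φ x - e₁) := rfl
    rw [h3, h2]
    have h4 : c / (c / (x - e₁)) = x - e₁ := by field_simp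
    rw [h4]
    ring
  -- split off the fixed points
  have hsplit := Finset.card_filter_add_card_filter_not (s := M) (fun x => φ x = x)
  have hA : Even (M.filter fun x => ¬ φ x = x).card := by
    refine even_card _ φ ?_ ?_ ?_
    · intro x hx
      rw [mem_filter] at hx ⊢
      refine ⟨hmem x hx.1, ?_⟩
      intro h
      apply hx.2
      have := hinv x hx.1
      rw [h] at this
      exact this
    · intro x hx
      exact hinv x (mem_filter.1 hx).1
    · intro x hx
      exact (mem_filter.1 hx).2
  have hB : Even (M.filter fun x => φ x = x).card := by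
    have hsq : ∀ x ∈ M, φ x = x → (x - e₁) ^ 2 = c := by
      intro x hx h
      have h1 := ne1 x ((memM x).1 hx).1
      rw [hφ] at h
      simp only at h
      have h2 : c / (x - e₁) = x - e₁ := by linear_combination h
      rw [div_eq_iff h1] at h2
      rw [h2]
      ring
    refine even_card _ (fun x => 2 * e₁ - x) ?_ ?_ ?_
    · intro x hx
      rw [mem_filter] at hx ⊢
      obtain ⟨hx, hfix⟩ := hx
      have hxc := hsq x hx hfix
      obtain ⟨h0, s, hs⟩ := (memM x).1 hx
      have h1 := ne1 x h0
      have hs0 : s ≠ 0 := by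
        rintro rfl
        exact h0 (by simp [hs])
      have hprod : f x * f (2 * e₁ - x) = ((x - e₁) ^ 2 * (e₂ - e₃)) ^ 2 := by
        rw [hf, hf]
        rw [hc] at hxc
        linear_combination (-(x - e₁) ^ 2 * ((x - e₁) ^ 2 - (e₁ - e₂) * (e₁ - e₃))) * hxc
      have hval : f (2 * e₁ - x) = ((x - e₁) ^ 2 * (e₂ - e₃) / s) ^ 2 := by
        rw [div_pow, ← hprod, hs]
        field_simp
      refine ⟨?_, ?_⟩
      · rw [memM]
        refine ⟨?_, ?_⟩
        · rw [hval]
          exact pow_ne_zero _ (div_ne_zero (mul_ne_zero (pow_ne_zero _ h1) n23) hs0)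
        · rw [hval]
          exact ⟨_, sq _⟩
      · rw [hφ]
        simp only
        have h2 : 2 * e₁ - x - e₁ = -(x - e₁) := by ring
        rw [h2, ← hxc]
        field_simp
        ring
    · intro x _
      ring
    · intro x hx h
      have h1 := ne1 x ((memM x).1 (mem_filter.1 hx).1).1
      have h2 : (2 : F) * (x - e₁) = 0 := by linear_combination -h
      rcases mul_eq_zero.1 h2 with h | h
      · exact (Ring.two_ne_zero hF) h
      · exact h1 h
  rw [← hsplit]
  exact hB.add hA

/-- the number of points is even or `3` modulo `4` -/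
lemma mod4 (hF : ringChar F ≠ 2) (a b w : F) (hw0 : w ≠ 0)
    (hw : -(4 * a ^ 3 + 27 * b ^ 2) = w ^ 2) :
    Nat.card {P : F × F // P.2 ^ 2 = P.1 ^ 3 + a * P.1 + b} % 2 = 0 ∨
      Nat.card {P : F × F // P.2 ^ 2 = P.1 ^ 3 + a * P.1 + b} % 4 = 3 := by
  have h2 : (2 : F) ≠ 0 := Ring.two_ne_zero hF
  set f : F → F := fun x => x ^ 3 + a * x + b with hf
  have hN : Nat.card {P : F × F // P.2 ^ 2 = P.1 ^ 3 + a * P.1 + b} = _ := card_points hF f
  rw [hN]
  by_cases hroot : ∃ r, f r = 0
  · right
    obtain ⟨r, hr⟩ := hroot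
    have hr' : b = -r ^ 3 - a * r := by
      rw [hf] at hr
      simp only at hr
      linear_combination hr
    have hid : (-3 * r ^ 2 - 4 * a) * (3 * r ^ 2 + a) ^ 2 = w ^ 2 := by
      rw [← hw, hr']
      ring
    have hne : 3 * r ^ 2 + a ≠ 0 := by
      intro h
      apply hw0
      have : w ^ 2 = 0 := by rw [← hid, h]; ring
      exact pow_eq_zero_iff (two_ne_zero) |>.1 this
    set g := w / (3 * r ^ 2 + a) with hg
    have hg0 : g ≠ 0 := div_ne_zero hw0 hne
    have hg2 : g ^ 2 = -3 * r ^ 2 - 4 * a := by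
      rw [hg, div_pow, ← hid]
      field_simp
    set e₂ := (-r + g) / 2 with he2
    set e₃ := (-r - g) / 2 with he3
    have hfac : ∀ x, f x = (x - r) * (x - e₂) * (x - e₃) := by
      intro x
      have h1 : (x - e₂) * (x - e₃) = x ^ 2 + r * x + (r ^ 2 + a) := by
        rw [he2, he3]
        field_simp
        linear_combination (-1 : F) * hg2
      rw [mul_assoc, h1, hf]
      simp only
      rw [hr']
      ring
    have h23 : e₂ ≠ e₃ := by
      intro h
      apply hg0
      rw [he2, he3] at h
      field_simp at h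
      have : (2 : F) * g = 0 := by linear_combination h
      rcases mul_eq_zero.1 this with h | h
      · exact absurd h h2
      · exact h
    have h123 : (r - e₂) * (r - e₃) ≠ 0 := by
      have : (r - e₂) * (r - e₃) = 3 * r ^ 2 + a := by
        rw [he2, he3]
        field_simp
        linear_combination (-1 : F) * hg2
      rw [this]
      exact hne
    have h12 : r ≠ e₂ := by
      intro h
      apply h123
      rw [← h]
      ring
    have h13 : r ≠ e₃ := by
      intro h
      apply h123
      rw [← h]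
      ring
    have hM := even_M hF f r e₂ e₃ hfac h12 h13 h23
    have hZ : (univ.filter fun x => f x = 0).card = 3 := by
      have : (univ.filter fun x => f x = 0) = {r, e₂, e₃} := by
        ext x
        simp only [mem_filter, mem_univ, true_and, mem_insert, mem_singleton]
        rw [hfac, mul_eq_zero, mul_eq_zero, sub_eq_zero, sub_eq_zero, sub_eq_zero, or_assoc]
      rw [this, Finset.card_insert_of_notMem, Finset.card_pair h23]
      simp [h12, h13]
    rw [hZ]
    obtain ⟨m, hm⟩ := hM
    omega
  · left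
    have hZ : (univ.filter fun x => f x = 0).card = 0 := by
      rw [Finset.card_eq_zero, Finset.filter_eq_empty_iff]
      intro x _ hx
      exact hroot ⟨x, hx⟩
    omega

end

open SSD.NSS_ in
theorem main (A B : ℤ) (l : ℕ) (hl : l ∈ QQ (-(4 * A ^ 3 + 27 * B ^ 2))) : l ∉ SSF.SS A B := by
  obtain ⟨hp, h4, hj⟩ := hl
  have : Fact l.Prime := ⟨hp⟩
  intro hSS
  obtain ⟨-, hdiv, hcard⟩ := hSS
  have hl2 : l ≠ 2 := by rintro rfl; norm_num at h4
  have hF : ringChar (ZMod l) ≠ 2 := by rwa [ZMod.ringChar_zmod_n]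
  -- the discriminant is a nonzero square
  have hd : ∃ w : ZMod l, w ≠ 0 ∧ -(4 * (A : ZMod l) ^ 3 + 27 * (B : ZMod l) ^ 2) = w ^ 2 := by
    rw [← jacobiSym.legendreSym.to_jacobiSym] at hj
    have h0 : ((-(4 * A ^ 3 + 27 * B ^ 2) : ℤ) : ZMod l) ≠ 0 := by
      intro h
      rw [(legendreSym.eq_zero_iff l _).2 h] at hj
      norm_num at hj
    have hs := (legendreSym.eq_one_iff l h0).1 hj
    obtain ⟨w, hw⟩ := hs
    push_cast at hw h0
    refine ⟨w, ?_, ?_⟩
    · rintro rfl
      apply h0
      rw [hw]
      ring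
    · rw [hw]
      ring
  obtain ⟨w, hw0, hw⟩ := hd
  have h := mod4 hF (A : ZMod l) (B : ZMod l) w hw0 hw
  rw [hcard] at h
  omega

end NSS_

/-- NSS -/
theorem p_NSS : T_NSS := fun A B l hl => NSS_.main A B l hl

end SSD
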