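import Pool.Agent.SSD.Targets

/-!
# PAR: the parameters exist
-/

set_option autoImplicit false

open scoped BigOperators Classical
open Finset

namespace SSD

open SSC

namespace PAR_

theorem geom1 (A : ℝ) (hA : 3 ≤ A) (n : ℕ) :
    ∑ j ∈ range n, 1 / A ^ j ≤ 3 / 2 * (1 - 1 / A ^ n) := by
  induction n with
  | zero => simp
  | succ n ih =>
    rw [Finset.sum_range_succ]
    have hA0 : 0 < A := by linarith
    have h1 : 0 < A ^ n := by positivity
    have h2 : 1 / A ^ (n + 1) ≤ 1 / 3 * (1 / A ^ n) := by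
      rw [pow_succ, one_div_mul_one_div]
      exact one_div_le_one_div_of_le (by positivity) (by nlinarith)
    linarith

theorem geom2 (A : ℝ) (hA : 3 ≤ A) (J : ℕ) : ∑ j ∈ range (J + 1), A ^ j ≤ 3 / 2 * A ^ J := by
  induction J with
  | zero => norm_num
  | succ J ih =>
    rw [Finset.sum_range_succ]
    have h1 : 0 < A ^ J := by positivity
    have h2 : 3 * A ^ J ≤ A ^ (J + 1) := by
      rw [pow_succ]
      nlinarith
    linarith

theorem e35 : (7 / 10 : ℝ) ≤ Real.exp (-(35 / 100)) := by
  have h : Real.exp (-(35 / 100)) = Real.exp (-(35 / 1000)) ^ 10 := by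
    rw [← Real.exp_nat_mul]
    norm_num
  rw [h]
  have h1 : (1 : ℝ) - 35 / 1000 ≤ Real.exp (-(35 / 1000)) := Real.one_sub_le_exp_neg _
  calc (7 / 10 : ℝ) ≤ (1 - 35 / 1000) ^ 10 := by norm_num
    _ ≤ _ := pow_le_pow_left₀ (by norm_num) h1 10

theorem e25 : (12 : ℝ) ≤ Real.exp (5 / 2) := by
  have h : Real.exp (5 / 2) ^ 2 = Real.exp 1 ^ 5 := by
    rw [← Real.exp_nat_mul, ← Real.exp_nat_mul]
    norm_num
  have h1 : (2.7182818283 : ℝ) < Real.exp 1 := Real.exp_one_gt_d9
  have h2 : (144 : ℝ) ≤ Real.exp 1 ^ 5 := by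
    calc (144 : ℝ) ≤ 2.7182818283 ^ 5 := by norm_num
      _ ≤ _ := pow_le_pow_left₀ (by norm_num) h1.le 5
  rw [← h] at h2
  have h3 : 0 < Real.exp (5 / 2) := Real.exp_pos _
  nlinarith

theorem pow7 (n : ℕ) (y : ℝ) (h : y ≤ n) : (7 / 10 : ℝ) ^ n ≤ Real.exp (-(35 / 100) * y) := by
  calc (7 / 10 : ℝ) ^ n ≤ Real.exp (-(35 / 100)) ^ n := pow_le_pow_left₀ (by norm_num) e35 n
    _ = Real.exp (-(35 / 100) * n) := by
        rw [← Real.exp_nat_mul]
        congr 1
        ring
    _ ≤ _ := by
        apply Real.exp_le_exp.2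
        linarith

theorem aux1 (t : ℝ) (ht : 450 ≤ t) : (t + 2) * (40 * t + 2) ≤ 100 * t ^ 2 := by
  nlinarith

/-- the parameters, all conditions -/
theorem core (A ε t x L : ℝ) (hA : 3 ≤ A) (hε : 0 < ε) (hx : 150 * A ≤ x) (hxε : 16 ≤ ε * x)
    (hxt : x ≤ t) (hL : L = Real.exp t) (hL2 : 200 * t ^ 6 ≤ L) :
    ∃ (J : ℕ) (k : ℕ → ℕ),
      4 * (KK k J : ℝ) ≤ A ^ J * (t * x) ∧
      ∑ j ∈ range (J + 1), (k j : ℝ) * (A ^ (j + 1) * (t * x)) ≤ L / 16 ∧
      (J : ℝ) ≤ 2 * t ∧
      Real.exp (L / (t ^ 2 * x ^ 3)) * (7 / 10) ^ (k 0) * L ^ 6 ≤ 1 ∧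
      (∀ j ∈ range J, ∃ m : ℕ, 1 ≤ m ∧ 12 * (KK k J : ℝ) + 3 ≤ m * (A ^ j * (t * x)) ∧
        m.factorial * 12 ^ m * (A * m * (A ^ j * (t * x)) + 3) * (7 / 10) ^ (k (j + 1)) * L ^ 8 ≤ 1) ∧
      Real.exp (L / (t ^ 2 * x ^ 3)) * 2 ^ (KK k J) * L ^ 8 ≤ Real.exp (2 * (KK k J : ℝ)) ∧
      (8 * L) ^ (4 * KK k J) ≤ Real.exp (ε * L) ∧
      (∀ j ∈ range (J + 1), 4 * (k j : ℝ) ^ 2 ≤ Real.exp (A ^ j * (t * x))) ∧
      200 * L ≤ Real.exp (A ^ 0 * (t * x)) ∧ 2 ≤ A ^ 0 * (t * x) := by
  have hA0 : 0 < A := by linarith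
  have hA1 : 1 < A := by linarith
  have hx450 : 450 ≤ x := by linarith
  have hx0 : 0 < x := by linarith
  have ht450 : 450 ≤ t := by linarith
  have ht0 : 0 < t := by linarith
  have htx : 0 < t * x := by positivity
  have hL0 : 0 < L := by rw [hL]; exact Real.exp_pos _
  have ht2 : 450 * t ≤ t ^ 2 := by
    rw [sq]
    gcongr
  have htx1 : 202500 ≤ t * x := by
    calc (202500 : ℝ) = 450 * 450 := by norm_num
      _ ≤ t * x := by gcongr
  have htx2 : 202500 ≤ t ^ 2 * x ^ 2 := by
    calc (202500 : ℝ) ≤ 202500 * 202500 := by norm_num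
      _ ≤ (t * x) * (t * x) := by gcongr
      _ = t ^ 2 * x ^ 2 := by ring
  have htx3 : 202500 ≤ t ^ 2 * x := by
    calc (202500 : ℝ) ≤ 450 * 202500 := by norm_num
      _ ≤ t * (t * x) := by gcongr
      _ = t ^ 2 * x := by ring
  have hxt2 : x ^ 2 ≤ t ^ 2 := pow_le_pow_left₀ hx0.le hxt 2
  -- the number `u`
  set u : ℝ := L / (t ^ 2 * x ^ 2) with hu
  have hden : 0 < t ^ 2 * x ^ 2 := by positivity
  have hu0 : 0 < u := by positivity
  have hLu : L = u * (t ^ 2 * x ^ 2) := by
    rw [hu]
    field_simp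
  have hu200 : 200 * t ^ 2 ≤ u := by
    rw [hu, le_div_iff₀ hden]
    calc 200 * t ^ 2 * (t ^ 2 * x ^ 2) ≤ 200 * t ^ 2 * (t ^ 2 * t ^ 2) := by gcongr
      _ = 200 * t ^ 6 := by ring
      _ ≤ L := hL2
  have huL : 202500 * u ≤ L := by
    conv_rhs => rw [hLu]
    rw [mul_comm u]
    gcongr
  have hLt : 200 * t ≤ L := by linarith
  have hL8 : (90000 : ℝ) ≤ L := by linarith
  -- the number `J`
  have hex : ∃ j : ℕ, L / (t ^ 2 * x) ≤ A ^ j * (t * x) := by
    obtain ⟨j, hj⟩ := pow_unbounded_of_one_lt (L / (t ^ 2 * x)) hA1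
    refine ⟨j, hj.le.trans ?_⟩
    have h2 : 0 < A ^ j := by positivity
    exact le_mul_of_one_le_right h2.le (by linarith)
  set J := Nat.find hex with hJ
  have hJ1 : L / (t ^ 2 * x) ≤ A ^ J * (t * x) := Nat.find_spec hex
  have hJlt : ∀ j : ℕ, j < J → A ^ j * (t * x) < L / (t ^ 2 * x) := by
    intro j hj
    exact not_le.1 (Nat.find_min hex hj)
  have hJpos : 1 ≤ J := by
    rw [Nat.one_le_iff_ne_zero]
    intro h0
    rw [h0, pow_zero, one_mul, div_le_iff₀ (by positivity)] at hJ1
    have h3 : t * x * (t ^ 2 * x) ≤ t ^ 5 := by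
      calc t * x * (t ^ 2 * x) = t ^ 3 * x ^ 2 := by ring
        _ ≤ t ^ 3 * t ^ 2 := by gcongr
        _ = t ^ 5 := by ring
    have h4 : t ^ 5 * 450 ≤ t ^ 6 := by
      have : 0 < t ^ 5 := by positivity
      calc t ^ 5 * 450 ≤ t ^ 5 * t := by gcongr
        _ = t ^ 6 := by ring
    have h5 : 0 < t ^ 5 := by positivity
    linarith
  obtain ⟨J', hJ'⟩ : ∃ J', J = J' + 1 := ⟨J - 1, by omega⟩
  have hJ'lt := hJlt J' (by omega)
  have hsJ : A ^ J * (t * x) ≤ A * (L / (t ^ 2 * x)) := by
    rw [hJ', pow_succ]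
    calc A ^ J' * A * (t * x) = A * (A ^ J' * (t * x)) := by ring
      _ ≤ _ := by gcongr
  have hJt : (J : ℝ) ≤ t + 1 := by
    have h1 : A ^ J' < L := by
      have h2 : 0 < A ^ J' := by positivity
      have h3 : A ^ J' ≤ A ^ J' * (t * x) := le_mul_of_one_le_right h2.le (by linarith)
      have h4 : L / (t ^ 2 * x) ≤ L := div_le_self hL0.le (by linarith)
      linarith
    have h2 : Real.exp 1 ^ J' ≤ A ^ J' := by
      apply pow_le_pow_left₀ (Real.exp_pos _).le
      have := Real.exp_one_lt_d9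
      linarith
    have h3 : Real.exp (J' : ℝ) < Real.exp t := by
      rw [← hL]
      refine lt_of_le_of_lt ?_ h1
      refine le_trans (le_of_eq ?_) h2
      rw [← Real.exp_nat_mul, mul_one]
    have h4 := Real.exp_lt_exp.1 h3
    rw [hJ']
    push_cast
    linarith
  -- the numbers `k j`
  set k : ℕ → ℕ := fun j => ⌈u / A ^ j⌉₊ + ⌈40 * t⌉₊ with hk
  have hk1 : ∀ j : ℕ, u / A ^ j + 40 * t ≤ k j := by
    intro j
    rw [hk]
    push_cast
    exact add_le_add (Nat.le_ceil _) (Nat.le_ceil _)
  have hk2 : ∀ j : ℕ, (k j : ℝ) ≤ u / A ^ j + (40 * t + 2) := by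
    intro j
    rw [hk]
    push_cast
    have h1 := (Nat.ceil_lt_add_one (show 0 ≤ u / A ^ j by positivity)).le
    have h2 := (Nat.ceil_lt_add_one (show 0 ≤ 40 * t by positivity)).le
    linarith
  have hKu : u ≤ (KK k J : ℝ) := by
    have h1 : k 0 ≤ KK k J := by
      unfold KK
      exact Finset.single_le_sum (f := k) (fun i _ => Nat.zero_le _) (Finset.mem_range.2 (by omega))
    have h2 : (k 0 : ℝ) ≤ (KK k J : ℝ) := by exact_mod_cast h1
    have h3 := hk1 0
    rw [pow_zero, div_one] at h3
    linarith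
  have hK2 : (KK k J : ℝ) ≤ 2 * u := by
    unfold KK
    push_cast
    calc ∑ j ∈ range (J + 1), (k j : ℝ)
        ≤ ∑ j ∈ range (J + 1), (u * (1 / A ^ j) + (40 * t + 2)) := by
          refine Finset.sum_le_sum fun j _ => ?_
          refine (hk2 j).trans (le_of_eq ?_)
          ring
      _ = u * ∑ j ∈ range (J + 1), 1 / A ^ j + (J + 1) * (40 * t + 2) := by
          rw [Finset.sum_add_distrib, ← Finset.mul_sum, Finset.sum_const, Finset.card_range,
            nsmul_eq_mul]
          push_cast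
          ring
      _ ≤ u * (3 / 2) + (t + 2) * (40 * t + 2) := by
          have h1 := geom1 A hA (J + 1)
          have h2 : 0 < 1 / A ^ (J + 1) := by positivity
          apply add_le_add
          · apply mul_le_mul_of_nonneg_left _ hu0.le
            linarith
          · apply mul_le_mul_of_nonneg_right _ (by positivity)
            linarith
      _ ≤ 2 * u := by
          have h3 := aux1 t ht450
          linarith
  -- consequences
  have hsj1 : ∀ j : ℕ, t * x ≤ A ^ j * (t * x) := by
    intro j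
    exact le_mul_of_one_le_left htx.le (one_le_pow₀ hA1.le)
  have hux : L / (t ^ 2 * x ^ 3) = u / x := by
    rw [hu, div_div]
    congr 1
    ring
  have hux2 : u / x ≤ u / 450 := div_le_div_of_nonneg_left hu0.le (by norm_num) hx450
  have hpowL : ∀ n : ℕ, L ^ n = Real.exp (n * t) := by
    intro n
    rw [hL, ← Real.exp_nat_mul]
  refine ⟨J, k, ?_, ?_, ?_, ?_, ?_, ?_, ?_, ?_, ?_, ?_⟩
  · -- (1)
    refine le_trans ?_ hJ1
    rw [le_div_iff₀ (by positivity), hLu]
    calc 4 * (KK k J : ℝ) * (t ^ 2 * x) ≤ 4 * (2 * u) * (t ^ 2 * x) := by gcongr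
      _ = u * (t ^ 2 * (8 * x)) := by ring
      _ ≤ u * (t ^ 2 * (x * x)) := by gcongr; linarith
      _ = u * (t ^ 2 * x ^ 2) := by ring
  · -- (2)
    calc ∑ j ∈ range (J + 1), (k j : ℝ) * (A ^ (j + 1) * (t * x))
        ≤ ∑ j ∈ range (J + 1), (u * A * (t * x) + (40 * t + 2) * (A * (t * x)) * A ^ j) := by
          refine Finset.sum_le_sum fun j _ => ?_
          have hAj : 0 < A ^ j := by positivity
          calc (k j : ℝ) * (A ^ (j + 1) * (t * x))
              ≤ (u / A ^ j + (40 * t + 2)) * (A ^ (j + 1) * (t * x)) := by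
                gcongr
                exact hk2 j
            _ = (u / A ^ j * A ^ j) * A * (t * x) + (40 * t + 2) * (A * (t * x)) * A ^ j := by
                rw [pow_succ]
                ring
            _ = _ := by rw [div_mul_cancel₀ _ hAj.ne']
      _ = (J + 1) * (u * A * (t * x)) + (40 * t + 2) * (A * (t * x)) * ∑ j ∈ range (J + 1), A ^ j := by
          rw [Finset.sum_add_distrib, Finset.sum_const, Finset.card_range, nsmul_eq_mul,
            ← Finset.mul_sum]
          push_cast
          ring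
      _ ≤ (t + 2) * (u * A * (t * x)) + (40 * t + 2) * (A * (t * x)) * (3 / 2 * A ^ J) := by
          apply add_le_add
          · apply mul_le_mul_of_nonneg_right _ (by positivity)
            linarith
          · apply mul_le_mul_of_nonneg_left (geom2 A hA J) (by positivity)
      _ = (t + 2) * (u * A * (t * x)) + (40 * t + 2) * A * (3 / 2) * (A ^ J * (t * x)) := by ring
      _ ≤ (t + 2) * (u * A * (t * x)) + (40 * t + 2) * A * (3 / 2) * (A * (L / (t ^ 2 * x))) := by
          gcongr
      _ ≤ L / 32 + L / 32 := by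
          apply add_le_add
          · rw [le_div_iff₀ (by norm_num)]
            conv_rhs => rw [hLu]
            have h1 : (t + 2) * A * 32 ≤ t * x := by
              calc (t + 2) * A * 32 ≤ (2 * t) * A * 32 := by
                    gcongr
                    linarith
                _ = t * (64 * A) := by ring
                _ ≤ t * x := by
                    gcongr
                    linarith
            calc (t + 2) * (u * A * (t * x)) * 32 = u * (t * x) * ((t + 2) * A * 32) := by ring
              _ ≤ u * (t * x) * (t * x) := by gcongr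
              _ = u * (t ^ 2 * x ^ 2) := by ring
          · have h1 : (40 * t + 2) * A * (3 / 2) * (A * (L / (t ^ 2 * x))) =
                L * ((40 * t + 2) * A * (3 / 2) * A / (t ^ 2 * x)) := by ring
            rw [h1, div_eq_mul_one_div L 32]
            apply mul_le_mul_of_nonneg_left _ hL0.le
            rw [div_le_div_iff₀ (by positivity) (by norm_num), one_mul]
            have h2 : (40 * t + 2) ≤ 42 * t := by linarith
            have h3 : 150 * A ≤ t := by linarith
            calc (40 * t + 2) * A * (3 / 2) * A * 32 = (40 * t + 2) * (48 * A * A) := by ring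
              _ ≤ (42 * t) * (48 * A * A) := by gcongr
              _ = t * (2016 * (A * A)) := by ring
              _ ≤ t * (22500 * (A * A)) := by gcongr; norm_num
              _ = t * ((150 * A) * (150 * A)) := by ring
              _ ≤ t * (t * x) := by gcongr
              _ = t ^ 2 * x := by ring
      _ = L / 16 := by ring
  · -- (3)
    linarith
  · -- (4)
    rw [hux, hpowL]
    have h1 := hk1 0
    rw [pow_zero, div_one] at h1
    calc Real.exp (u / x) * (7 / 10) ^ (k 0) * Real.exp ((6 : ℕ) * t)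
        ≤ Real.exp (u / x) * Real.exp (-(35 / 100) * (u + 40 * t)) * Real.exp ((6 : ℕ) * t) := by
          gcongr
          exact pow7 _ _ h1
      _ = Real.exp (u / x + -(35 / 100) * (u + 40 * t) + (6 : ℕ) * t) := by
          rw [Real.exp_add, Real.exp_add]
      _ ≤ Real.exp 0 := by
          apply Real.exp_le_exp.2
          push_cast
          linarith
      _ = 1 := Real.exp_zero
  · -- (5)
    intro j hj
    have hj' : j < J := Finset.mem_range.1 hj
    have hs := hJlt j hj'
    set s := A ^ j * (t * x) with hsdef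
    have hs1 : t * x ≤ s := hsj1 j
    have hs0 : 0 < s := by linarith
    have hAj : 0 < A ^ j := by positivity
    have hK0 : 0 < 12 * (KK k J : ℝ) + 3 := by linarith
    have hm1 : (12 * (KK k J : ℝ) + 3) / s ≤ (⌈(12 * (KK k J : ℝ) + 3) / s⌉₊ : ℝ) := Nat.le_ceil _
    have hm2 : (⌈(12 * (KK k J : ℝ) + 3) / s⌉₊ : ℝ) ≤ (12 * (KK k J : ℝ) + 3) / s + 1 :=
      (Nat.ceil_lt_add_one (by positivity)).le
    have hm0 : 1 ≤ ⌈(12 * (KK k J : ℝ) + 3) / s⌉₊ := Nat.ceil_pos.2 (by positivity)
    refine ⟨⌈(12 * (KK k J : ℝ) + 3) / s⌉₊, hm0, ?_, ?_⟩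
    · rwa [div_le_iff₀ hs0] at hm1
    · set m := ⌈(12 * (KK k J : ℝ) + 3) / s⌉₊ with hm
      have hK25 : 12 * (KK k J : ℝ) + 3 ≤ 25 * u := by linarith
      have hm3 : (m : ℝ) ≤ 25 * u / s + 1 := by
        refine hm2.trans ?_
        have : (12 * (KK k J : ℝ) + 3) / s ≤ 25 * u / s := by gcongr
        linarith
      have hms : (m : ℝ) * s ≤ 25 * u + s := by
        calc (m : ℝ) * s ≤ (25 * u / s + 1) * s := by gcongr
          _ = 25 * u + s := by
              rw [add_mul, div_mul_cancel₀ _ hs0.ne', one_mul]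
      have hmsL : (m : ℝ) * s ≤ L := by
        have h1 : L / (t ^ 2 * x) ≤ L / 2 := by
          apply div_le_div_of_nonneg_left hL0.le (by norm_num)
          linarith
        linarith
      have hmL : (m : ℝ) ≤ L := by
        have h2 : (0 : ℝ) ≤ m := Nat.cast_nonneg m
        have h3 : (m : ℝ) ≤ m * s := le_mul_of_one_le_right h2 (by linarith)
        linarith
      have hfac : (m.factorial : ℝ) ≤ Real.exp (m * t) := by
        calc (m.factorial : ℝ) ≤ (m : ℝ) ^ m := by exact_mod_cast Nat.factorial_le_pow m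
          _ ≤ L ^ m := by gcongr
          _ = _ := hpowL m
      have h12 : (12 : ℝ) ^ m ≤ Real.exp (m * (5 / 2)) := by
        rw [Real.exp_nat_mul]
        exact pow_le_pow_left₀ (by norm_num) e25 m
      have hAL : A * m * s + 3 ≤ Real.exp ((2 : ℕ) * t) := by
        rw [← hpowL]
        calc A * m * s + 3 = A * (m * s) + 3 := by ring
          _ ≤ A * L + 3 := by gcongr
          _ ≤ A * L + L := by linarith
          _ ≤ L / 2 * L + L / 2 * L := by
              have h1 : A ≤ L / 2 := by linarith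
              have h2 : 1 ≤ L / 2 := by linarith
              apply add_le_add
              · gcongr
              · exact le_mul_of_one_le_left hL0.le h2
          _ = L ^ 2 := by ring
      have hk7 := pow7 _ _ (hk1 (j + 1))
      rw [hpowL]
      calc (m.factorial : ℝ) * 12 ^ m * (A * m * s + 3) * (7 / 10) ^ (k (j + 1)) *
            Real.exp ((8 : ℕ) * t)
          ≤ Real.exp (m * t) * Real.exp (m * (5 / 2)) * Real.exp ((2 : ℕ) * t) *
            Real.exp (-(35 / 100) * (u / A ^ (j + 1) + 40 * t)) * Real.exp ((8 : ℕ) * t) := by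
            gcongr
        _ = Real.exp (m * t + m * (5 / 2) + (2 : ℕ) * t +
              -(35 / 100) * (u / A ^ (j + 1) + 40 * t) + (8 : ℕ) * t) := by
            rw [Real.exp_add, Real.exp_add, Real.exp_add, Real.exp_add]
        _ ≤ Real.exp 0 := by
            apply Real.exp_le_exp.2
            push_cast
            have h1 : (m : ℝ) * t + m * (5 / 2) ≤ m * (2 * t) := by
              have h2 : (0 : ℝ) ≤ m := Nat.cast_nonneg m
              rw [← mul_add]
              exact mul_le_mul_of_nonneg_left (by linarith) h2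
            have h2 : (m : ℝ) * (2 * t) ≤ (25 * u / s + 1) * (2 * t) := by gcongr
            have h3 : 25 * u / s * (2 * t) ≤ 35 / 100 * (u / A ^ (j + 1)) := by
              have h4 : 25 * u / s * (2 * t) = 50 * u / (A ^ j * x) := by
                rw [hsdef]
                field_simp
                norm_num
              have h5 : 35 / 100 * (u / A ^ (j + 1)) = (35 / 100) * u / (A ^ j * A) := by
                rw [pow_succ]
                ring
              rw [h4, h5, div_le_div_iff₀ (by positivity) (by positivity)]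
              calc 50 * u * (A ^ j * A) = u * A ^ j * (50 * A) := by ring
                _ ≤ u * A ^ j * (35 / 100 * x) :=
                    mul_le_mul_of_nonneg_left (by linarith) (by positivity)
                _ = 35 / 100 * u * (A ^ j * x) := by ring
            have h6 : (25 * u / s + 1) * (2 * t) = 25 * u / s * (2 * t) + 2 * t := by ring
            linarith
        _ = 1 := Real.exp_zero
  · -- (6)
    rw [hux, hpowL]
    have h2 : (2 : ℝ) ^ KK k J ≤ Real.exp ((KK k J : ℝ) * (7 / 10)) := by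
      rw [Real.exp_nat_mul]
      apply pow_le_pow_left₀ (by norm_num)
      have h3 := Real.log_two_lt_d9
      rw [← Real.log_le_iff_le_exp (by norm_num)]
      linarith
    calc Real.exp (u / x) * 2 ^ KK k J * Real.exp ((8 : ℕ) * t)
        ≤ Real.exp (u / x) * Real.exp ((KK k J : ℝ) * (7 / 10)) * Real.exp ((8 : ℕ) * t) := by
          gcongr
      _ = Real.exp (u / x + (KK k J : ℝ) * (7 / 10) + (8 : ℕ) * t) := by
          rw [Real.exp_add, Real.exp_add]
      _ ≤ _ := by
          apply Real.exp_le_exp.2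
          push_cast
          have h3 : 8 * t ≤ u / 2 := by linarith
          linarith
  · -- (7)
    have h1 : 8 * L ≤ Real.exp (2 * t) := by
      have h2 := hpowL 2
      push_cast at h2
      rw [← h2, sq]
      gcongr
      linarith
    calc (8 * L) ^ (4 * KK k J) ≤ Real.exp (2 * t) ^ (4 * KK k J) := by gcongr
      _ = Real.exp (((4 * KK k J : ℕ) : ℝ) * (2 * t)) := by rw [Real.exp_nat_mul]
      _ ≤ _ := by
          apply Real.exp_le_exp.2
          push_cast
          calc 4 * (KK k J : ℝ) * (2 * t) ≤ 4 * (2 * u) * (2 * t) := by gcongr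
            _ = u * (t * 16) := by ring
            _ ≤ u * (t * (ε * x)) := by gcongr
            _ ≤ u * (t * (ε * x)) * (t * x) := by
                have h3 : 0 ≤ u * (t * (ε * x)) := by positivity
                exact le_mul_of_one_le_right h3 (by linarith)
            _ = ε * (u * (t ^ 2 * x ^ 2)) := by ring
            _ = ε * L := by rw [← hLu]
  · -- (8)
    intro j _
    have h1 : (k j : ℝ) ≤ L := by
      refine (hk2 j).trans ?_
      have h2 : u / A ^ j ≤ u := div_le_self hu0.le (one_le_pow₀ hA1.le)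
      linarith
    have h0 : (0 : ℝ) ≤ k j := Nat.cast_nonneg _
    calc 4 * (k j : ℝ) ^ 2 ≤ 4 * L ^ 2 := by gcongr
      _ ≤ L * L ^ 2 := by gcongr; linarith
      _ = L ^ 3 := by ring
      _ = Real.exp ((3 : ℕ) * t) := hpowL 3
      _ ≤ _ := by
          apply Real.exp_le_exp.2
          refine le_trans ?_ (hsj1 j)
          push_cast
          rw [mul_comm]
          gcongr
          linarith
  · -- (9)
    rw [pow_zero, one_mul]
    calc 200 * L ≤ L * L := by gcongr; linarith
      _ = L ^ 2 := by ring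
      _ = Real.exp ((2 : ℕ) * t) := hpowL 2
      _ ≤ _ := by
          apply Real.exp_le_exp.2
          push_cast
          rw [mul_comm]
          gcongr
          linarith
  · -- (10)
    rw [pow_zero, one_mul]
    linarith

end PAR_

open Filter in
theorem p_PAR : T_PAR := by
  intro A δ ε hA hδ _ hε
  have hx1 : Tendsto (fun t : ℝ => t ^ δ) atTop atTop := tendsto_rpow_atTop hδ
  have h1 : ∀ᶠ t : ℝ in atTop, 150 * A + 16 / ε ≤ t ^ δ := hx1.eventually_ge_atTop _
  have h2 : ∀ᶠ t : ℝ in atTop, 200 * t ^ 6 ≤ Real.exp t := by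
    have h := (Real.isLittleO_pow_exp_atTop (n := 6)).def (show (0 : ℝ) < 1 / 200 by norm_num)
    filter_upwards [h, eventually_ge_atTop 0] with t ht ht0
    rw [Real.norm_eq_abs, Real.norm_eq_abs, abs_of_nonneg (by positivity), Real.abs_exp] at ht
    linarith
  obtain ⟨t₀, ht₀⟩ := (h1.and (h2.and (eventually_ge_atTop (2 : ℝ)))).exists_forall_of_atTop
  refine ⟨max 3 (Real.exp t₀), le_max_left _ _, fun L hL => ?_⟩
  have hL0 : 0 < L := lt_of_lt_of_le (by norm_num) ((le_max_left _ _).trans hL)
  have hLt : Real.exp (Real.log L) = L := Real.exp_log hL0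
  have ht : t₀ ≤ Real.log L := by
    rw [← Real.exp_le_exp, hLt]
    exact (le_max_right _ _).trans hL
  obtain ⟨e1, e2, e3⟩ := ht₀ _ ht
  set t := Real.log L with htdef
  have ht0 : 0 < t := by linarith
  have hε16 : 0 < 16 / ε := by positivity
  have hδ1 : t ^ δ ≤ t := by
    calc t ^ δ ≤ t ^ (1 : ℝ) := Real.rpow_le_rpow_of_exponent_le (by linarith) ‹δ ≤ 1›
      _ = t := Real.rpow_one t
  obtain ⟨J, k, h⟩ := PAR_.core A ε t (t ^ δ) L hA hε (by linarith)
    (by
      have : 16 / ε ≤ t ^ δ := by linarith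
      rw [div_le_iff₀ hε] at this
      linarith) hδ1 hLt.symm (by rw [← hLt]; exact e2)
  have hs : ∀ j : ℕ, sj A δ L j = A ^ j * (t * t ^ δ) := by
    intro j
    unfold sj
    rw [Real.rpow_add ht0, Real.rpow_one]
  have hp : (Real.log L) ^ (2 + 3 * δ) = t ^ 2 * (t ^ δ) ^ 3 := by
    rw [← htdef, Real.rpow_add ht0, mul_comm 3 δ, Real.rpow_mul ht0.le]
    norm_cast
  refine ⟨J, k, ?_⟩
  unfold Prm
  simp only [hs, hp]
  exact h

end SSD
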