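import Pool.Agent.SSD.Targets

/-!
# MP_d74fca_nt: product structure of the families `FF` (helper71)
-/

set_option autoImplicit false

open scoped BigOperators Classical
open Finset

namespace SSD

open SSC

namespace PRD_

/-- the family over a finite set of indices -/
noncomputable def G (W : ℕ → Finset ℕ) (k : ℕ → ℕ) (s : Finset ℕ) : Finset (Finset ℕ) :=
  (s.biUnion W).powerset.filter fun U => ∀ j ∈ s, (U ∩ W j).card = k j

theorem mem_G (W : ℕ → Finset ℕ) (k : ℕ → ℕ) (s : Finset ℕ) (U : Finset ℕ) :
    U ∈ G W k s ↔ (∀ x ∈ U, ∃ j ∈ s, x ∈ W j) ∧ ∀ j ∈ s, (U ∩ W j).card = k j := by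
  unfold G
  rw [mem_filter, mem_powerset]
  constructor
  · rintro ⟨h1, h2⟩
    refine ⟨fun x hx => ?_, h2⟩
    have := h1 hx
    rwa [mem_biUnion] at this
  · rintro ⟨h1, h2⟩
    refine ⟨fun x hx => ?_, h2⟩
    rw [mem_biUnion]
    exact h1 x hx

theorem FF_eq (W : ℕ → Finset ℕ) (k : ℕ → ℕ) (J : ℕ) : FF W k J = G W k (range (J + 1)) := by
  ext U
  simp only [FF, G, mem_filter]

theorem wt_union {U T : Finset ℕ} (h : Disjoint U T) : wt (U ∪ T) = wt U * wt T := by
  unfold wt
  exact prod_union h

theorem card_G (W : ℕ → Finset ℕ) (k : ℕ → ℕ) (s : Finset ℕ)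
    (hW : ∀ i j, i ≠ j → Disjoint (W i) (W j)) (U : Finset ℕ) (hU : U ∈ G W k s) :
    U.card = ∑ j ∈ s, k j := by
  rw [mem_G] at hU
  have h1 : U = s.biUnion fun j => U ∩ W j := by
    ext x
    rw [mem_biUnion]
    constructor
    · intro hx
      obtain ⟨j, hj, hxj⟩ := hU.1 x hx
      exact ⟨j, hj, mem_inter.2 ⟨hx, hxj⟩⟩
    · rintro ⟨j, _, hx⟩
      exact (mem_inter.1 hx).1
  calc U.card = (s.biUnion fun j => U ∩ W j).card := by rw [← h1]
    _ = ∑ j ∈ s, (U ∩ W j).card := by
        apply card_biUnion
        intro i _ j _ hij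
        exact (hW i j hij).mono inter_subset_right inter_subset_right
    _ = ∑ j ∈ s, k j := sum_congr rfl fun j hj => hU.2 j hj

theorem sum_G (W : ℕ → Finset ℕ) (k : ℕ → ℕ) (s : Finset ℕ)
    (hW : ∀ i j, i ≠ j → Disjoint (W i) (W j)) :
    ∑ U ∈ G W k s, wt U = ∏ j ∈ s, em (W j) (k j) := by
  induction s using Finset.induction_on with
  | empty =>
    have h : G W k ∅ = {∅} := by
      ext U
      rw [mem_G, mem_singleton]
      constructor
      · rintro ⟨h1, _⟩
        rw [eq_empty_iff_forall_notMem]
        intro x hx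
        obtain ⟨j, hj, _⟩ := h1 x hx
        exact notMem_empty j hj
      · rintro rfl
        refine ⟨fun x hx => absurd hx (notMem_empty x), fun j hj => absurd hj (notMem_empty j)⟩
    rw [h, sum_singleton, prod_empty]
    unfold wt
    rw [prod_empty]
  | insert a s ha ih =>
    have hda : ∀ j ∈ s, ∀ x, x ∈ W a → x ∉ W j := by
      intro j hj x hx hx'
      have hne : a ≠ j := fun h => ha (h ▸ hj)
      exact Finset.disjoint_left.1 (hW a j hne) hx hx'
    rw [prod_insert ha, ← ih, mul_comm]
    unfold em
    rw [sum_mul_sum, ← sum_product']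
    refine sum_bij' (fun U _ => (U ∩ s.biUnion W, U ∩ W a)) (fun p _ => p.1 ∪ p.2) ?_ ?_ ?_ ?_ ?_
    · intro U hU
      rw [mem_G] at hU
      obtain ⟨h1, h2⟩ := hU
      rw [mem_product, mem_G, mem_powersetCard]
      refine ⟨⟨fun x hx => ?_, fun j hj => ?_⟩, inter_subset_right, h2 a (mem_insert_self a s)⟩
      · have := (mem_inter.1 hx).2
        rwa [mem_biUnion] at this
      · rw [← h2 j (mem_insert_of_mem hj)]
        congr 1
        ext x
        simp only [mem_inter, mem_biUnion]
        constructor
        · rintro ⟨⟨h3, _⟩, h4⟩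
          exact ⟨h3, h4⟩
        · rintro ⟨h3, h4⟩
          exact ⟨⟨h3, ⟨j, hj, h4⟩⟩, h4⟩
    · rintro ⟨V, T⟩ hp
      rw [mem_product, mem_G, mem_powersetCard] at hp
      obtain ⟨⟨h1, h2⟩, h3, h4⟩ := hp
      simp only at h1 h2 h3 h4
      rw [mem_G]
      refine ⟨fun x hx => ?_, fun j hj => ?_⟩
      · rcases mem_union.1 hx with hx | hx
        · obtain ⟨j, hj, hxj⟩ := h1 x hx
          exact ⟨j, mem_insert_of_mem hj, hxj⟩
        · exact ⟨a, mem_insert_self a s, h3 hx⟩
      · rcases mem_insert.1 hj with rfl | hj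
        · rw [← h4]
          congr 1
          ext x
          simp only [mem_inter, mem_union]
          constructor
          · rintro ⟨h5 | h5, h6⟩
            · obtain ⟨i, hi, hxi⟩ := h1 x h5
              exact absurd hxi (hda i hi x h6)
            · exact h5
          · intro h5
            exact ⟨Or.inr h5, h3 h5⟩
        · rw [← h2 j hj]
          congr 1
          ext x
          simp only [mem_inter, mem_union]
          constructor
          · rintro ⟨h5 | h5, h6⟩
            · exact ⟨h5, h6⟩
            · exact absurd h6 (hda j hj x (h3 h5))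
          · rintro ⟨h5, h6⟩
            exact ⟨Or.inl h5, h6⟩
    · intro U hU
      rw [mem_G] at hU
      ext x
      simp only [mem_union, mem_inter, mem_biUnion]
      constructor
      · rintro (⟨h, _⟩ | ⟨h, _⟩) <;> exact h
      · intro hx
        obtain ⟨j, hj, hxj⟩ := hU.1 x hx
        rcases mem_insert.1 hj with rfl | hj
        · exact Or.inr ⟨hx, hxj⟩
        · exact Or.inl ⟨hx, j, hj, hxj⟩
    · rintro ⟨V, T⟩ hp
      rw [mem_product, mem_G, mem_powersetCard] at hp
      obtain ⟨⟨h1, h2⟩, h3, h4⟩ := hp
      simp only at h1 h2 h3 h4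
      refine Prod.ext ?_ ?_
      · ext x
        simp only [mem_union, mem_inter, mem_biUnion]
        constructor
        · rintro ⟨h5 | h5, ⟨j, hj, h6⟩⟩
          · exact h5
          · exact absurd h6 (hda j hj x (h3 h5))
        · intro h5
          exact ⟨Or.inl h5, h1 x h5⟩
      · ext x
        simp only [mem_union, mem_inter]
        constructor
        · rintro ⟨h5 | h5, h6⟩
          · obtain ⟨i, hi, hxi⟩ := h1 x h5
            exact absurd hxi (hda i hi x h6)
          · exact h5
        · intro h5
          exact ⟨Or.inr h5, h3 h5⟩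
    · intro U hU
      have hU' := (mem_G _ _ _ _).1 hU
      simp only
      rw [← wt_union]
      · congr 1
        ext x
        simp only [mem_union, mem_inter, mem_biUnion]
        constructor
        · intro hx
          obtain ⟨j, hj, hxj⟩ := hU'.1 x hx
          rcases mem_insert.1 hj with rfl | hj
          · exact Or.inr ⟨hx, hxj⟩
          · exact Or.inl ⟨hx, j, hj, hxj⟩
        · rintro (⟨h, _⟩ | ⟨h, _⟩) <;> exact h
      · rw [Finset.disjoint_left]
        intro x hx hx'
        rw [mem_inter, mem_biUnion] at hx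
        obtain ⟨_, j, hj, hxj⟩ := hx
        exact hda j hj x (mem_inter.1 hx').2 hxj

/-- restriction of one of the sets -/
theorem G_update (W : ℕ → Finset ℕ) (k : ℕ → ℕ) (s : Finset ℕ)
    (hW : ∀ i j, i ≠ j → Disjoint (W i) (W j)) (i : ℕ) (hi : i ∈ s) (A : Finset ℕ)
    (hA : A ⊆ W i) :
    G (Function.update W i A) k s = (G W k s).filter fun U => U ∩ W i ⊆ A := by
  ext U
  rw [mem_filter, mem_G, mem_G]
  constructor
  · rintro ⟨h1, h2⟩
    have hsub : U ∩ W i ⊆ A := by
      intro x hx
      rw [mem_inter] at hx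
      obtain ⟨j, hj, hxj⟩ := h1 x hx.1
      by_cases hji : j = i
      · rw [hji, Function.update_self] at hxj
        exact hxj
      · rw [Function.update_of_ne hji] at hxj
        exact absurd hxj (Finset.disjoint_left.1 (hW i j (Ne.symm hji)) hx.2)
    refine ⟨⟨fun x hx => ?_, fun j hj => ?_⟩, hsub⟩
    · obtain ⟨j, hj, hxj⟩ := h1 x hx
      refine ⟨j, hj, ?_⟩
      by_cases hji : j = i
      · rw [hji, Function.update_self] at hxj
        rw [hji]
        exact hA hxj
      · rwa [Function.update_of_ne hji] at hxj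
    · by_cases hji : j = i
      · have h3 := h2 i hi
        rw [Function.update_self] at h3
        rw [hji, ← h3]
        congr 1
        ext x
        simp only [mem_inter]
        constructor
        · intro h
          exact ⟨h.1, hsub (mem_inter.2 h)⟩
        · intro h
          exact ⟨h.1, hA h.2⟩
      · have h3 := h2 j hj
        rwa [Function.update_of_ne hji] at h3
  · rintro ⟨⟨h1, h2⟩, hsub⟩
    refine ⟨fun x hx => ?_, fun j hj => ?_⟩
    · obtain ⟨j, hj, hxj⟩ := h1 x hx
      refine ⟨j, hj, ?_⟩
      by_cases hji : j = i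
      · rw [hji, Function.update_self]
        rw [hji] at hxj
        exact hsub (mem_inter.2 ⟨hx, hxj⟩)
      · rwa [Function.update_of_ne hji]
    · by_cases hji : j = i
      · rw [hji, Function.update_self, ← h2 i hi]
        congr 1
        ext x
        simp only [mem_inter]
        constructor
        · intro h
          exact ⟨h.1, hA h.2⟩
        · intro h
          exact ⟨h.1, hsub (mem_inter.2 h)⟩
      · rw [Function.update_of_ne hji]
        exact h2 j hj

end PRD_

open PRD_ in
theorem p_PRD : T_PRD := by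
  intro W k J hW
  rw [FF_eq]
  refine ⟨fun U hU => card_G W k _ hW U hU, sum_G W k _ hW, fun i hi A hA => ?_⟩
  have hW' : ∀ a b, a ≠ b → Disjoint (Function.update W i A a) (Function.update W i A b) := by
    intro a b hab
    have h : ∀ j, Function.update W i A j ⊆ W j := by
      intro j
      by_cases hji : j = i
      · rw [hji, Function.update_self]
        exact hA
      · rw [Function.update_of_ne hji]
    exact (hW a b hab).mono (h a) (h b)
  rw [← G_update W k _ hW i hi A hA, sum_G _ k _ hW', ← mul_prod_erase _ _ hi,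
    ← mul_prod_erase (range (J + 1)) (fun j => em (W j) (k j)) hi, Function.update_self]
  have h : ∏ x ∈ (range (J + 1)).erase i, em (Function.update W i A x) (k x) =
      ∏ x ∈ (range (J + 1)).erase i, em (W x) (k x) := by
    refine prod_congr rfl fun x hx => ?_
    rw [Function.update_of_ne (ne_of_mem_erase hx)]
  rw [h]
  ring

end SSD
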