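import Pool.Agent.SSD.Targets

/-! QCL: the mass of the class `QQ k` (job SSD-QCL, helper60). -/

set_option autoImplicit false

open scoped BigOperators Classical
open Finset

namespace SSD

open SSC

namespace QCL_

/-- the sum over the primes -/
noncomputable def S (g : ℕ → ℝ) (z Z : ℝ) : ℝ := ∑ l ∈ pri z Z, g l / l

/-- the main term -/
noncomputable def E (z Z : ℝ) : ℝ := Real.log (Real.log Z) - Real.log (Real.log z)

lemma mem_pri {u v : ℝ} (hv : 0 ≤ v) {l : ℕ} :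
    l ∈ pri u v ↔ l.Prime ∧ u < (l : ℝ) ∧ (l : ℝ) ≤ v := by
  unfold pri
  rw [Finset.mem_filter, Finset.mem_Icc, Nat.le_floor_iff hv]
  constructor
  · rintro ⟨⟨_, h2⟩, h3, h4⟩
    exact ⟨h3, h4, h2⟩
  · rintro ⟨h3, h4, h2⟩
    exact ⟨⟨h3.one_lt.le, h2⟩, h3, h4⟩

lemma S_split (g : ℕ → ℝ) {z w Z : ℝ} (hz : 0 ≤ z) (h1 : z ≤ w) (h2 : w ≤ Z) :
    S g z Z = S g z w + S g w Z := by
  unfold S
  rw [← Finset.sum_union]
  · congr 1
    ext l
    rw [Finset.mem_union, mem_pri (by linarith), mem_pri (by linarith), mem_pri (by linarith)]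
    constructor
    · rintro ⟨h3, h4, h5⟩
      rcases le_or_gt (l : ℝ) w with h | h
      · exact Or.inl ⟨h3, h4, h⟩
      · exact Or.inr ⟨h3, h, h5⟩
    · rintro (⟨h3, h4, h5⟩ | ⟨h3, h4, h5⟩)
      · exact ⟨h3, h4, h5.trans h2⟩
      · exact ⟨h3, lt_of_le_of_lt h1 h4, h5⟩
  · rw [Finset.disjoint_left]
    intro l hl hl'
    rw [mem_pri (by linarith)] at hl hl'
    linarith [hl.2.2, hl'.2.1]

lemma E_nonneg {z Z : ℝ} (hz : 3 ≤ z) (hZ : z ≤ Z) : 0 ≤ E z Z := by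
  unfold E
  have h1 : 0 < Real.log z := Real.log_pos (by linarith)
  have h2 : Real.log z ≤ Real.log Z := Real.log_le_log (by linarith) hZ
  have := Real.log_le_log h1 h2
  linarith

lemma mer (h : T_MER) : ∃ C : ℝ, 0 < C ∧ ∀ z Z : ℝ, 3 ≤ z → z ≤ Z →
    |S (fun _ => 1) z Z - E z Z| ≤ C := by
  obtain ⟨C, hC, h1⟩ := h
  refine ⟨2 * C, by positivity, fun z Z hz hZ => ?_⟩
  have h2 := abs_le.1 (h1 z (by linarith))
  have h3 := abs_le.1 (h1 Z (by linarith))
  have h4 := S_split (fun _ => 1) (z := 1) (w := z) (Z := Z) (by norm_num) (by linarith) hZ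
  have h5 : S (fun _ => 1) 1 z = ∑ l ∈ pri 1 z, 1 / (l : ℝ) := rfl
  have h6 : S (fun _ => 1) 1 Z = ∑ l ∈ pri 1 Z, 1 / (l : ℝ) := rfl
  rw [← h5] at h2
  rw [← h6] at h3
  unfold E
  rw [abs_le]
  constructor <;> linarith [h2.1, h2.2, h3.1, h3.2]

/-- number of prime divisors of `2k` -/
noncomputable def B (k : ℤ) : ℝ := ((2 * k).natAbs.primeFactors.card : ℝ)

/-- the indicator of the prime divisors of `2k` -/
noncomputable def er (k : ℤ) (l : ℕ) : ℝ := if (l : ℤ) ∣ 2 * k then 1 else 0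

lemma er_nonneg (k : ℤ) (l : ℕ) : 0 ≤ er k l := by
  unfold er
  split_ifs <;> norm_num

lemma er_sum (k : ℤ) (hk : k ≠ 0) {z Z : ℝ} (hz : 3 ≤ z) (hZ : z ≤ Z) : S (er k) z Z ≤ B k := by
  unfold S B
  have h1 : ∑ l ∈ pri z Z, er k l / l = ∑ l ∈ (pri z Z).filter (fun l : ℕ => (l : ℤ) ∣ 2 * k),
      1 / (l : ℝ) := by
    rw [Finset.sum_filter]
    refine Finset.sum_congr rfl (fun l _ => ?_)
    unfold er
    split_ifs <;> simp
  rw [h1]
  calc ∑ l ∈ (pri z Z).filter (fun l : ℕ => (l : ℤ) ∣ 2 * k), 1 / (l : ℝ)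
      ≤ ∑ l ∈ (pri z Z).filter (fun l : ℕ => (l : ℤ) ∣ 2 * k), (1 : ℝ) := by
        refine Finset.sum_le_sum (fun l hl => ?_)
        rw [Finset.mem_filter, mem_pri (by linarith)] at hl
        have : (1 : ℝ) ≤ l := by exact_mod_cast hl.1.1.one_lt.le
        rw [div_le_one (by linarith)]
        exact this
    _ = (((pri z Z).filter (fun l : ℕ => (l : ℤ) ∣ 2 * k)).card : ℝ) := by simp
    _ ≤ _ := by
        have : (pri z Z).filter (fun l : ℕ => (l : ℤ) ∣ 2 * k) ⊆ (2 * k).natAbs.primeFactors := by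
          intro l hl
          rw [Finset.mem_filter, mem_pri (by linarith)] at hl
          rw [Nat.mem_primeFactors]
          refine ⟨hl.1.1, ?_, ?_⟩
          · exact Int.natCast_dvd.1 hl.2
          · intro h0
            have := Int.natAbs_eq_zero.1 h0
            omega
        exact_mod_cast Finset.card_le_card this

lemma kr_abs (k : ℤ) (l : ℕ) : |(kr k l : ℝ)| ≤ 1 := by
  unfold kr
  split_ifs
  · simp
  · rcases jacobiSym.trichotomy k l with h | h | h <;> rw [h] <;> norm_num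

lemma kr_mul (x y : ℤ) (l : ℕ) : (kr x l : ℝ) * kr y l = kr (x * y) l := by
  unfold kr
  split_ifs
  · simp
  · rw [jacobiSym.mul_left]
    push_cast
    ring

lemma S_add (g h : ℕ → ℝ) (z Z : ℝ) : S (fun l => g l + h l) z Z = S g z Z + S h z Z := by
  unfold S
  rw [← Finset.sum_add_distrib]
  refine Finset.sum_congr rfl (fun l _ => ?_)
  ring

lemma S_smul (c : ℝ) (g : ℕ → ℝ) (z Z : ℝ) : S (fun l => c * g l) z Z = c * S g z Z := by
  unfold S
  rw [Finset.mul_sum]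
  refine Finset.sum_congr rfl (fun l _ => ?_)
  ring

lemma S_mono (g h : ℕ → ℝ) {z Z : ℝ} (hz : 3 ≤ z) (hZ : z ≤ Z)
    (hgh : ∀ l : ℕ, l.Prime → g l ≤ h l) : S g z Z ≤ S h z Z := by
  unfold S
  refine Finset.sum_le_sum (fun l hl => ?_)
  rw [mem_pri (by linarith)] at hl
  have := hgh l hl.1
  gcongr

lemma kr_sq (k : ℤ) (hk : IsSquare k) (l : ℕ) (hl : l.Prime) (hd : ¬ (l : ℤ) ∣ 2 * k) :
    kr k l = 1 := by
  obtain ⟨y, rfl⟩ := hk
  have h2 : l ≠ 2 := by
    rintro rfl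
    exact hd (Dvd.intro _ rfl)
  have hodd : ¬ Even l := by
    rw [Nat.not_even_iff_odd]
    exact hl.odd_of_ne_two h2
  unfold kr
  rw [if_neg hodd, ← sq]
  apply jacobiSym.sq_one'
  have h3 : ¬ (l : ℤ) ∣ y := fun h => hd (Dvd.dvd.mul_left (Dvd.dvd.mul_left h y) 2)
  have h4 : ¬ l ∣ y.natAbs := fun h => h3 (Int.natCast_dvd.2 h)
  have := (Nat.Prime.coprime_iff_not_dvd hl).2 h4
  rw [Int.gcd_eq_natAbs]
  simpa [Nat.Coprime] using this.symm

lemma gen (h_KRN : T_KRN) (h_CHLG : T_CHLG) (h_MER : T_MER) (k : ℤ) (hk : k ≠ 0) :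
    ∃ C : ℝ, 0 < C ∧ ∀ z Z : ℝ, 3 ≤ z → z ≤ Z →
      |S (fun l => (kr k l : ℝ)) z Z - (if IsSquare k then 1 else 0) * E z Z| ≤ C := by
  by_cases hs : IsSquare k
  · obtain ⟨C, hC, hM⟩ := mer h_MER
    have hB : 0 ≤ B k := by unfold B; positivity
    refine ⟨C + 2 * B k, by positivity, fun z Z hz hZ => ?_⟩
    rw [if_pos hs, one_mul]
    have h1 := abs_le.1 (hM z Z hz hZ)
    have h2 := er_sum k hk hz hZ
    have h3 : S (fun l => (kr k l : ℝ)) z Z ≤ S (fun l => 1 + 2 * er k l) z Z := by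
      refine S_mono _ _ hz hZ (fun l _ => ?_)
      have := abs_le.1 (kr_abs k l)
      have := er_nonneg k l
      linarith
    have h4 : S (fun _ => 1) z Z ≤ S (fun l => (kr k l : ℝ) + 2 * er k l) z Z := by
      refine S_mono _ _ hz hZ (fun l hl => ?_)
      by_cases hd : (l : ℤ) ∣ 2 * k
      · unfold er
        rw [if_pos hd]
        have := abs_le.1 (kr_abs k l)
        linarith
      · rw [kr_sq k hs l hl hd]
        have := er_nonneg k l
        push_cast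
        linarith
    rw [S_add, S_smul] at h3 h4
    rw [abs_le]
    constructor <;> linarith [h1.1, h1.2]
  · obtain ⟨C, hC, h1⟩ := h_CHLG _ _ (h_KRN k hs)
    refine ⟨C, hC, fun z Z hz hZ => ?_⟩
    rw [if_neg hs, zero_mul, sub_zero]
    exact h1 z Z hz hZ

lemma triv (g : ℕ → ℝ) (hg : ∀ l, g l ≤ 1) {z Z : ℝ} (hz : 3 ≤ z) (hZ : z ≤ Z) : S g z Z ≤ Z := by
  unfold S
  calc ∑ l ∈ pri z Z, g l / l ≤ ∑ l ∈ pri z Z, (1 : ℝ) := by
        refine Finset.sum_le_sum (fun l hl => ?_)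
        rw [mem_pri (by linarith)] at hl
        have h1 : (1 : ℝ) ≤ l := by exact_mod_cast hl.1.one_lt.le
        rw [div_le_one (by linarith)]
        exact (hg l).trans h1
    _ = ((pri z Z).card : ℝ) := by simp
    _ ≤ ((Icc 1 ⌊Z⌋₊).card : ℝ) := by
        unfold pri
        exact_mod_cast Finset.card_filter_le _ _
    _ ≤ Z := by
        rw [Nat.card_Icc]
        simpa using Nat.floor_le (by linarith : (0 : ℝ) ≤ Z)

lemma not_sq (p : ℕ) (hp : p.Prime) (k : ℤ) (hk : ¬ (p : ℤ) ∣ k) : ¬ IsSquare ((p : ℤ) * k) := by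
  rintro ⟨y, hy⟩
  have hp' : Prime (p : ℤ) := Nat.prime_iff_prime_int.1 hp
  have h1 : (p : ℤ) ∣ y * y := ⟨k, hy.symm⟩
  have h2 : (p : ℤ) ∣ y := by
    rcases hp'.dvd_or_dvd h1 with h | h <;> exact h
  obtain ⟨w, rfl⟩ := h2
  have h3 : (p : ℤ) ≠ 0 := by exact_mod_cast hp.ne_zero
  have h4 : k = p * (w * w) := by
    have : (p : ℤ) * k = p * (p * (w * w)) := by rw [hy]; ring
    exact mul_left_cancel₀ h3 this
  exact hk ⟨_, h4⟩

lemma PP (h_KRN : T_KRN) (h_CHIG : T_CHIG) (h_MER : T_MER) (k : ℤ) (hk : k ≠ 0) :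
    ∃ C : ℝ, 0 < C ∧ ∀ p : ℕ, p.Prime → ¬ (p : ℤ) ∣ k → ∀ z Z : ℝ, 3 ≤ z → z ≤ Z → (p : ℝ) ≤ z →
      S (fun l => (kr ((p : ℤ) * k) l : ℝ)) z Z ≤ C := by
  obtain ⟨C₀, hC₀, hM⟩ := mer h_MER
  obtain ⟨C₁, hC₁, hI⟩ := h_CHIG
  set m : ℝ := 4 * (k.natAbs : ℝ) with hm
  have hk1 : (1 : ℝ) ≤ (k.natAbs : ℝ) := by
    have : 1 ≤ k.natAbs := Int.natAbs_pos.2 hk
    exact_mod_cast this
  refine ⟨C₀ + C₁ + m, by positivity, fun p hp hpk z Z hz hZ hpz => ?_⟩
  have hle : ∀ l, (kr ((p : ℤ) * k) l : ℝ) ≤ 1 := fun l => (abs_le.1 (kr_abs _ l)).2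
  have main : ∀ w : ℝ, m ≤ w → 3 ≤ w → (p : ℝ) ≤ w → w ≤ Z →
      S (fun l => (kr ((p : ℤ) * k) l : ℝ)) w Z ≤ C₀ + C₁ := by
    intro w hmw hw3 hpw hwZ
    have hRC := h_KRN _ (not_sq p hp k hpk)
    have hq : ((4 * ((p : ℤ) * k).natAbs : ℕ) : ℝ) ≤ w ^ 2 := by
      rw [Int.natAbs_mul, Int.natAbs_natCast]
      push_cast
      have hp0 : (0 : ℝ) ≤ p := by positivity
      have hw0 : 0 ≤ w := by linarith
      calc (4 : ℝ) * (p * (k.natAbs : ℝ)) = p * m := by rw [hm]; ring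
        _ ≤ w * w := mul_le_mul hpw hmw (by positivity) hw0
        _ = w ^ 2 := by ring
    have h1 := hI _ _ w Z hRC hq hw3 hwZ
    have h2 : ∑ l ∈ pri w Z, (1 + (kr ((p : ℤ) * k) l : ℝ)) / l =
        S (fun _ => 1) w Z + S (fun l => (kr ((p : ℤ) * k) l : ℝ)) w Z := by
      rw [← S_add]
      rfl
    rw [h2] at h1
    have h3 := abs_le.1 (hM w Z hw3 hwZ)
    unfold E at h3
    linarith [h3.1]
  rcases le_or_gt m z with h | h
  · have := main z h hz hpz hZ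
    have : 0 ≤ m := by positivity
    linarith
  · rcases le_or_gt Z m with h' | h'
    · have := triv _ hle hz hZ
      linarith
    · rw [S_split _ (by linarith) h.le h'.le]
      have h1 := triv _ hle hz h.le
      have h2 := main m le_rfl (by linarith) (by linarith) h'.le
      linarith

/-- the identity for the indicator of `QQ k` -/
lemma ind (k : ℤ) (l : ℕ) (hl : l.Prime) :
    |(if l ∈ QQ k then (1 : ℝ) else 0) - (1 + kr (-1) l) * (1 + kr k l) / 4| ≤ er k l := by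
  by_cases hd : (l : ℤ) ∣ 2 * k
  · have h1 := abs_le.1 (kr_abs (-1) l)
    have h2 := abs_le.1 (kr_abs k l)
    unfold er
    rw [if_pos hd, abs_le]
    split_ifs <;> constructor <;> nlinarith [h1.1, h1.2, h2.1, h2.2]
  · have h2 : l ≠ 2 := by
      rintro rfl
      exact hd (Dvd.intro _ rfl)
    have hodd : Odd l := hl.odd_of_ne_two h2
    have hne : ¬ Even l := Nat.not_even_iff_odd.2 hodd
    have h3 : ¬ (l : ℤ) ∣ k := fun h => hd (Dvd.dvd.mul_left h 2)
    have h4 : ¬ l ∣ k.natAbs := fun h => h3 (Int.natCast_dvd.2 h)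
    have hcop : k.gcd l = 1 := by
      rw [Int.gcd_eq_natAbs]
      simpa [Nat.Coprime] using ((Nat.Prime.coprime_iff_not_dvd hl).2 h4).symm
    have hb : kr k l = jacobiSym k l := by
      unfold kr
      rw [if_neg hne]
    have ha : kr (-1) l = ZMod.χ₄ l := by
      unfold kr
      rw [if_neg hne, jacobiSym.at_neg_one hodd]
    have hz : (if l ∈ QQ k then (1 : ℝ) else 0) - (1 + kr (-1) l) * (1 + kr k l) / 4 = 0 := by
      have hmod : l % 4 = 1 ∨ l % 4 = 3 := by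
        rcases hodd with ⟨m, hm⟩
        omega
      rcases hmod with h | h
      · rw [ha, ZMod.χ₄_nat_one_mod_four h, hb]
        rcases jacobiSym.eq_one_or_neg_one hcop with h5 | h5
        · rw [if_pos (show l ∈ QQ k from ⟨hl, h, h5⟩), h5]
          norm_num
        · rw [if_neg (show l ∉ QQ k from fun h6 => by
            have := h6.2.2
            rw [h5] at this
            norm_num at this), h5]
          norm_num
      · rw [ha, ZMod.χ₄_nat_three_mod_four h]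
        rw [if_neg (show l ∉ QQ k from fun h6 => by
            have := h6.2.1
            omega)]
        norm_num
    rw [hz, abs_zero]
    exact er_nonneg k l

lemma sum_ind (P : ℕ → Prop) [DecidablePred P] (z Z : ℝ) :
    ∑ l ∈ (pri z Z).filter P, 1 / (l : ℝ) =
      S (fun l => if P l then (1 : ℝ) else 0) z Z := by
  unfold S
  rw [Finset.sum_filter]
  refine Finset.sum_congr rfl (fun l _ => ?_)
  by_cases h : P l
  · rw [if_pos h]
    simp only [if_pos h]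
  · rw [if_neg h]
    simp only [if_neg h, zero_div]

end QCL_

open QCL_ in
theorem p_QCL (h_KRN : T_KRN) (h_CHIG : T_CHIG) (h_CHLG : T_CHLG) (h_MER : T_MER) : T_QCL := by
  intro k hk
  obtain ⟨C₀, hC₀, hM⟩ := mer h_MER
  obtain ⟨C₁, hC₁, h1⟩ := gen h_KRN h_CHLG h_MER (-1) (by norm_num)
  obtain ⟨C₂, hC₂, h2⟩ := gen h_KRN h_CHLG h_MER k hk
  obtain ⟨C₃, hC₃, h3⟩ := gen h_KRN h_CHLG h_MER (-k) (by simpa using hk)
  obtain ⟨D₁, hD₁, g1⟩ := PP h_KRN h_CHIG h_MER (-1) (by norm_num)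
  obtain ⟨D₂, hD₂, g2⟩ := PP h_KRN h_CHIG h_MER 1 (by norm_num)
  obtain ⟨D₃, hD₃, g3⟩ := PP h_KRN h_CHIG h_MER k hk
  obtain ⟨D₄, hD₄, g4⟩ := PP h_KRN h_CHIG h_MER (-k) (by simpa using hk)
  set s₁ : ℝ := if IsSquare (-1 : ℤ) then 1 else 0 with hs₁
  set s₂ : ℝ := if IsSquare k then 1 else 0 with hs₂
  set s₃ : ℝ := if IsSquare (-k) then 1 else 0 with hs₃
  have hs₁0 : 0 ≤ s₁ := by rw [hs₁]; split_ifs <;> norm_num
  have hs₂0 : 0 ≤ s₂ := by rw [hs₂]; split_ifs <;> norm_num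
  have hs₃0 : 0 ≤ s₃ := by rw [hs₃]; split_ifs <;> norm_num
  have hB : 0 ≤ B k := by unfold B; positivity
  refine ⟨(1 + s₁ + s₂ + s₃) / 4, C₀ + C₁ + C₂ + C₃ + D₁ + D₂ + D₃ + D₄ + B k, by positivity,
    by positivity, ?_, ?_⟩
  · intro z Z hz hZ
    rw [sum_ind (fun l => l ∈ QQ k)]
    have e0 := abs_le.1 (hM z Z hz hZ)
    have e1 := abs_le.1 (h1 z Z hz hZ)
    have e2 := abs_le.1 (h2 z Z hz hZ)
    have e3 := abs_le.1 (h3 z Z hz hZ)
    have e4 := er_sum k hk hz hZ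
    have key : S (fun l => 1 / 4 * (1 + ((kr (-1) l : ℝ) + ((kr k l : ℝ) + (kr (-k) l : ℝ))))) z Z ≤
        S (fun l => (if l ∈ QQ k then (1 : ℝ) else 0) + er k l) z Z := by
      refine S_mono _ _ hz hZ (fun l hl => ?_)
      have h5 := abs_le.1 (ind k l hl)
      have h6 := kr_mul (-1) k l
      rw [show (-1 : ℤ) * k = -k by ring] at h6
      rw [← h6]
      linarith [h5.1]
    rw [S_smul, S_add, S_add, S_add, S_add] at key
    have h7 : Real.log (Real.log Z) - Real.log (Real.log z) = E z Z := rfl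
    rw [h7]
    nlinarith [e0.1, e1.1, e2.1, e3.1]
  · intro p hp hp2 hpk z Z hz hZ hpz
    rw [sum_ind (fun l => l ∈ QQ k ∧ SSN.ch p l = 1)]
    have e0 := abs_le.1 (hM z Z hz hZ)
    have e1 := abs_le.1 (h1 z Z hz hZ)
    have e2 := abs_le.1 (h2 z Z hz hZ)
    have e3 := abs_le.1 (h3 z Z hz hZ)
    have e4 := er_sum k hk hz hZ
    have hpu : ¬ (p : ℤ) ∣ 1 := by
      intro h
      have h8 : p ∣ 1 := by exact_mod_cast h
      exact hp.one_lt.ne' (Nat.dvd_one.1 h8)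
    have f1 := g1 p hp (fun h => hpu (by simpa using h)) z Z hz hZ hpz
    have f2 := g2 p hp hpu z Z hz hZ hpz
    have f3 := g3 p hp hpk z Z hz hZ hpz
    have f4 := g4 p hp (fun h => hpk (by simpa using h)) z Z hz hZ hpz
    have key : S (fun l => if l ∈ QQ k ∧ SSN.ch p l = 1 then (1 : ℝ) else 0) z Z ≤
        S (fun l => 1 / 8 * ((1 + ((kr (-1) l : ℝ) + ((kr k l : ℝ) + (kr (-k) l : ℝ)))) +
          ((kr ((p : ℤ) * (-1)) l : ℝ) + ((kr ((p : ℤ) * 1) l : ℝ) +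
            ((kr ((p : ℤ) * k) l : ℝ) + (kr ((p : ℤ) * (-k)) l : ℝ))))) + er k l) z Z := by
      refine S_mono _ _ hz hZ (fun l hl => ?_)
      have h5 := abs_le.1 (ind k l hl)
      have hch : SSN.ch p l = kr ((p : ℤ) * (-1)) l := by
        unfold SSN.ch kr
        rw [show (p : ℤ) * (-1) = -(p : ℤ) by ring]
      have m1 := kr_mul (-1) k l
      have m2 := kr_mul (-1) ((p : ℤ) * (-1)) l
      have m3 := kr_mul k ((p : ℤ) * (-1)) l
      have m4 := kr_mul (-1) ((p : ℤ) * k * (-1)) l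
      have m5 := kr_mul k ((p : ℤ) * 1) l
      rw [show (-1 : ℤ) * k = -k by ring] at m1
      rw [show (-1 : ℤ) * ((p : ℤ) * (-1)) = (p : ℤ) * 1 by ring] at m2
      rw [show k * ((p : ℤ) * (-1)) = (p : ℤ) * (-k) by ring] at m3
      rw [show k * ((p : ℤ) * 1) = (p : ℤ) * k by ring] at m5
      have hc := abs_le.1 (kr_abs ((p : ℤ) * (-1)) l)
      have her := er_nonneg k l
      rw [← m1, ← m2, ← m3, ← m5, ← m2]
      have h9 : (if l ∈ QQ k ∧ SSN.ch p l = 1 then (1 : ℝ) else 0) ≤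
          (if l ∈ QQ k then (1 : ℝ) else 0) * ((1 + (kr ((p : ℤ) * (-1)) l : ℝ)) / 2) := by
        by_cases hq : l ∈ QQ k
        · by_cases hq2 : SSN.ch p l = 1
          · rw [if_pos ⟨hq, hq2⟩, if_pos hq, ← hch, hq2]
            norm_num
          · rw [if_neg (fun h => hq2 h.2), if_pos hq]
            linarith [hc.1]
        · rw [if_neg (fun h => hq h.1), if_neg hq]
          simp
      refine h9.trans ?_
      have h10 : (if l ∈ QQ k then (1 : ℝ) else 0) ≤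
          (1 + kr (-1) l) * (1 + kr k l) / 4 + er k l := by linarith [h5.2]
      have h11 := mul_le_mul_of_nonneg_right h10
        (show 0 ≤ (1 + (kr ((p : ℤ) * (-1)) l : ℝ)) / 2 by linarith [hc.1])
      refine h11.trans ?_
      nlinarith [hc.2]
    rw [S_add, S_smul, S_add, S_add, S_add, S_add, S_add, S_add, S_add] at key
    have h7 : Real.log (Real.log Z) - Real.log (Real.log z) = E z Z := rfl
    rw [h7]
    nlinarith [e0.2, e1.2, e2.2, e3.2]

end SSD
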