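import Pool.Agent.SSD.Targets
import Pool.Agent.SSC.ESY

/-!
# RAT: ratios of elementary symmetric functions
-/

set_option autoImplicit false

open scoped BigOperators Classical
open Finset

namespace SSD

open SSC

namespace RAT_

/-- lower bound -/
theorem low (W : Finset ℕ) (k : ℕ) (s : ℝ) (hW : ∀ l ∈ W, Real.exp s < (l : ℝ))
    (hw : 1 ≤ ∑ l ∈ W, 1 / (l : ℝ)) (hk : 4 * (k : ℝ) ^ 2 ≤ Real.exp s) :
    3 / 4 * ((∑ l ∈ W, 1 / (l : ℝ)) ^ k / k.factorial) ≤ em W k := by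
  set w := ∑ l ∈ W, 1 / (l : ℝ) with hwdef
  set δ := Real.exp (-s) with hδ
  have hδ0 : 0 < δ := Real.exp_pos _
  have hes : Real.exp s * δ = 1 := by rw [hδ, ← Real.exp_add]; simp
  have hx : ∀ l ∈ W, 0 ≤ 1 / (l : ℝ) ∧ 1 / (l : ℝ) ≤ δ := by
    intro l hl
    have h1 := hW l hl
    have h2 : (0 : ℝ) < l := (Real.exp_pos s).trans h1
    refine ⟨by positivity, ?_⟩
    rw [div_le_iff₀ h2]
    nlinarith
  have hkk : (k : ℝ) ^ 2 * δ ≤ 1 / 4 := by
    have := mul_le_mul_of_nonneg_right hk hδ0.le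
    rw [hes] at this
    nlinarith
  have hkd : (k : ℝ) * δ ≤ 1 / 4 := by
    rcases Nat.eq_zero_or_pos k with h0 | h0
    · subst h0; norm_num
    · have h1 : (1 : ℝ) ≤ k := by exact_mod_cast h0
      have h2 : (k : ℝ) * δ ≤ (k : ℝ) ^ 2 * δ :=
        mul_le_mul_of_nonneg_right (by nlinarith) hδ0.le
      linarith
  obtain ⟨-, h2⟩ := SSC.p_ESY W (fun l => 1 / (l : ℝ)) δ k hδ0.le hx
  have h3 := h2 (by rw [← hwdef]; linarith)
  have hw0 : 0 < w := by linarith
  have hfac : (0 : ℝ) < k.factorial := by exact_mod_cast k.factorial_pos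
  have h4 : 3 / 4 * w ^ k ≤ (w - k * δ) ^ k := by
    have e1 : w - k * δ = w * (1 + (-(k * δ / w))) := by field_simp; ring
    rw [e1, mul_pow]
    have h5 : 0 ≤ (k : ℝ) * δ / w := by positivity
    have h6 : (k : ℝ) * δ / w ≤ k * δ := div_le_self (by positivity) hw
    have h7 : 1 + (k : ℝ) * (-(k * δ / w)) ≤ (1 + (-(k * δ / w))) ^ k :=
      one_add_mul_le_pow (by linarith) k
    have h8 : (k : ℝ) * (k * δ / w) ≤ 1 / 4 := by
      have := mul_le_mul_of_nonneg_left h6 (Nat.cast_nonneg (α := ℝ) k)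
      nlinarith
    have h9 : 3 / 4 ≤ (1 + (-(k * δ / w))) ^ k := by linarith
    have h10 : 0 < w ^ k := pow_pos hw0 k
    nlinarith
  calc 3 / 4 * (w ^ k / k.factorial) = (3 / 4 * w ^ k) / k.factorial := by ring
    _ ≤ (w - k * δ) ^ k / k.factorial := by gcongr
    _ ≤ em W k := h3

theorem fac (k : ℕ) (hk : 1 ≤ k) :
    Real.exp (-(k * (Real.log (k + 1) + 1))) ≤ 3 / 4 * (1 / k.factorial) := by
  have h1 : (k.factorial : ℝ) ≤ ((k : ℝ) + 1) ^ k := by
    have h2 : k.factorial ≤ k ^ k := Nat.factorial_le_pow k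
    have h3 : (k.factorial : ℝ) ≤ (k : ℝ) ^ k := by exact_mod_cast h2
    refine h3.trans ?_
    gcongr
    linarith
  have hf : (0 : ℝ) < k.factorial := by exact_mod_cast k.factorial_pos
  have h4 : Real.exp (k * Real.log (k + 1)) = ((k : ℝ) + 1) ^ k := by
    rw [mul_comm, Real.exp_mul, Real.exp_log (by positivity), Real.rpow_natCast]
  have h5 : Real.exp (-(k * (Real.log (k + 1) + 1))) =
      1 / ((k : ℝ) + 1) ^ k * Real.exp (-(k : ℝ)) := by
    rw [← h4, one_div, ← Real.exp_neg, ← Real.exp_add]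
    congr 1
    ring
  have h6 : Real.exp (-(k : ℝ)) ≤ 3 / 4 := by
    have h7 : (1 : ℝ) ≤ k := by exact_mod_cast hk
    have h8 : Real.exp (-(k : ℝ)) ≤ Real.exp (-1) := Real.exp_le_exp.mpr (by linarith)
    have h9 : Real.exp (-1) < 0.3678794412 := Real.exp_neg_one_lt_d9
    linarith
  rw [h5, mul_comm]
  apply mul_le_mul h6 _ (by positivity) (by norm_num)
  exact one_div_le_one_div_of_le hf h1

end RAT_

theorem p_RAT : T_RAT := by
  intro W A k s hAW hW hw hk
  have hlow := RAT_.low W k s hW hw hk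
  set w := ∑ l ∈ W, 1 / (l : ℝ) with hwdef
  have hw0 : 0 < w := by linarith
  have hfac : (0 : ℝ) < k.factorial := by exact_mod_cast k.factorial_pos
  constructor
  · intro c hc hcA
    have hx : ∀ l ∈ A, 0 ≤ 1 / (l : ℝ) ∧ 1 / (l : ℝ) ≤ Real.exp (-s) := by
      intro l hl
      have h1 := hW l (hAW hl)
      have h2 : (0 : ℝ) < l := (Real.exp_pos s).trans h1
      refine ⟨by positivity, ?_⟩
      rw [Real.exp_neg, ← one_div]
      exact one_div_le_one_div_of_le (Real.exp_pos s) h1.le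
    obtain ⟨h1, -⟩ := SSC.p_ESY A (fun l => 1 / (l : ℝ)) (Real.exp (-s)) k (Real.exp_pos _).le hx
    have ha0 : 0 ≤ ∑ l ∈ A, 1 / (l : ℝ) := Finset.sum_nonneg fun l hl => (hx l hl).1
    have h2 : (∑ l ∈ A, 1 / (l : ℝ)) ^ k / k.factorial ≤ (c * w) ^ k / k.factorial := by
      gcongr
    have h3 : 0 ≤ c ^ k := pow_nonneg hc k
    have h4 : 0 ≤ w ^ k / k.factorial := by positivity
    calc em A k ≤ (∑ l ∈ A, 1 / (l : ℝ)) ^ k / k.factorial := h1
      _ ≤ (c * w) ^ k / k.factorial := h2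
      _ = c ^ k * (w ^ k / k.factorial) := by rw [mul_pow]; ring
      _ ≤ 2 * c ^ k * (3 / 4 * (w ^ k / k.factorial)) := by nlinarith [mul_nonneg h3 h4]
      _ ≤ 2 * c ^ k * em W k := by gcongr
  · rcases Nat.eq_zero_or_pos k with h0 | h0
    · subst h0
      simp [em, wt]
    · refine (RAT_.fac k h0).trans (le_trans ?_ hlow)
      have h1 : 1 ≤ w ^ k := one_le_pow₀ hw
      gcongr

end SSD
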