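import Pool.Agent.SSD.Targets

/-!
# RRL: sum of the primes `a`
-/

set_option autoImplicit false

open scoped BigOperators Classical
open Finset

namespace SSD

open SSC

namespace RRL_

theorem finite_le (S : Set ℕ) (x : ℝ) : {p : ℕ | p ∈ S ∧ (p : ℝ) ≤ x}.Finite := by
  apply (Set.finite_Iic ⌊x⌋₊).subset
  rintro p ⟨-, hp⟩
  exact Nat.le_floor hp

theorem card_le_NS {S : Set ℕ} {x : ℝ} (I : Finset ℕ) (h : ∀ p ∈ I, p ∈ S ∧ (p : ℝ) ≤ x) :
    (I.card : ℝ) ≤ NS S x := by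
  have h' : (I : Set ℕ).ncard ≤ {p : ℕ | p ∈ S ∧ (p : ℝ) ≤ x}.ncard := by
    apply Set.ncard_le_ncard _ (finite_le S x)
    intro p hp
    exact h p (Finset.mem_coe.1 hp)
  rw [Set.ncard_coe_finset] at h'
  unfold NS
  exact_mod_cast h'

/-- the number of elements of `AA` -/
theorem card_AA (S : Set ℕ) {Y : ℝ} (hY : 1 ≤ Y) :
    ((pri (Y / 16) Y).card : ℝ) - NS S (16 * Y ^ 4) ≤ ((AA S Y).card : ℝ) := by
  have h1 : ((pri (Y / 16) Y).filter fun l : ℕ => l ∈ S).card + (AA S Y).card =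
      (pri (Y / 16) Y).card := by
    unfold AA
    exact Finset.card_filter_add_card_filter_not (s := pri (Y / 16) Y) (fun l : ℕ => l ∈ S)
  have h2 : (((pri (Y / 16) Y).filter fun l : ℕ => l ∈ S).card : ℝ) ≤ NS S (16 * Y ^ 4) := by
    apply card_le_NS
    intro p hp
    obtain ⟨hp1, hp2⟩ := Finset.mem_filter.1 hp
    refine ⟨hp2, ?_⟩
    unfold pri at hp1
    obtain ⟨hp3, -⟩ := Finset.mem_filter.1 hp1
    have hp4 := (Finset.mem_Icc.1 hp3).2
    have hp5 : (p : ℝ) ≤ Y := (Nat.le_floor_iff (by linarith)).1 hp4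
    have h4 : Y ≤ Y ^ 4 := by
      calc Y = Y ^ 1 := (pow_one Y).symm
        _ ≤ Y ^ 4 := pow_le_pow_right₀ hY (by norm_num)
    have h0 : 0 ≤ Y ^ 4 := by positivity
    linarith
  have h3 : (((pri (Y / 16) Y).filter fun l : ℕ => l ∈ S).card : ℝ) + ((AA S Y).card : ℝ) =
      ((pri (Y / 16) Y).card : ℝ) := by exact_mod_cast h1
  linarith

/-- lower bound by the number of elements -/
theorem RR_ge (S : Set ℕ) (Y : ℝ) : ((AA S Y).card : ℝ) * (Y / 16) ≤ RR S Y := by
  unfold RR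
  have h := Finset.card_nsmul_le_sum (AA S Y) (fun a : ℕ => (a : ℝ)) (Y / 16) (by
    intro a ha
    unfold AA at ha
    obtain ⟨ha1, -⟩ := Finset.mem_filter.1 ha
    unfold pri at ha1
    exact (Finset.mem_filter.1 ha1).2.2.le)
  rwa [nsmul_eq_mul] at h

end RRL_

open RRL_

theorem p_RRL (h1 : SSC.T_CHEB) : T_RRL := by
  intro η hη
  obtain ⟨c, Y₁, hc, hY₁, hcheb⟩ := h1
  refine ⟨max (max 32 Y₁) (Real.exp (max (max (32 / c) 1) (Real.exp (2 ^ (1 / η : ℝ))))),
    (le_max_left _ _).trans (le_max_left _ _), ?_⟩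
  intro Y S hY hNS
  have hY32 : (32 : ℝ) ≤ Y := ((le_max_left _ _).trans (le_max_left _ _)).trans hY
  have hYY : Y₁ ≤ Y := ((le_max_right _ _).trans (le_max_left _ _)).trans hY
  have hYe := (le_max_right _ _).trans hY
  have hY0 : 0 < Y := by linarith
  have hL := (Real.le_log_iff_exp_le hY0).2 hYe
  have hL1 : 32 / c ≤ Real.log Y := ((le_max_left _ _).trans (le_max_left _ _)).trans hL
  have hL2 : 1 ≤ Real.log Y := ((le_max_right _ _).trans (le_max_left _ _)).trans hL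
  have hL3 : Real.exp (2 ^ (1 / η : ℝ)) ≤ Real.log Y := (le_max_right _ _).trans hL
  set L := Real.log Y with hLdef
  have hL0 : 0 < L := by linarith
  have hYL : Y = Real.exp L := (Real.exp_log hY0).symm
  have hcL : 32 ≤ c * L := by
    rw [div_le_iff₀ hc] at hL1
    linarith
  -- the exponent
  have hpow : 2 ≤ (Real.log L) ^ η := by
    have h2 : (2 : ℝ) ^ (1 / η : ℝ) ≤ Real.log L := (Real.le_log_iff_exp_le hL0).2 hL3
    calc (2 : ℝ) = ((2 : ℝ) ^ (1 / η : ℝ)) ^ η := by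
          rw [← Real.rpow_mul (by norm_num), one_div, inv_mul_cancel₀ hη.ne', Real.rpow_one]
      _ ≤ (Real.log L) ^ η := Real.rpow_le_rpow (by positivity) h2 hη.le
  have hN : NS S (16 * Y ^ 4) ≤ Real.exp (L / 2) := by
    refine hNS.trans (Real.exp_le_exp.2 ?_)
    exact div_le_div_of_nonneg_left hL0.le (by norm_num) hpow
  have hexp : L ^ 2 / 8 ≤ Real.exp (L / 2) := by
    have h3 := Real.quadratic_le_exp_of_nonneg (x := L / 2) (by linarith)
    have h4 : (L / 2) ^ 2 / 2 = L ^ 2 / 8 := by ring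
    rw [h4] at h3
    linarith
  have hhalf : Real.exp (L / 2) ≤ c * Y / (2 * L) := by
    rw [le_div_iff₀ (by linarith), hYL]
    have e1 : Real.exp L = Real.exp (L / 2) * Real.exp (L / 2) := by
      rw [← Real.exp_add]
      congr 1
      ring
    rw [e1]
    have h5 : 2 * L ≤ c * Real.exp (L / 2) := by
      have h6 : 32 * L ≤ c * L * L := mul_le_mul_of_nonneg_right hcL hL0.le
      have h7 : c * (L ^ 2 / 8) ≤ c * Real.exp (L / 2) := mul_le_mul_of_nonneg_left hexp hc.le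
      nlinarith
    have h8 := mul_le_mul_of_nonneg_left h5 (Real.exp_pos (L / 2)).le
    linarith
  have hA := card_AA S (Y := Y) (by linarith)
  have hch := hcheb Y hYY
  have hcard : c * Y / (2 * L) ≤ ((AA S Y).card : ℝ) := by
    have e2 : c * Y / L = c * Y / (2 * L) + c * Y / (2 * L) := by
      field_simp
      ring
    rw [← hLdef, e2] at hch
    linarith
  have hR := RR_ge S Y
  have h9 : c * Y / (2 * L) * (Y / 16) ≤ RR S Y :=
    (mul_le_mul_of_nonneg_right hcard (by linarith)).trans hR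
  refine le_trans ?_ h9
  have e3 : c * Y / (2 * L) * (Y / 16) = (c * L / 32) * (Y ^ 2 / L ^ 2) := by
    field_simp
    ring
  rw [e3]
  have h10 : 0 ≤ Y ^ 2 / L ^ 2 := by positivity
  have h11 : 1 ≤ c * L / 32 := by linarith
  calc Y ^ 2 / L ^ 2 = 1 * (Y ^ 2 / L ^ 2) := (one_mul _).symm
    _ ≤ (c * L / 32) * (Y ^ 2 / L ^ 2) := mul_le_mul_of_nonneg_right h11 h10

end SSD
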