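import Pool.Agent.SSD.Targets

/-!
# SML: the small killers
-/

set_option autoImplicit false

open scoped BigOperators Classical
open Finset

namespace SSD

open SSC

namespace SML_

lemma sj_succ (A δ L : ℝ) (j : ℕ) : sj A δ L (j + 1) = A * sj A δ L j := by
  unfold sj; rw [pow_succ]; ring

lemma sj_ge {A δ L : ℝ} (hA : 3 ≤ A) (h0 : 2 ≤ sj A δ L 0) (j : ℕ) : 2 ≤ sj A δ L j := by
  induction j with
  | zero => exact h0
  | succ n ih => rw [sj_succ]; nlinarith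

lemma sj_le_succ {A δ L : ℝ} (hA : 3 ≤ A) (h0 : 2 ≤ sj A δ L 0) (j : ℕ) :
    sj A δ L j ≤ sj A δ L (j + 1) := by
  rw [sj_succ]; nlinarith [sj_ge hA h0 j]

lemma sj_mono {A δ L : ℝ} (hA : 3 ≤ A) (h0 : 2 ≤ sj A δ L 0) {i j : ℕ} (h : i ≤ j) :
    sj A δ L i ≤ sj A δ L j :=
  monotone_nat_of_le_succ (sj_le_succ hA h0) h

lemma mem_pri {u v : ℝ} (hv : 0 ≤ v) {l : ℕ} :
    l ∈ pri u v ↔ l.Prime ∧ u < l ∧ (l : ℝ) ≤ v := by
  unfold pri
  rw [mem_filter, mem_Icc, Nat.le_floor_iff hv]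
  constructor
  · rintro ⟨⟨_, h2⟩, h3, h4⟩; exact ⟨h3, h4, h2⟩
  · rintro ⟨h1, h2, h3⟩; exact ⟨⟨h1.one_lt.le, h3⟩, h1, h2⟩

lemma mem_Wj {Q : Set ℕ} {A δ L : ℝ} {j l : ℕ} : l ∈ Wj Q A δ L j ↔
    l.Prime ∧ Real.exp (sj A δ L j) < l ∧ (l : ℝ) ≤ Real.exp (sj A δ L (j + 1)) ∧ l ∈ Q := by
  unfold Wj
  rw [mem_filter, mem_pri (Real.exp_pos _).le]
  tauto

lemma Wj_disj {Q : Set ℕ} {A δ L : ℝ} (hA : 3 ≤ A) (h0 : 2 ≤ sj A δ L 0) (i j : ℕ)
    (hij : i ≠ j) : Disjoint (Wj Q A δ L i) (Wj Q A δ L j) := by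
  have key : ∀ i j, i < j → Disjoint (Wj Q A δ L i) (Wj Q A δ L j) := by
    intro i j h
    rw [Finset.disjoint_left]
    intro l h1 h2
    have a := (mem_Wj.1 h1).2.2.1
    have b := (mem_Wj.1 h2).2.1
    have c := Real.exp_le_exp.2 (sj_mono hA h0 (Nat.succ_le_of_lt h))
    linarith
  rcases lt_or_gt_of_ne hij with h | h
  · exact key i j h
  · exact (key j i h).symm

lemma wt_nonneg (U : Finset ℕ) : 0 ≤ wt U := prod_nonneg fun l _ => by positivity

lemma inner (hRAT : T_RAT) (hPRD : T_PRD) (W : ℕ → Finset ℕ) (k : ℕ → ℕ) (J j : ℕ)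
    (A' : Finset ℕ) (s : ℝ) (hd : ∀ i j, i ≠ j → Disjoint (W i) (W j)) (hj : j ∈ range (J + 1))
    (hA : A' ⊆ W j) (hs : ∀ l ∈ W j, Real.exp s < (l : ℝ)) (h1 : 1 ≤ ∑ l ∈ W j, 1 / (l : ℝ))
    (hk : 4 * (k j : ℝ) ^ 2 ≤ Real.exp s)
    (hm : ∑ l ∈ A', 1 / (l : ℝ) ≤ 7 / 10 * ∑ l ∈ W j, 1 / (l : ℝ)) :
    ∑ U ∈ (FF W k J).filter (fun U => U ∩ W j ⊆ A'), wt U ≤
      2 * (7 / 10) ^ (k j) * ∑ U ∈ FF W k J, wt U := by
  obtain ⟨-, h2, h3⟩ := hPRD W k J hd
  obtain ⟨r1, r2⟩ := hRAT (W j) A' (k j) s hA hs h1 hk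
  have e1 := h3 j hj A' hA
  rw [← h2] at e1
  have e2 := r1 (7 / 10) (by norm_num) hm
  have e3 : 0 < em (W j) (k j) := lt_of_lt_of_le (Real.exp_pos _) r2
  have e4 : 0 ≤ ∑ U ∈ FF W k J, wt U := sum_nonneg fun U _ => wt_nonneg U
  have : (∑ U ∈ (FF W k J).filter (fun U => U ∩ W j ⊆ A'), wt U) * em (W j) (k j) ≤
      (2 * (7 / 10) ^ (k j) * ∑ U ∈ FF W k J, wt U) * em (W j) (k j) := by
    rw [e1]
    calc em A' (k j) * ∑ U ∈ FF W k J, wt U
        ≤ (2 * (7 / 10) ^ (k j) * em (W j) (k j)) * ∑ U ∈ FF W k J, wt U := by gcongr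
      _ = _ := by ring
  exact le_of_mul_le_mul_right this e3

lemma ch_ge (p l : ℕ) : (2 : ℝ) * (if SSN.ch p l = 1 then 1 else 0) - 1 ≤ (SSN.ch p l : ℝ) := by
  have h : SSN.ch p l = 0 ∨ SSN.ch p l = 1 ∨ SSN.ch p l = -1 := by
    unfold SSN.ch
    split_ifs
    · exact Or.inl rfl
    · exact jacobiSym.trichotomy _ _
  rcases h with h | h | h <;> rw [h] <;> norm_num

/-- the elements of `W` with character value `1` or in `B` -/
noncomputable def Ap (W B : Finset ℕ) (p : ℕ) : Finset ℕ :=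
  W.filter fun l => SSN.ch p l = 1 ∨ l ∈ B

lemma Ap_le (W B : Finset ℕ) (p : ℕ) (b : ℝ)
    (hb : ∑ l ∈ W.filter (fun l => l ∈ B), 1 / (l : ℝ) ≤ b) :
    ∑ l ∈ Ap W B p, 1 / (l : ℝ) ≤ ∑ l ∈ W.filter (fun l => SSN.ch p l = 1), 1 / (l : ℝ) + b := by
  unfold Ap
  rw [filter_or]
  have h := Finset.sum_union_inter (s₁ := W.filter (fun l => SSN.ch p l = 1))
    (s₂ := W.filter (fun l => l ∈ B)) (f := fun l : ℕ => 1 / (l : ℝ))
  have h2 : 0 ≤ ∑ l ∈ W.filter (fun l => SSN.ch p l = 1) ∩ W.filter (fun l => l ∈ B),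
    1 / (l : ℝ) := sum_nonneg fun l _ => by positivity
  linarith

lemma B_le (W B : Finset ℕ) (s L : ℝ) (hL : 3 ≤ L) (hs : ∀ l ∈ W, Real.exp s < (l : ℝ))
    (h200 : 200 * L ≤ Real.exp s) (hB : (B.card : ℝ) ≤ 8 * L) :
    ∑ l ∈ W.filter (fun l => l ∈ B), 1 / (l : ℝ) ≤ 1 / 25 := by
  calc ∑ l ∈ W.filter (fun l => l ∈ B), 1 / (l : ℝ)
      ≤ ∑ l ∈ W.filter (fun l => l ∈ B), 1 / (200 * L) := by
        apply sum_le_sum
        intro l hl
        have := hs l (mem_filter.1 hl).1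
        apply one_div_le_one_div_of_le (by positivity)
        linarith
    _ = (W.filter (fun l => l ∈ B)).card * (1 / (200 * L)) := by
        rw [sum_const, nsmul_eq_mul]
    _ ≤ (8 * L) * (1 / (200 * L)) := by
        gcongr
        refine le_trans ?_ hB
        exact_mod_cast card_le_card fun l hl => (mem_filter.1 hl).2
    _ = 1 / 25 := by field_simp; norm_num

lemma card_B {Y : ℝ} (hY : 3 ≤ Real.log Y) (n : ℕ) (h : (2 : ℝ) ^ n ≤ 4 * Y ^ 4) :
    (n : ℝ) ≤ 8 * Real.log Y := by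
  have hY0 : Y ≠ 0 := by
    rintro rfl
    simp at hY
    linarith
  have h1 : Real.log ((2 : ℝ) ^ n) ≤ Real.log (4 * Y ^ 4) := Real.log_le_log (by positivity) h
  rw [Real.log_pow, Real.log_mul (by norm_num) (by positivity), Real.log_pow] at h1
  have h2 : Real.log 4 = 2 * Real.log 2 := by
    rw [show (4 : ℝ) = 2 ^ 2 by norm_num, Real.log_pow]; norm_num
  have h3 := Real.log_two_gt_d9
  rw [h2] at h1
  push_cast at h1
  have h4 : ((n : ℝ) - 2) * Real.log 2 ≤ 4 * Real.log Y := by linarith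
  by_contra hc
  push Not at hc
  have h5 : (8 * Real.log Y - 2) * Real.log 2 < ((n : ℝ) - 2) * Real.log 2 := by
    apply mul_lt_mul_of_pos_right _ (by linarith)
    linarith
  nlinarith

lemma char_ge (W B : Finset ℕ) (p : ℕ) (w : ℝ) (hw : w = ∑ l ∈ W, 1 / (l : ℝ)) (h1 : 1 ≤ w)
    (hb : ∑ l ∈ W.filter (fun l => l ∈ B), 1 / (l : ℝ) ≤ 1 / 25)
    (hbad : 7 / 10 * w < ∑ l ∈ Ap W B p, 1 / (l : ℝ)) :
    3 / 10 * w ≤ ∑ l ∈ W, (SSN.ch p l : ℝ) / l := by
  have h2 := Ap_le W B p _ hb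
  have h3 : ∑ l ∈ W, ((2 : ℝ) * (if SSN.ch p l = 1 then 1 else 0) - 1) * (1 / (l : ℝ)) ≤
      ∑ l ∈ W, (SSN.ch p l : ℝ) / l := by
    apply sum_le_sum
    intro l _
    rw [div_eq_mul_one_div (SSN.ch p l : ℝ) (l : ℝ)]
    exact mul_le_mul_of_nonneg_right (ch_ge p l) (by positivity)
  have h4 : ∑ l ∈ W, ((2 : ℝ) * (if SSN.ch p l = 1 then 1 else 0) - 1) * (1 / (l : ℝ)) =
      2 * (∑ l ∈ W.filter (fun l => SSN.ch p l = 1), 1 / (l : ℝ)) - w := by
    rw [hw, sum_filter, mul_sum, ← sum_sub_distrib]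
    apply sum_congr rfl
    intro l _
    split_ifs <;> ring
  linarith

lemma card_le_NS (S : Set ℕ) (x : ℝ) (G : Finset ℕ)
    (h : ∀ p ∈ G, p ∈ S ∧ (p : ℝ) ≤ x) : (G.card : ℝ) ≤ NS S x := by
  unfold NS
  have hf : {p : ℕ | p ∈ S ∧ (p : ℝ) ≤ x}.Finite := by
    apply Set.Finite.subset (Set.finite_Iic ⌊x⌋₊)
    intro p hp
    exact Nat.le_floor hp.2
  rw [← Set.ncard_coe_finset G]
  exact_mod_cast Set.ncard_le_ncard (fun p hp => h p hp) hf

end SML_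

open SML_

theorem p_SML (hLV : T_LV) (hRAT : T_RAT) (hPRD : T_PRD) : T_SML := by
  intro S Q A δ ε Y J k B hcls hS hδ hε hY hprm hNS hB
  obtain ⟨hA3, hQ, hwin⟩ := hcls
  obtain ⟨pm1, pm2, pm3, pm4, pm5, pm6, pm7, pm8, pm9, pm10⟩ := hprm
  set L := Real.log Y with hL
  have hYne : Y ≠ 0 := by
    rintro rfl
    rw [Real.log_zero] at hL
    linarith
  set W : ℕ → Finset ℕ := Wj Q A δ L with hW
  set s : ℕ → ℝ := sj A δ L with hs
  have hs2 : ∀ j, 2 ≤ s j := sj_ge hA3 pm10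
  have hsm : ∀ i j, i ≤ j → s i ≤ s j := fun i j h => sj_mono hA3 pm10 h
  have hWd : ∀ i j, i ≠ j → Disjoint (W i) (W j) := Wj_disj hA3 pm10
  have hWs : ∀ j, ∀ l ∈ W j, Real.exp (s j) < (l : ℝ) := fun j l hl => (mem_Wj.1 hl).2.1
  set w : ℕ → ℝ := fun j => ∑ l ∈ W j, 1 / (l : ℝ) with hw
  have hwin' : ∀ j, 1 ≤ w j ∧ ∀ p ∈ S, (p : ℝ) ≤ Real.exp (s j) →
      ∑ l ∈ (W j).filter (fun l => SSN.ch p l = 1), 1 / (l : ℝ) ≤ 6 / 10 * w j := by
    intro j
    have h := hwin (s j) (hs2 j)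
    have e : A * s j = s (j + 1) := (sj_succ A δ L j).symm
    rw [e] at h
    refine ⟨h.1, fun p hp hpe => ?_⟩
    have h2 := h.2 p hp hpe
    have e2 : (W j).filter (fun l => SSN.ch p l = 1) =
        (pri (Real.exp (s j)) (Real.exp (s (j + 1)))).filter
          (fun l : ℕ => l ∈ Q ∧ SSN.ch p l = 1) := by
      rw [hW]; unfold Wj; rw [filter_filter]
    rw [e2]
    exact h2
  have h200 : ∀ j, 200 * L ≤ Real.exp (s j) := fun j =>
    pm9.trans (Real.exp_le_exp.2 (hsm 0 j (Nat.zero_le _)))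
  have hBW : ∀ p j, ∑ l ∈ (W j).filter (fun l => l ∈ B p), 1 / (l : ℝ) ≤ 1 / 25 := fun p j =>
    B_le (W j) (B p) (s j) L hY (hWs j) (h200 j) (card_B hY _ (hB p))
  set K : ℕ := KK k J with hK
  set P : Finset ℕ := (Icc 1 ⌊Real.exp (4 * (K : ℝ))⌋₊).filter (fun p : ℕ => p ∈ S) with hP
  have hPm : ∀ p ∈ P, p ∈ S ∧ (p : ℝ) ≤ Real.exp (4 * (K : ℝ)) := by
    intro p hp
    rw [hP, mem_filter, mem_Icc, Nat.le_floor_iff (Real.exp_pos _).le] at hp
    exact ⟨hp.2, hp.1.2⟩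
  -- badness
  set bad : ℕ → ℕ → Prop := fun p j => 7 / 10 * w j < ∑ l ∈ Ap (W j) (B p) p, 1 / (l : ℝ) with hbad
  have hgood : ∀ p ∈ P, ¬ bad p J := by
    intro p hp hb
    obtain ⟨h1, h2⟩ := hPm p hp
    have h3 := (hwin' J).2 p h1 (h2.trans (Real.exp_le_exp.2 pm1))
    have h4 := Ap_le (W J) (B p) p _ (hBW p J)
    have h5 := (hwin' J).1
    have hb' : 7 / 10 * w J < ∑ l ∈ Ap (W J) (B p) p, 1 / (l : ℝ) := hb
    linarith
  set E : ℝ := ∑ U ∈ FF W k J, wt U with hE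
  have hE0 : 0 ≤ E := sum_nonneg fun U _ => wt_nonneg U
  have hin : ∀ p j, j ∈ range (J + 1) → ¬ bad p j →
      ∑ U ∈ (FF W k J).filter (fun U => ∀ l ∈ U, SSN.ch p l = 1 ∨ l ∈ B p), wt U ≤
        2 * (7 / 10) ^ (k j) * E := by
    intro p j hj hb
    refine le_trans ?_ (inner hRAT hPRD W k J j (Ap (W j) (B p) p) (s j) hWd hj
      (filter_subset _ _) (hWs j) (hwin' j).1 (pm8 j hj) (not_lt.1 hb))
    apply sum_le_sum_of_subset_of_nonneg
    · intro U hU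
      rw [mem_filter] at hU ⊢
      refine ⟨hU.1, fun l hl => ?_⟩
      rw [mem_inter] at hl
      exact mem_filter.2 ⟨hl.2, hU.2 l hl.1⟩
    · intro U _ _
      exact wt_nonneg U
  -- the classes
  set G : ℕ → ℕ → Prop := fun p j => ∀ i, j = i + 1 → bad p i with hG
  have hper : ∀ p ∈ P,
      ∑ U ∈ (FF W k J).filter (fun U => ∀ l ∈ U, SSN.ch p l = 1 ∨ l ∈ B p), wt U ≤
        ∑ j ∈ range (J + 1), if G p j then 2 * (7 / 10) ^ (k j) * E else 0 := by
    intro p hp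
    have hex : ∃ j, ¬ bad p j := ⟨J, hgood p hp⟩
    have hj0 : Nat.find hex ≤ J := Nat.find_min' hex (hgood p hp)
    have hGj : G p (Nat.find hex) := by
      intro i hi
      have := Nat.find_min hex (m := i) (by omega)
      exact not_not.1 this
    have hmem : Nat.find hex ∈ range (J + 1) := mem_range.2 (by omega)
    refine (hin p (Nat.find hex) hmem (Nat.find_spec hex)).trans ?_
    have := Finset.single_le_sum (f := fun j => if G p j then 2 * (7 / 10) ^ (k j) * E else (0 : ℝ))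
      (s := range (J + 1)) (fun j _ => by split_ifs <;> positivity) hmem
    refine le_trans (le_of_eq ?_) this
    simp only [if_pos hGj]
  have h4K : Real.exp (4 * (K : ℝ)) ≤ 16 * Y ^ 4 := by
    have h1 : (2 : ℝ) * K ≤ L / 16 := by
      refine le_trans ?_ pm2
      rw [hK, KK]
      push_cast
      rw [mul_sum]
      apply sum_le_sum
      intro j _
      have := hs2 (j + 1)
      have h0 : (0 : ℝ) ≤ k j := Nat.cast_nonneg _
      nlinarith
    have h2 : 4 * (K : ℝ) ≤ Real.log (Y ^ 4) := by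
      rw [Real.log_pow]
      push_cast
      linarith
    have h3 : 0 < Y ^ 4 := by positivity
    calc Real.exp (4 * (K : ℝ)) ≤ Real.exp (Real.log (Y ^ 4)) := Real.exp_le_exp.2 h2
      _ = Y ^ 4 := Real.exp_log h3
      _ ≤ 16 * Y ^ 4 := by linarith
  have hL0 : 0 < L := by linarith
  have hc0 : ((P.filter fun p => G p 0).card : ℝ) * (2 * (7 / 10) ^ (k 0) * E) ≤
      2 * (1 / L ^ 6) * E := by
    have h1 : ((P.filter fun p => G p 0).card : ℝ) ≤
        Real.exp (L / (Real.log L) ^ (2 + 3 * δ)) := by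
      refine (card_le_NS S (16 * Y ^ 4) _ ?_).trans hNS
      intro p hp
      obtain ⟨h2, h3⟩ := hPm p (mem_filter.1 hp).1
      exact ⟨h2, h3.trans h4K⟩
    have h2 : Real.exp (L / (Real.log L) ^ (2 + 3 * δ)) * (7 / 10) ^ (k 0) ≤ 1 / L ^ 6 := by
      rw [le_div_iff₀ (by positivity)]
      exact pm4
    calc ((P.filter fun p => G p 0).card : ℝ) * (2 * (7 / 10) ^ (k 0) * E)
        ≤ Real.exp (L / (Real.log L) ^ (2 + 3 * δ)) * (2 * (7 / 10) ^ (k 0) * E) := by gcongr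
      _ = 2 * (Real.exp (L / (Real.log L) ^ (2 + 3 * δ)) * (7 / 10) ^ (k 0)) * E := by ring
      _ ≤ _ := by gcongr
  have hci : ∀ i ∈ range J, ((P.filter fun p => G p (i + 1)).card : ℝ) *
      (2 * (7 / 10) ^ (k (i + 1)) * E) ≤ 2 * (1 / L ^ 8) * E := by
    intro i hi
    obtain ⟨m, hm1, hm2, hm3⟩ := pm5 i hi
    have hwi := (hwin' i).1
    have h1 : ((P.filter fun p => G p (i + 1)).card : ℝ) ≤
        m.factorial * (w i / (3 / 10 * w i) ^ 2) ^ m * (A * m * s i + 3) := by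
      apply hLV (W i) (P.filter fun p => G p (i + 1)) (Real.exp (4 * (K : ℝ))) (s i) A
        (3 / 10 * w i) (w i) m hm1 (by linarith [hs2 i]) (by linarith)
      · intro l hl
        have h := mem_Wj.1 hl
        refine ⟨h.1, (hQ l h.2.2.2).2.1, h.2.1, ?_⟩
        have h2 := h.2.2.1
        rw [sj_succ] at h2
        exact h2
      · intro p hp
        obtain ⟨h2, h3⟩ := hPm p (mem_filter.1 hp).1
        exact ⟨(hS p h2).1, (hS p h2).2, h3⟩
      · have e1 : Real.exp (4 * (K : ℝ)) ^ 3 = Real.exp (12 * (K : ℝ)) := by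
          rw [← Real.exp_nat_mul]; congr 1; push_cast; ring
        have e2 : (16 : ℝ) ≤ Real.exp 3 := by
          have h := Real.exp_one_gt_d9
          have e : Real.exp 3 = Real.exp 1 ^ 3 := by rw [← Real.exp_nat_mul]; norm_num
          rw [e]
          calc (16 : ℝ) ≤ 2.7182818283 ^ 3 := by norm_num
            _ ≤ _ := by gcongr
        rw [e1]
        calc 16 * Real.exp (12 * (K : ℝ)) ≤ Real.exp 3 * Real.exp (12 * (K : ℝ)) := by gcongr
          _ = Real.exp (12 * (K : ℝ) + 3) := by rw [← Real.exp_add]; ring_nf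
          _ ≤ _ := Real.exp_le_exp.2 hm2
      · linarith
      · exact le_rfl
      · intro p hp
        have hb : bad p i := (mem_filter.1 hp).2 i rfl
        exact char_ge (W i) (B p) p (w i) rfl hwi (hBW p i) hb
    have h2 : w i / (3 / 10 * w i) ^ 2 ≤ 12 := by
      rw [div_le_iff₀ (by positivity)]
      nlinarith
    have h3 : 0 ≤ w i / (3 / 10 * w i) ^ 2 := by positivity
    have h4 : 0 ≤ A * m * s i + 3 := by
      have : 0 ≤ s i := by linarith [hs2 i]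
      positivity
    have h5 : ((P.filter fun p => G p (i + 1)).card : ℝ) ≤
        m.factorial * 12 ^ m * (A * m * s i + 3) := by
      refine h1.trans ?_
      gcongr
    have h6 : m.factorial * 12 ^ m * (A * m * s i + 3) * (7 / 10) ^ (k (i + 1)) ≤ 1 / L ^ 8 := by
      rw [le_div_iff₀ (by positivity)]
      exact hm3
    calc ((P.filter fun p => G p (i + 1)).card : ℝ) * (2 * (7 / 10) ^ (k (i + 1)) * E)
        ≤ (m.factorial * 12 ^ m * (A * m * s i + 3)) * (2 * (7 / 10) ^ (k (i + 1)) * E) := by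
          gcongr
      _ = 2 * (m.factorial * 12 ^ m * (A * m * s i + 3) * (7 / 10) ^ (k (i + 1))) * E := by ring
      _ ≤ _ := by gcongr
  calc ∑ p ∈ P, ∑ U ∈ (FF W k J).filter (fun U => ∀ l ∈ U, SSN.ch p l = 1 ∨ l ∈ B p), wt U
      ≤ ∑ p ∈ P, ∑ j ∈ range (J + 1), (if G p j then 2 * (7 / 10) ^ (k j) * E else 0) :=
        sum_le_sum hper
    _ = ∑ j ∈ range (J + 1), ((P.filter fun p => G p j).card : ℝ) *
          (2 * (7 / 10) ^ (k j) * E) := by
        rw [sum_comm]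
        apply sum_congr rfl
        intro j _
        rw [← sum_filter, sum_const, nsmul_eq_mul]
    _ = (∑ i ∈ range J, ((P.filter fun p => G p (i + 1)).card : ℝ) *
          (2 * (7 / 10) ^ (k (i + 1)) * E)) +
        ((P.filter fun p => G p 0).card : ℝ) * (2 * (7 / 10) ^ (k 0) * E) := by
        rw [sum_range_succ']
    _ ≤ (∑ i ∈ range J, 2 * (1 / L ^ 8) * E) + 2 * (1 / L ^ 6) * E :=
        add_le_add (sum_le_sum hci) hc0
    _ = 2 * (1 / L ^ 6 + J / L ^ 8) * E := by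
        rw [sum_const, card_range, nsmul_eq_mul]; ring

end SSD
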