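import Pool.Agent.SSD.Targets

set_option autoImplicit false

open scoped BigOperators Classical
open Finset

namespace SSD

/-- TPL: tuples of primes with a given product -/
theorem p_TPL : T_TPL := by
  intro A m n hA
  rcases Finset.eq_empty_or_nonempty
    ((Fintype.piFinset fun _ : Fin m => A).filter fun g => ∏ i, g i = n) with h | ⟨g₀, h₀⟩
  · rw [h]; simp
  · have key : ∀ g ∈ (Fintype.piFinset fun _ : Fin m => A).filter (fun g => ∏ i, g i = n),
        (List.ofFn g).Perm (Nat.primeFactorsList n) := by
      intro g hg
      rw [Finset.mem_filter, Fintype.mem_piFinset] at hg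
      refine Nat.primeFactorsList_unique ?_ ?_
      · rw [List.prod_ofFn]; exact hg.2
      · intro p hp
        rw [List.mem_ofFn] at hp
        obtain ⟨i, rfl⟩ := hp
        exact hA _ (hg.1 i)
    have h1 : ((Fintype.piFinset fun _ : Fin m => A).filter fun g => ∏ i, g i = n).card ≤
        (List.ofFn g₀).permutations.toFinset.card := by
      refine Finset.card_le_card_of_injOn (fun g => List.ofFn g) ?_ ?_
      · intro g hg
        simp only [Finset.mem_coe, List.mem_toFinset, List.mem_permutations]
        exact (key g hg).trans (key g₀ h₀).symm
      · intro g _ g' _ h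
        exact List.ofFn_injective h
    refine h1.trans ((List.toFinset_card_le _).trans (le_of_eq ?_))
    rw [List.length_permutations, List.length_ofFn]

end SSD
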