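import Pool.Agent.SSF.All
import Pool.Agent.SSD.KRN
import Pool.Agent.SSD.AXG
import Pool.Agent.SSD.CHGG
import Pool.Agent.SSD.CHEG
import Pool.Agent.SSD.CHIG
import Pool.Agent.SSD.CHLG
import Pool.Agent.SSD.QCL
import Pool.Agent.SSD.NSS
import Pool.Agent.SSD.CLS
import Pool.Agent.SSD.TPL
import Pool.Agent.SSD.LV
import Pool.Agent.SSD.KI3
import Pool.Agent.SSD.HL3
import Pool.Agent.SSD.PRD
import Pool.Agent.SSD.RAT
import Pool.Agent.SSD.TU2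
import Pool.Agent.SSD.LO2
import Pool.Agent.SSD.AS3
import Pool.Agent.SSD.PAR
import Pool.Agent.SSD.FML
import Pool.Agent.SSD.SML
import Pool.Agent.SSD.RRL
import Pool.Agent.SSD.DI3
import Pool.Agent.SSD.FA3

/-!
# MP_d74fca_nt: the improved count of supersingular primes, all parts proved (helper69)
-/

set_option autoImplicit false

namespace SSD.All

open SSF.All

theorem SSD_KRN : T_KRN := p_KRN

theorem SSD_AXG : T_AXG := p_AXG

theorem SSD_CHEG : T_CHEG := p_CHEG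

theorem SSD_CHGG : T_CHGG := p_CHGG SSN_LBD SSD_AXG

theorem SSD_CHIG : T_CHIG := p_CHIG SSD_CHGG SSD_CHEG

theorem SSD_CHLG : T_CHLG := p_CHLG SSD_CHEG

theorem SSD_QCL : T_QCL := p_QCL SSD_KRN SSD_CHIG SSD_CHLG SSC_MER

theorem SSD_NSS : T_NSS := p_NSS

theorem SSD_CLS : T_CLS := p_CLS SSD_QCL SSD_NSS

theorem SSD_TPL : T_TPL := p_TPL

theorem SSD_LV : T_LV := p_LV SSD_KRN SSN_LBD SSD_TPL

theorem SSD_KI3 : T_KI3 := p_KI3 SSC_SPL SSN_RED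

theorem SSD_HL3 : T_HL3 := p_HL3 SSC_BRU SSC_MER

theorem SSD_PRD : T_PRD := p_PRD

theorem SSD_RAT : T_RAT := p_RAT

theorem SSD_TU2 : T_TU2 := p_TU2

theorem SSD_LO2 : T_LO2 := p_LO2 SSD_HL3

theorem SSD_AS3 : T_AS3 := p_AS3 SSD_TU2 SSC_KIL SSD_KI3

theorem SSD_PAR : T_PAR := p_PAR

theorem SSD_FML : T_FML := p_FML SSD_PRD SSD_RAT

theorem SSD_SML : T_SML := p_SML SSD_LV SSD_RAT SSD_PRD

theorem SSD_RRL : T_RRL := p_RRL SSC_CHEB

theorem SSD_DI3 : T_DI3 := p_DI3 SSD_PAR SSD_FML SSD_SML SSD_RRL SSD_LO2 SSD_AS3 SSD_TU2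

theorem SSD_FA3 : T_FA3 := p_FA3 SSD_DI3

end SSD.All
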