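import Pool.Agent.SSD.Targets
import Pool.Agent.SSC.TUP

/-!
# TU2: facts about the tuples
-/

set_option autoImplicit false

open scoped BigOperators Classical
open Finset

namespace SSD

open SSC

namespace TU2_

/-- unfolding the membership in `UG` -/
theorem mem {S : Set ℕ} {M : ℕ} {ρ Y : ℝ} {F : Finset (Finset ℕ)} {t : ℕ × Finset ℕ × ℕ}
    (h : t ∈ UG S M ρ Y F) : t.1 ∈ AA S Y ∧ t.2.1 ∈ F ∧
    t.2.2 ∈ HH S M ρ t.1 (∏ l ∈ t.2.1, l) := by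
  unfold UG at h
  rw [mem_filter, mem_product, mem_product] at h
  exact ⟨h.1.1, h.1.2.1, h.2⟩

theorem prod_pos {S : Set ℕ} {Y : ℝ} {K : ℕ} {F : Finset (Finset ℕ)} (hF : Fam S Y K F)
    {U : Finset ℕ} (hU : U ∈ F) : 0 < ∏ l ∈ U, l :=
  Finset.prod_pos fun l hl => ((hF U hU).2.1 l hl).1.pos

/-- part (1) -/
theorem one (S : Set ℕ) (M : ℕ) (ρ Y : ℝ) (K : ℕ) (F : Finset (Finset ℕ))
    (hS : ∀ p ∈ S, p.Prime) (hρ2 : ρ ≤ 2) (hY : 32 ≤ Y) (hF : Fam S Y K F)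
    (t : ℕ × Finset ℕ × ℕ) (ht : t ∈ UG S M ρ Y F) :
    Adm M ρ (dd t) ∧ (∀ q ∈ S, ¬ q ∣ dd t) ∧ (dd t : ℝ) ≤ 2 * Y ^ 2 ∧
    Y ^ 2 / 256 ≤ dd t ∧ (∀ l ∈ t.2.1, l ∣ dd t) := by
  obtain ⟨h1, h2, h3⟩ := mem ht
  obtain ⟨a1, a2, a3, a4⟩ := TUP_.memA (by linarith) h1
  obtain ⟨-, hmem, -⟩ := hF _ h2
  obtain ⟨h0, b1, b2, b3, b4, b5⟩ := TUP_.memH h3
  set a := t.1
  set Λ := ∏ l ∈ t.2.1, l with hΛ
  set h := t.2.2
  have hdd : dd t = a * Λ * h := rfl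
  have hapos : (0 : ℝ) < a := by exact_mod_cast a1.pos
  refine ⟨⟨a, Λ * h, a1, by rw [hdd, mul_assoc], ?_, ?_, hdd ▸ b4, hdd ▸ b3⟩, ?_, ?_, ?_, ?_⟩
  · exact_mod_cast b1
  · push_cast
    exact b2
  · intro q hq hqd
    rw [hdd] at hqd
    have hqp := hS q hq
    rcases (hqp.dvd_mul).1 hqd with h4 | h4
    · rcases (hqp.dvd_mul).1 h4 with h5 | h5
      · have : q = a := (Nat.prime_dvd_prime_iff_eq hqp a1).1 h5
        exact a4 (this ▸ hq)
      · rw [hΛ, hqp.prime.dvd_finsetProd_iff] at h5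
        obtain ⟨l, hl, hql⟩ := h5
        obtain ⟨c1, -, c4⟩ := hmem l hl
        have : q = l := (Nat.prime_dvd_prime_iff_eq hqp c1).1 hql
        exact c4 (this ▸ hq)
    · exact b5 q hq h4
  · rw [hdd]
    push_cast
    have h6 : (Λ : ℝ) * h ≤ 2 * a := by nlinarith
    calc (a : ℝ) * Λ * h = a * (Λ * h) := by ring
      _ ≤ a * (2 * a) := by gcongr
      _ = 2 * a ^ 2 := by ring
      _ ≤ 2 * Y ^ 2 := by gcongr
  · rw [hdd]
    push_cast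
    calc Y ^ 2 / 256 = (Y / 16) * (Y / 16) := by ring
      _ ≤ a * a := by
          have : 0 ≤ Y / 16 := by linarith
          nlinarith
      _ ≤ a * (Λ * h) := by
          gcongr
      _ = (a : ℝ) * Λ * h := by ring
  · intro l hl
    rw [hdd]
    exact ((Finset.dvd_prod_of_mem _ hl).mul_left a).mul_right h

/-- tuples with the same factors and the same product `a (Λ h)` are equal -/
theorem eq_of (S : Set ℕ) (M : ℕ) (ρ Y : ℝ) (K : ℕ) (F : Finset (Finset ℕ))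
    (hρ2 : ρ ≤ 2) (hY : 32 ≤ Y) (hF : Fam S Y K F)
    (t t' : ℕ × Finset ℕ × ℕ) (ht : t ∈ UG S M ρ Y F) (ht' : t' ∈ UG S M ρ Y F)
    (hT : t.2.1 = t'.2.1)
    (e1 : t.1 * ((∏ l ∈ t.2.1, l) * t.2.2) = t'.1 * ((∏ l ∈ t'.2.1, l) * t'.2.2)) : t = t' := by
  obtain ⟨h1, h2, h3⟩ := mem ht
  obtain ⟨h1', h2', h3'⟩ := mem ht'
  obtain ⟨a1, -, -, -⟩ := TUP_.memA (by linarith) h1
  obtain ⟨a1', -, -, -⟩ := TUP_.memA (by linarith) h1'
  obtain ⟨h0, b1, b2, -, -, -⟩ := TUP_.memH h3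
  obtain ⟨h0', b1', b2', -, -, -⟩ := TUP_.memH h3'
  have hap : (0 : ℝ) < t.1 := by exact_mod_cast a1.pos
  have hap' : (0 : ℝ) < t'.1 := by exact_mod_cast a1'.pos
  have ha : t.1 = t'.1 := by
    refine TUP_.uniq _ _ _ _ a1 a1' e1 ?_ ?_ ?_ ?_
    · exact_mod_cast b1
    · have : ((∏ l ∈ t.2.1, l : ℕ) : ℝ) * t.2.2 < 2 * t.1 := by nlinarith
      exact_mod_cast this
    · exact_mod_cast b1'
    · have : ((∏ l ∈ t'.2.1, l : ℕ) : ℝ) * t'.2.2 < 2 * t'.1 := by nlinarith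
      exact_mod_cast this
  have hh : t.2.2 = t'.2.2 := by
    rw [← ha, ← hT] at e1
    have e2 := Nat.eq_of_mul_eq_mul_left a1.pos e1
    exact Nat.eq_of_mul_eq_mul_left (prod_pos hF h2) e2
  exact Prod.ext ha (Prod.ext hT hh)

/-- part (2) -/
theorem two (S : Set ℕ) (M : ℕ) (ρ Y : ℝ) (K : ℕ) (F : Finset (Finset ℕ))
    (hS : ∀ p ∈ S, p.Prime) (hρ2 : ρ ≤ 2) (hY : 32 ≤ Y) (hF : Fam S Y K F) (D : ℕ) :
    ((((UG S M ρ Y F).filter fun t => dd t = D).card : ℕ) : ℝ) ≤ (4 * Real.log Y) ^ K := by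
  have hlog : 0 ≤ 4 * Real.log Y := by
    have := Real.log_nonneg (by linarith : (1 : ℝ) ≤ Y)
    linarith
  rcases ((UG S M ρ Y F).filter fun t => dd t = D).eq_empty_or_nonempty with he | ⟨t0, ht0⟩
  · rw [he]
    simp only [card_empty, Nat.cast_zero]
    positivity
  rw [mem_filter] at ht0
  have hone := one S M ρ Y K F hS hρ2 hY hF t0 ht0.1
  have hD2 : (D : ℝ) ≤ 2 * Y ^ 2 := by
    rw [← ht0.2]
    exact hone.2.2.1
  have hD0 : D ≠ 0 := by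
    have h1 := hone.2.2.2.1
    rw [ht0.2] at h1
    rintro rfl
    have : 0 < Y ^ 2 := by positivity
    simp only [Nat.cast_zero] at h1
    linarith
  have h1 : ((UG S M ρ Y F).filter fun t => dd t = D).card ≤
      (D.primeFactors.powersetCard K).card := by
    refine Finset.card_le_card_of_injOn (fun t => t.2.1) ?_ ?_
    · intro t ht
      rw [Finset.mem_coe, mem_filter] at ht
      obtain ⟨-, h2, -⟩ := mem ht.1
      rw [Finset.mem_coe, mem_powersetCard]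
      refine ⟨fun l hl => ?_, (hF _ h2).1⟩
      have h3 := (one S M ρ Y K F hS hρ2 hY hF t ht.1).2.2.2.2 l hl
      rw [ht.2] at h3
      exact Nat.mem_primeFactors.2 ⟨((hF _ h2).2.1 l hl).1, h3, hD0⟩
    · intro t ht t' ht' hT
      rw [Finset.mem_coe, mem_filter] at ht ht'
      have hT' : t.2.1 = t'.2.1 := hT
      refine eq_of S M ρ Y K F hρ2 hY hF t t' ht.1 ht'.1 hT' ?_
      have := ht.2.trans ht'.2.symm
      unfold dd at this
      rw [mul_assoc, mul_assoc] at this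
      exact this
  have h2 : (D.primeFactors.powersetCard K).card ≤ D.primeFactors.card ^ K := by
    rw [card_powersetCard]
    exact Nat.choose_le_pow _ _
  calc ((((UG S M ρ Y F).filter fun t => dd t = D).card : ℕ) : ℝ)
      ≤ ((D.primeFactors.card ^ K : ℕ) : ℝ) := by exact_mod_cast h1.trans h2
    _ = (D.primeFactors.card : ℝ) ^ K := by push_cast; rfl
    _ ≤ (4 * Real.log Y) ^ K := by
        gcongr
        exact TUP_.omega Y D hD0 hY hD2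

/-- part (3) -/
theorem three (S : Set ℕ) (M : ℕ) (ρ Y : ℝ) (K : ℕ) (F : Finset (Finset ℕ))
    (hρ2 : ρ ≤ 2) (hY : 32 ≤ Y) (hF : Fam S Y K F) (G : Finset (Finset ℕ)) :
    ((((UG S M ρ Y F).filter fun t => t.2.1 ∈ G).card : ℕ) : ℝ) ≤
    2 * RR S Y * ∑ U ∈ G, wt U := by
  have hsub : ((UG S M ρ Y F).filter fun t => t.2.1 ∈ G) ⊆
      ((AA S Y) ×ˢ G).biUnion fun s =>
        (Icc 1 (2 * s.1 / ∏ l ∈ s.2, l)).image fun h => (s.1, s.2, h) := by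
    intro t ht
    rw [mem_filter] at ht
    obtain ⟨h1, h2, h3⟩ := mem ht.1
    obtain ⟨a1, -, -, -⟩ := TUP_.memA (by linarith) h1
    obtain ⟨h0, -, b2, -, -, -⟩ := TUP_.memH h3
    have hap : (0 : ℝ) < t.1 := by exact_mod_cast a1.pos
    rw [mem_biUnion]
    refine ⟨(t.1, t.2.1), ?_, ?_⟩
    · rw [mem_product]
      exact ⟨h1, ht.2⟩
    · rw [mem_image]
      refine ⟨t.2.2, ?_, rfl⟩
      rw [mem_Icc]
      refine ⟨h0, ?_⟩
      have hΛ : 0 < ∏ l ∈ t.2.1, l := prod_pos hF h2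
      rw [Nat.le_div_iff_mul_le hΛ]
      have : ((∏ l ∈ t.2.1, l : ℕ) : ℝ) * t.2.2 ≤ 2 * t.1 := by nlinarith
      have h5 : (∏ l ∈ t.2.1, l) * t.2.2 ≤ 2 * t.1 := by exact_mod_cast this
      rw [mul_comm]
      exact h5
  have h1 : (((UG S M ρ Y F).filter fun t => t.2.1 ∈ G).card) ≤
      ∑ s ∈ (AA S Y) ×ˢ G, (2 * s.1 / ∏ l ∈ s.2, l) := by
    refine (Finset.card_le_card hsub).trans (Finset.card_biUnion_le.trans ?_)
    refine Finset.sum_le_sum fun s _ => ?_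
    refine Finset.card_image_le.trans ?_
    rw [Nat.card_Icc, Nat.add_sub_cancel]
  calc ((((UG S M ρ Y F).filter fun t => t.2.1 ∈ G).card : ℕ) : ℝ)
      ≤ ((∑ s ∈ (AA S Y) ×ˢ G, (2 * s.1 / ∏ l ∈ s.2, l) : ℕ) : ℝ) := by
        exact_mod_cast h1
    _ = ∑ s ∈ (AA S Y) ×ˢ G, ((2 * s.1 / ∏ l ∈ s.2, l : ℕ) : ℝ) := by
        push_cast
        rfl
    _ ≤ ∑ s ∈ (AA S Y) ×ˢ G, (2 * (s.1 : ℝ)) * wt s.2 := by
        refine Finset.sum_le_sum fun s _ => ?_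
        refine Nat.cast_div_le.trans (le_of_eq ?_)
        unfold wt
        push_cast
        rw [div_eq_mul_inv, ← Finset.prod_inv_distrib]
        simp only [one_div]
    _ = 2 * RR S Y * ∑ U ∈ G, wt U := by
        unfold RR
        rw [Finset.sum_product]
        simp only [← Finset.mul_sum, ← Finset.sum_mul]

end TU2_

theorem p_TU2 : T_TU2 := by
  intro S M ρ Y K F hS _ _ hρ2 hY hF
  refine ⟨fun t ht => TU2_.one S M ρ Y K F hS hρ2 hY hF t ht,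
    fun D => TU2_.two S M ρ Y K F hS hρ2 hY hF D,
    fun G _ => TU2_.three S M ρ Y K F hρ2 hY hF G, ?_⟩
  intro U _ t ht t' ht' he
  have he' : t.1 * t.2.2 = t'.1 * t'.2.2 := he
  refine TU2_.eq_of S M ρ Y K F hρ2 hY hF t t' ht.1 ht'.1 (ht.2.trans ht'.2.symm) ?_
  rw [ht.2, ht'.2]
  calc t.1 * ((∏ l ∈ U, l) * t.2.2) = (∏ l ∈ U, l) * (t.1 * t.2.2) := by ring
    _ = (∏ l ∈ U, l) * (t'.1 * t'.2.2) := by rw [he']
    _ = t'.1 * ((∏ l ∈ U, l) * t'.2.2) := by ring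

end SSD
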