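import Pool.Agent.SSC.Targets2
import Pool.Agent.SSF.Targets

/-!
# MP_d74fca_nt, improved counting (helper69)

For every `E : y ^ 2 = x ^ 3 + A x + B` and every `η > 2` the number of supersingular primes `≤ x` is
at least `exp (log log x / (log log log x) ^ η)` for all large `x`.

New ingredients: factors `l` of `D` from a class of primes which are never supersingular
(`l ≡ 1 mod 4`, `-(4 A ^ 3 + 27 B ^ 2)` a square modulo `l`), factors from windows at all scales,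
and a large value estimate for the characters `(-p/·)` which uses only their periodicity.
-/

set_option autoImplicit false

open scoped BigOperators Classical
open Finset

namespace SSD

open SSC

/-! ## Real characters -/

/-- `f` is the restriction to `ℕ` of a real nonprincipal Dirichlet character modulo `q` -/
def RC (q : ℕ) (f : ℕ → ℤ) : Prop := 0 < q ∧ (∀ n, f n = 0 ∨ f n = 1 ∨ f n = -1) ∧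
  ∃ χ : DirichletCharacter ℂ q, χ ≠ 1 ∧ ∀ n : ℕ, χ (n : ZMod q) = ((f n : ℤ) : ℂ)

/-- `n ↦ (k/n)` for odd `n`, `0` for even `n`; `kr (-p) = SSN.ch p` -/
def kr (k : ℤ) (n : ℕ) : ℤ := if Even n then 0 else jacobiSym k n

/-- `r = 1 * f` -/
def rg (f : ℕ → ℤ) (n : ℕ) : ℤ := ∑ d ∈ n.divisors, f d

/-- `∑ r(n) n ^ (-σ)` -/
noncomputable def Gg (f : ℕ → ℤ) (σ : ℝ) : ℝ := ∑' n : ℕ, (rg f n : ℝ) * (n : ℝ) ^ (-σ)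

/-- KRN -/
def T_KRN : Prop := ∀ k : ℤ, ¬ IsSquare k → RC (4 * k.natAbs) (kr k)

/-- AXG -/
def T_AXG : Prop := ∃ C : ℝ, 1 ≤ C ∧ ∀ (q : ℕ) (f : ℕ → ℤ) (L : ℝ), RC q f →
  (∀ N : ℕ, 1 ≤ N → |(∑ n ∈ Icc 1 N, (f n : ℝ) / n) - L| ≤ 2 * q / N) →
  ∀ N : ℕ, q ≤ N → |(∑ n ∈ Icc 1 N, (rg f n : ℝ)) - N * L| ≤ C * Real.sqrt (q * N)

/-- CHGG -/
def T_CHGG : Prop := ∃ C : ℝ, 1 ≤ C ∧ ∀ (q : ℕ) (f : ℕ → ℤ) (u₁ u₂ : ℝ), RC q f → 0 < u₁ →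
  u₁ ≤ u₂ → u₂ ≤ 1 → (q : ℝ) ≤ Real.exp (2 / u₂) → u₁ * Gg f (1 + u₁) ≤ C * (u₂ * Gg f (1 + u₂))

/-- CHEG -/
def T_CHEG : Prop := ∃ C : ℝ, 0 < C ∧ ∀ (q : ℕ) (f : ℕ → ℤ) (σ : ℝ), RC q f → 1 < σ → σ ≤ 2 →
  Summable (fun n : ℕ => (rg f n : ℝ) * (n : ℝ) ^ (-σ)) ∧ 1 ≤ Gg f σ ∧
  Summable (fun l : Nat.Primes => (1 + (f l : ℝ)) * (l : ℝ) ^ (-σ)) ∧
  |Real.log (Gg f σ) - ∑' l : Nat.Primes, (1 + (f l : ℝ)) * (l : ℝ) ^ (-σ)| ≤ C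

/-- CHIG -/
def T_CHIG : Prop := ∃ C : ℝ, 0 < C ∧ ∀ (q : ℕ) (f : ℕ → ℤ) (z Z : ℝ), RC q f →
  (q : ℝ) ≤ z ^ 2 → 3 ≤ z → z ≤ Z →
  ∑ l ∈ pri z Z, (1 + (f l : ℝ)) / l ≤ Real.log (Real.log Z) - Real.log (Real.log z) + C

/-- CHLG: a fixed character -/
def T_CHLG : Prop := ∀ (q : ℕ) (f : ℕ → ℤ), RC q f → ∃ C : ℝ, 0 < C ∧ ∀ z Z : ℝ, 3 ≤ z → z ≤ Z →
  |∑ l ∈ pri z Z, (f l : ℝ) / l| ≤ C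

/-! ## Primes which are never supersingular -/

/-- the class of primes -/
def QQ (k : ℤ) : Set ℕ := {l | l.Prime ∧ l % 4 = 1 ∧ jacobiSym k l = 1}

/-- QCL -/
def T_QCL : Prop := ∀ k : ℤ, k ≠ 0 → ∃ θ C : ℝ, 0 < θ ∧ 0 < C ∧
  (∀ z Z : ℝ, 3 ≤ z → z ≤ Z → θ * (Real.log (Real.log Z) - Real.log (Real.log z)) - C ≤
    ∑ l ∈ (pri z Z).filter fun l : ℕ => l ∈ QQ k, 1 / (l : ℝ)) ∧
  ∀ p : ℕ, p.Prime → p ≠ 2 → ¬ (p : ℤ) ∣ k → ∀ z Z : ℝ, 3 ≤ z → z ≤ Z → (p : ℝ) ≤ z →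
    ∑ l ∈ (pri z Z).filter fun l : ℕ => l ∈ QQ k ∧ SSN.ch p l = 1, 1 / (l : ℝ) ≤
      θ / 2 * (Real.log (Real.log Z) - Real.log (Real.log z)) + C

/-- NSS -/
def T_NSS : Prop := ∀ A B : ℤ, ∀ l ∈ QQ (-(4 * A ^ 3 + 27 * B ^ 2)), l ∉ SSF.SS A B

/-- a class `Q` of primes outside `S`, in windows `(e^s, e^(A s)]` -/
def Cls (S Q : Set ℕ) (A : ℝ) : Prop := 3 ≤ A ∧ (∀ l ∈ Q, l.Prime ∧ l ≠ 2 ∧ l ∉ S) ∧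
  ∀ s : ℝ, 2 ≤ s →
    1 ≤ ∑ l ∈ (pri (Real.exp s) (Real.exp (A * s))).filter fun l : ℕ => l ∈ Q, 1 / (l : ℝ) ∧
    ∀ p ∈ S, (p : ℝ) ≤ Real.exp s →
      ∑ l ∈ (pri (Real.exp s) (Real.exp (A * s))).filter fun l : ℕ => l ∈ Q ∧ SSN.ch p l = 1,
          1 / (l : ℝ) ≤
        6 / 10 * ∑ l ∈ (pri (Real.exp s) (Real.exp (A * s))).filter fun l : ℕ => l ∈ Q, 1 / (l : ℝ)

/-- CLS (from QCL, NSS) -/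
def T_CLS : Prop := ∀ A B : ℤ, 4 * A ^ 3 + 27 * B ^ 2 ≠ 0 →
  ∃ (Q : Set ℕ) (A' : ℝ), Cls (SSF.SS A B) Q A'

/-! ## Large values -/

/-- TPL: tuples of primes with a given product -/
def T_TPL : Prop := ∀ (A : Finset ℕ) (m n : ℕ), (∀ l ∈ A, l.Prime) →
  ((Fintype.piFinset fun _ : Fin m => A).filter fun g => ∏ i, g i = n).card ≤ m.factorial

/-- LV (from KRN, SSN.LBD, TPL): large values -/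
def T_LV : Prop := ∀ (Λ B : Finset ℕ) (P s A v W : ℝ) (m : ℕ), 1 ≤ m → 0 < s → 1 ≤ A →
  (∀ l ∈ Λ, l.Prime ∧ l ≠ 2 ∧ Real.exp s < l ∧ (l : ℝ) ≤ Real.exp (A * s)) →
  (∀ p ∈ B, p.Prime ∧ p ≠ 2 ∧ (p : ℝ) ≤ P) → 16 * P ^ 3 ≤ Real.exp (m * s) → 0 < v →
  ∑ l ∈ Λ, 1 / (l : ℝ) ≤ W → (∀ p ∈ B, v ≤ ∑ l ∈ Λ, (SSN.ch p l : ℝ) / l) →
  (B.card : ℝ) ≤ m.factorial * (W / v ^ 2) ^ m * (A * m * s + 3)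

/-! ## Forms and the sieve -/

/-- KI3 (from SSC.SPL, SSN.RED): refined counting of numbers killed by `p` -/
def T_KI3 : Prop := ∀ (p : ℕ) (F : Set ℕ), p.Prime → p ≠ 2 → (∀ D ∈ F, 0 < D ∧ Squarefree D) →
  Bin p F → ∀ T : ℝ, 1 ≤ T → 2 ≤ NS F T → ∀ (N : ℕ) (H : ℝ), Squarefree N →
  (∀ l : ℕ, l.Prime → l ∣ N → l ≠ 2 ∧ l ≠ p) → 0 ≤ H → ∀ G : Finset ℕ,
  (∀ h ∈ G, N * h ∈ F ∧ ((N * h : ℕ) : ℝ) ≤ T ∧ (h : ℝ) ≤ H) →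
  (G.card : ℝ) ≤ 2 ^ N.primeFactors.card * (1 + 7 * H / Real.sqrt p)

/-- HL3 (from SSC.BRU, SSC.MER): many `h` -/
def T_HL3 : Prop := ∀ (M : ℕ) (ρ δ η : ℝ), 0 < M → 1 < ρ → ρ ≤ 2 → 0 < δ → 1 < η →
  ∃ Y₀ : ℝ, 32 ≤ Y₀ ∧ ∀ (Y : ℝ) (S : Set ℕ) (a Λ : ℕ), Y₀ ≤ Y → (∀ p ∈ S, p.Prime) →
    NS S (16 * Y ^ 4) ≤ Real.exp (Real.log Y / (Real.log (Real.log Y)) ^ η) →
    a.Prime → Y / 16 < a → (a : ℝ) ≤ Y → Squarefree Λ → (Λ : ℝ) ≤ Y ^ (1 / 4 : ℝ) →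
    (∀ l : ℕ, l.Prime → l ∣ Λ →
      Real.exp ((Real.log (Real.log Y)) ^ (1 + δ)) < l ∧ l ∉ S) →
    (a : ℝ) / Λ / (Real.log Y) ^ 3 ≤ ((HH S M ρ a Λ).card : ℝ)

/-! ## Families of factors -/

/-- weight -/
noncomputable def wt (U : Finset ℕ) : ℝ := ∏ l ∈ U, 1 / (l : ℝ)

/-- elementary symmetric function of the reciprocals -/
noncomputable def em (A : Finset ℕ) (m : ℕ) : ℝ := ∑ T ∈ A.powersetCard m, wt T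

/-- `k j` elements from `W j`, `j ≤ J` -/
noncomputable def FF (W : ℕ → Finset ℕ) (k : ℕ → ℕ) (J : ℕ) : Finset (Finset ℕ) :=
  ((range (J + 1)).biUnion W).powerset.filter fun U => ∀ j ∈ range (J + 1), (U ∩ W j).card = k j

/-- PRD -/
def T_PRD : Prop := ∀ (W : ℕ → Finset ℕ) (k : ℕ → ℕ) (J : ℕ), (∀ i j, i ≠ j → Disjoint (W i) (W j)) →
  (∀ U ∈ FF W k J, U.card = ∑ j ∈ range (J + 1), k j) ∧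
  ∑ U ∈ FF W k J, wt U = ∏ j ∈ range (J + 1), em (W j) (k j) ∧
  ∀ i ∈ range (J + 1), ∀ A : Finset ℕ, A ⊆ W i →
    (∑ U ∈ (FF W k J).filter fun U => U ∩ W i ⊆ A, wt U) * em (W i) (k i) =
      em A (k i) * ∏ j ∈ range (J + 1), em (W j) (k j)

/-- RAT (from SSC.ESY) -/
def T_RAT : Prop := ∀ (W A : Finset ℕ) (k : ℕ) (s : ℝ), A ⊆ W → (∀ l ∈ W, Real.exp s < (l : ℝ)) →
  1 ≤ ∑ l ∈ W, 1 / (l : ℝ) → 4 * (k : ℝ) ^ 2 ≤ Real.exp s →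
  (∀ c : ℝ, 0 ≤ c → ∑ l ∈ A, 1 / (l : ℝ) ≤ c * ∑ l ∈ W, 1 / (l : ℝ) →
    em A k ≤ 2 * c ^ k * em W k) ∧
  Real.exp (-(k * (Real.log (k + 1) + 1))) ≤ em W k

/-- the tuples `(a, U, h)` -/
noncomputable def UG (S : Set ℕ) (M : ℕ) (ρ Y : ℝ) (F : Finset (Finset ℕ)) :
    Finset (ℕ × Finset ℕ × ℕ) :=
  ((AA S Y) ×ˢ F ×ˢ (Icc 1 (2 * ⌊Y⌋₊))).filter
    fun t => t.2.2 ∈ HH S M ρ t.1 (∏ l ∈ t.2.1, l)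

/-- sum of the elements of `AA` -/
noncomputable def RR (S : Set ℕ) (Y : ℝ) : ℝ := ∑ a ∈ AA S Y, (a : ℝ)

/-- admissible families -/
def Fam (S : Set ℕ) (Y : ℝ) (K : ℕ) (F : Finset (Finset ℕ)) : Prop := ∀ U ∈ F, U.card = K ∧
  (∀ l ∈ U, l.Prime ∧ l ≠ 2 ∧ l ∉ S) ∧ ((∏ l ∈ U, l : ℕ) : ℝ) ≤ Y ^ (1 / 16 : ℝ)

/-- TU2: facts about the tuples -/
def T_TU2 : Prop := ∀ (S : Set ℕ) (M : ℕ) (ρ Y : ℝ) (K : ℕ) (F : Finset (Finset ℕ)),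
  (∀ p ∈ S, p.Prime) → 0 < M → 1 < ρ → ρ ≤ 2 → 32 ≤ Y → Fam S Y K F →
  (∀ t ∈ UG S M ρ Y F, Adm M ρ (dd t) ∧ (∀ q ∈ S, ¬ q ∣ dd t) ∧ (dd t : ℝ) ≤ 2 * Y ^ 2 ∧
    Y ^ 2 / 256 ≤ dd t ∧ (∀ l ∈ t.2.1, l ∣ dd t)) ∧
  (∀ D : ℕ, ((((UG S M ρ Y F).filter fun t => dd t = D).card : ℕ) : ℝ) ≤ (4 * Real.log Y) ^ K) ∧
  (∀ G : Finset (Finset ℕ), G ⊆ F → ((((UG S M ρ Y F).filter fun t => t.2.1 ∈ G).card : ℕ) : ℝ) ≤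
    2 * RR S Y * ∑ U ∈ G, wt U) ∧
  ∀ U ∈ F, Set.InjOn (fun t : ℕ × Finset ℕ × ℕ => t.1 * t.2.2)
    {t | t ∈ UG S M ρ Y F ∧ t.2.1 = U}

/-- LO2 (from HL3): the number of tuples -/
def T_LO2 : Prop := ∀ (M : ℕ) (ρ δ η : ℝ), 0 < M → 1 < ρ → ρ ≤ 2 → 0 < δ → 1 < η →
  ∃ Y₀ : ℝ, 32 ≤ Y₀ ∧ ∀ (Y : ℝ) (S : Set ℕ) (K : ℕ) (F : Finset (Finset ℕ)), Y₀ ≤ Y →
    (∀ p ∈ S, p.Prime) →
    NS S (16 * Y ^ 4) ≤ Real.exp (Real.log Y / (Real.log (Real.log Y)) ^ η) → Fam S Y K F →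
    (∀ U ∈ F, ∀ l ∈ U, Real.exp ((Real.log (Real.log Y)) ^ (1 + δ)) < (l : ℝ)) →
    RR S Y / (Real.log Y) ^ 3 * ∑ U ∈ F, wt U ≤ ((UG S M ρ Y F).card : ℝ)

/-- AS3 (from TU2, SSC.KIL, KI3): the killed tuples -/
def T_AS3 : Prop := ∀ (S : Set ℕ) (Kl : ℕ → ℕ → Prop) (M : ℕ) (ρ ε Y P : ℝ) (K : ℕ)
  (F : Finset (Finset ℕ)), Data S Kl M ρ → 32 ≤ Y → Fam S Y K F → 1 ≤ P → P ≤ 16 * Y ^ 4 → 0 < ε →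
  (∀ t ∈ UG S M ρ Y F, ∃ p ∈ S, ¬ p ∣ dd t ∧ Kl (dd t) p ∧
    (p : ℝ) ≤ Real.exp ((2 * Y ^ 2) ^ (1 / 2 + ε))) →
  ∃ B : ℕ → Finset ℕ, (∀ p, (2 : ℝ) ^ (B p).card ≤ 4 * Y ^ 4) ∧
  ((UG S M ρ Y F).card : ℝ) ≤
    (∑ p ∈ (Icc 1 ⌊P⌋₊).filter (fun p : ℕ => p ∈ S),
      2 * RR S Y * ∑ U ∈ F.filter fun U => ∀ l ∈ U, SSN.ch p l = 1 ∨ l ∈ B p, wt U) +
    NS S (16 * Y ^ 4) * ((4 * Real.log Y) ^ K +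
      2 ^ K * (F.card + 14 * Y ^ 2 / Real.sqrt P * ∑ U ∈ F, wt U)) +
    (4 * Real.log Y) ^ K * NS S (Real.exp ((2 * Y ^ 2) ^ (1 / 2 + ε)))

/-! ## Windows and parameters -/

/-- the scales -/
noncomputable def sj (A δ L : ℝ) (j : ℕ) : ℝ := A ^ j * (Real.log L) ^ (1 + δ)

/-- the windows -/
noncomputable def Wj (Q : Set ℕ) (A δ L : ℝ) (j : ℕ) : Finset ℕ :=
  (pri (Real.exp (sj A δ L j)) (Real.exp (sj A δ L (j + 1)))).filter fun l : ℕ => l ∈ Q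

/-- the number of factors -/
def KK (k : ℕ → ℕ) (J : ℕ) : ℕ := ∑ j ∈ range (J + 1), k j

/-- conditions on the parameters -/
def Prm (A δ ε L : ℝ) (J : ℕ) (k : ℕ → ℕ) : Prop :=
  4 * (KK k J : ℝ) ≤ sj A δ L J ∧
  ∑ j ∈ range (J + 1), (k j : ℝ) * sj A δ L (j + 1) ≤ L / 16 ∧
  (J : ℝ) ≤ 2 * Real.log L ∧
  Real.exp (L / (Real.log L) ^ (2 + 3 * δ)) * (7 / 10) ^ (k 0) * L ^ 6 ≤ 1 ∧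
  (∀ j ∈ range J, ∃ m : ℕ, 1 ≤ m ∧ 12 * (KK k J : ℝ) + 3 ≤ m * sj A δ L j ∧
    m.factorial * 12 ^ m * (A * m * sj A δ L j + 3) * (7 / 10) ^ (k (j + 1)) * L ^ 8 ≤ 1) ∧
  Real.exp (L / (Real.log L) ^ (2 + 3 * δ)) * 2 ^ (KK k J) * L ^ 8 ≤ Real.exp (2 * (KK k J : ℝ)) ∧
  (8 * L) ^ (4 * KK k J) ≤ Real.exp (ε * L) ∧
  (∀ j ∈ range (J + 1), 4 * (k j : ℝ) ^ 2 ≤ Real.exp (sj A δ L j)) ∧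
  200 * L ≤ Real.exp (sj A δ L 0) ∧ 2 ≤ sj A δ L 0

/-- PAR: the parameters exist -/
def T_PAR : Prop := ∀ A δ ε : ℝ, 3 ≤ A → 0 < δ → δ ≤ 1 → 0 < ε → ∃ L₀ : ℝ, 3 ≤ L₀ ∧
  ∀ L : ℝ, L₀ ≤ L → ∃ (J : ℕ) (k : ℕ → ℕ), Prm A δ ε L J k

/-- FML (from PRD, RAT): the family of the factors -/
def T_FML : Prop := ∀ (S Q : Set ℕ) (A δ ε Y : ℝ) (J : ℕ) (k : ℕ → ℕ), Cls S Q A → 0 < δ →
  0 < ε → 0 < Y → 3 ≤ Real.log Y → Prm A δ ε (Real.log Y) J k →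
  Fam S Y (KK k J) (FF (Wj Q A δ (Real.log Y)) k J) ∧
  (∀ U ∈ FF (Wj Q A δ (Real.log Y)) k J, ∀ l ∈ U,
    Real.exp ((Real.log (Real.log Y)) ^ (1 + δ)) < (l : ℝ)) ∧
  ((FF (Wj Q A δ (Real.log Y)) k J).card : ℝ) ≤ Y ^ (1 / 16 : ℝ) ∧
  Y ^ (-ε) ≤ ∑ U ∈ FF (Wj Q A δ (Real.log Y)) k J, wt U

/-- SML (from LV, RAT, PRD): the killers `p ≤ exp (4 K)` -/
def T_SML : Prop := ∀ (S Q : Set ℕ) (A δ ε Y : ℝ) (J : ℕ) (k : ℕ → ℕ) (B : ℕ → Finset ℕ),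
  Cls S Q A → (∀ p ∈ S, p.Prime ∧ p ≠ 2) → 0 < δ → 0 < ε → 3 ≤ Real.log Y →
  Prm A δ ε (Real.log Y) J k →
  NS S (16 * Y ^ 4) ≤ Real.exp (Real.log Y / (Real.log (Real.log Y)) ^ (2 + 3 * δ)) →
  (∀ p, (2 : ℝ) ^ (B p).card ≤ 4 * Y ^ 4) →
  ∑ p ∈ (Icc 1 ⌊Real.exp (4 * (KK k J : ℝ))⌋₊).filter (fun p : ℕ => p ∈ S),
      ∑ U ∈ (FF (Wj Q A δ (Real.log Y)) k J).filter
        (fun U => ∀ l ∈ U, SSN.ch p l = 1 ∨ l ∈ B p), wt U ≤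
    2 * (1 / (Real.log Y) ^ 6 + J / (Real.log Y) ^ 8) *
      ∑ U ∈ FF (Wj Q A δ (Real.log Y)) k J, wt U

/-- RRL (from SSC.CHEB) -/
def T_RRL : Prop := ∀ η : ℝ, 0 < η → ∃ Y₀ : ℝ, 32 ≤ Y₀ ∧ ∀ (Y : ℝ) (S : Set ℕ), Y₀ ≤ Y →
  NS S (16 * Y ^ 4) ≤ Real.exp (Real.log Y / (Real.log (Real.log Y)) ^ η) →
  Y ^ 2 / (Real.log Y) ^ 2 ≤ RR S Y

/-! ## The result -/

/-- DI3 (from PAR, FML, SML, RRL, LO2, AS3, TU2) -/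
def T_DI3 : Prop := ∀ (S : Set ℕ) (Kl : ℕ → ℕ → Prop) (M : ℕ) (ρ : ℝ) (Q : Set ℕ) (A : ℝ),
  Data S Kl M ρ → Cls S Q A → ∀ δ ε : ℝ, 0 < δ → δ ≤ 1 → 0 < ε → ε < 1 → ∃ Y₀ : ℝ, 1 ≤ Y₀ ∧
    ∀ Y : ℝ, Y₀ ≤ Y →
      Real.exp (Real.log Y / (Real.log (Real.log Y)) ^ (2 + 3 * δ)) ≤ NS S (16 * Y ^ 4) ∨
      Y ^ (2 - ε) ≤ NS S (Real.exp (Y ^ (1 + ε)))

/-- FA3 (from DI3): all large `x` -/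
def T_FA3 : Prop := ∀ (S : Set ℕ) (Kl : ℕ → ℕ → Prop) (M : ℕ) (ρ : ℝ) (Q : Set ℕ) (A : ℝ),
  Data S Kl M ρ → Cls S Q A → ∀ η : ℝ, 2 < η → ∃ x₀ : ℝ, ∀ x : ℝ, x₀ ≤ x →
    Real.exp (Real.log (Real.log x) / (Real.log (Real.log (Real.log x))) ^ η) ≤ NS S x

end SSD
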